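import Pool.Agent.Mader.Ear

/-! Layers of disjoint strongly connected bags. -/

open Classical

namespace Pool.Agent.Mader

universe u

variable {V : Type u}

/-- Largest weight in a bag. -/
noncomputable def top (w : V → ℝ) (b : Finset V) : ℝ :=
  if h : b.Nonempty then b.sup' h w else 0

theorem le_top {w : V → ℝ} {b : Finset V} {v : V} (hv : v ∈ b) : w v ≤ top w b := by
  unfold top
  rw [dif_pos ⟨v, hv⟩]
  exact Finset.le_sup' w hv

theorem top_le_iff {w : V → ℝ} {b : Finset V} (h : b.Nonempty) {t : ℝ}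
    (ht : ∀ v ∈ b, w v ≤ t) : top w b ≤ t := by
  unfold top
  rw [dif_pos h]
  exact Finset.sup'_le h w ht

theorem top_nonneg {w : V → ℝ} (hw : ∀ v, 0 ≤ w v) (b : Finset V) : 0 ≤ top w b := by
  by_cases h : b.Nonempty
  · obtain ⟨v, hv⟩ := h
    exact (hw v).trans (le_top hv)
  · unfold top; rw [dif_neg h]

theorem layer {a : V → V → Prop} (hirr : ∀ v, ¬ a v v) {w : V → ℝ} (hw : ∀ v, 0 ≤ w v) :
    ∀ n : ℕ, ∀ S : Finset V, S.card = n →
    ∃ U ⊆ S, TwoCol a U ∧ ∃ B : Finset (Finset V),
      (∀ b ∈ B, Conn a b ∧ b ⊆ U) ∧ (∀ b ∈ B, ∀ b' ∈ B, b ≠ b' → Disjoint b b') ∧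
      (∑ b ∈ B, top w b ≤ ∑ v ∈ U, w v) ∧
      ∀ v ∈ S, v ∉ U → ∃ b ∈ B, Att a v b ∧ w v ≤ top w b := by
  intro n
  induction n using Nat.strong_induction_on with
  | _ n IH =>
  intro S hSn
  rcases S.eq_empty_or_nonempty with hS | hS
  · refine ⟨∅, Finset.empty_subset _, ⟨fun _ => true, fun k Z hZ hne => ?_⟩, ∅, by simp, by simp,
      by simp, ?_⟩
    · exfalso
      obtain ⟨z, hz⟩ := hne
      have := hZ hz
      simp at this
    · intro v hv; rw [hS] at hv; simp at hv
  · -- a vertex of maximum weight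
    obtain ⟨rt, hrt, hmax⟩ := Finset.exists_max_image S w hS
    -- maximal two-colourable strongly connected set containing rt
    have hex : ∃ X ∈ S.powerset.filter (fun X => rt ∈ X ∧ Conn a X ∧ TwoCol a X),
        ∀ X' ∈ S.powerset.filter (fun X => rt ∈ X ∧ Conn a X ∧ TwoCol a X), X'.card ≤ X.card := by
      apply Finset.exists_max_image
      refine ⟨{rt}, ?_⟩
      rw [Finset.mem_filter, Finset.mem_powerset]
      refine ⟨by simpa using hrt, by simp, Conn.singleton a rt, fun _ => true, ?_⟩
      intro k Z hZ hne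
      obtain ⟨z, hz⟩ := hne
      have hZ' : ∀ z ∈ Z, z = rt := by
        intro z hz
        have := hZ hz
        rw [Finset.mem_filter, Finset.mem_singleton] at this
        exact this.1
      refine ⟨z, hz, ?_⟩
      intro v hv
      rw [hZ' z hz, hZ' v hv]
      exact hirr rt
    obtain ⟨X, hX, hXmax⟩ := hex
    rw [Finset.mem_filter, Finset.mem_powerset] at hX
    obtain ⟨hXS, hrtX, hXc, hXcol⟩ := hX
    set S' := (S \ X).filter (fun v => ¬ Att a v X) with hS'
    have hS'S : S' ⊆ S := (Finset.filter_subset _ _).trans Finset.sdiff_subset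
    have hS'X : ∀ z ∈ S', z ∉ X := by
      intro z hz
      rw [hS', Finset.mem_filter, Finset.mem_sdiff] at hz
      exact hz.1.2
    have hS'att : ∀ z ∈ S', ¬ Att a z X := by
      intro z hz
      rw [hS', Finset.mem_filter] at hz
      exact hz.2
    have hlt : S'.card < n := by
      rw [← hSn]
      apply Finset.card_lt_card
      rw [Finset.ssubset_iff_of_subset hS'S]
      exact ⟨rt, hrt, fun h => hS'X rt h hrtX⟩
    obtain ⟨U', hU'S, hU'col, B', hB'1, hB'2, hB'3, hB'4⟩ := IH S'.card hlt S' rfl
    have hU'X : ∀ z ∈ U', z ∉ X := fun z hz => hS'X z (hU'S hz)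
    have hU'att : ∀ z ∈ U', ¬ Att a z X := fun z hz => hS'att z (hU'S hz)
    -- connected sets inside X ∪ U' do not cross
    have hcross : ∀ Z ⊆ X ∪ U', Conn a Z → (Z ∩ X).Nonempty → Z ⊆ X := by
      intro Z hZ hZc hZX
      by_contra hcon
      have hYc : Conn a (X ∪ Z) := by
        apply hXc.union hZc
        rw [Finset.inter_comm]; exact hZX
      have hne : X ≠ X ∪ Z := by
        intro h
        apply hcon
        rw [h]; exact Finset.subset_union_right
      have hYsub : X ∪ Z ⊆ X ∪ U' := Finset.union_subset Finset.subset_union_left hZ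
      have hatt : ∀ v ∈ X ∪ Z, v ∉ X → ¬ Att a v X := by
        intro v hv hvX
        rcases Finset.mem_union.mp (hYsub hv) with h | h
        · exact absurd h hvX
        · exact hU'att v h
      obtain ⟨X', h1, h2, h3, h4, h5⟩ := ear hirr Finset.subset_union_left hne hXc hYc hXcol hatt
      have hX'S : X' ⊆ S := by
        refine h3.trans (hYsub.trans ?_)
        exact Finset.union_subset hXS (hU'S.trans hS'S)
      have h6 := hXmax X' (by
        rw [Finset.mem_filter, Finset.mem_powerset]
        exact ⟨hX'S, h1 hrtX, h4, h5⟩)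
      have h7 : X.card < X'.card :=
        Finset.card_lt_card (lt_of_le_of_ne h1 (fun h => h2 h.symm))
      omega
    have hXU'disj : Disjoint X U' := by
      rw [Finset.disjoint_left]
      intro z h1 h2
      exact hU'X z h2 h1
    have hXB' : X ∉ B' := by
      intro h
      have := (hB'1 X h).2 hrtX
      exact hU'X rt this hrtX
    refine ⟨X ∪ U', Finset.union_subset hXS (hU'S.trans hS'S), ?_, insert X B', ?_, ?_, ?_, ?_⟩
    · -- two-colourability
      obtain ⟨c1, hc1⟩ := hXcol
      obtain ⟨c2, hc2⟩ := hU'col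
      refine ⟨fun v => if v ∈ X then c1 v else c2 v, fun k => ?_⟩
      intro Z hZ hne
      by_contra hcon
      push Not at hcon
      obtain ⟨Z0, hZ0, hZ0c, hZ0s⟩ := exists_conn_sinkless hne hcon
      have hZ0mem : ∀ z ∈ Z0, z ∈ X ∪ U' ∧ (if z ∈ X then c1 z else c2 z) = k := by
        intro z hz
        have := hZ (hZ0 hz)
        rwa [Finset.mem_filter] at this
      by_cases hZX : (Z0 ∩ X).Nonempty
      · have hsub := hcross Z0 (fun z hz => (hZ0mem z hz).1) hZ0c hZX
        obtain ⟨u, hu, hus⟩ := hc1 k Z0 (by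
          intro z hz
          rw [Finset.mem_filter]
          have := (hZ0mem z hz).2
          rw [if_pos (hsub hz)] at this
          exact ⟨hsub hz, this⟩) hZ0c.1
        obtain ⟨v, hv, huv⟩ := hZ0s u hu
        exact hus v hv huv
      · have hno : ∀ z ∈ Z0, z ∉ X := fun z hz h => hZX ⟨z, Finset.mem_inter.mpr ⟨hz, h⟩⟩
        obtain ⟨u, hu, hus⟩ := hc2 k Z0 (by
          intro z hz
          rw [Finset.mem_filter]
          have := hZ0mem z hz
          rw [if_neg (hno z hz)] at this
          refine ⟨?_, this.2⟩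
          rcases Finset.mem_union.mp this.1 with h | h
          · exact absurd h (hno z hz)
          · exact h) hZ0c.1
        obtain ⟨v, hv, huv⟩ := hZ0s u hu
        exact hus v hv huv
    · intro b hb
      rcases Finset.mem_insert.mp hb with h | h
      · rw [h]; exact ⟨hXc, Finset.subset_union_left⟩
      · exact ⟨(hB'1 b h).1, (hB'1 b h).2.trans Finset.subset_union_right⟩
    · intro b hb b' hb' hne
      rcases Finset.mem_insert.mp hb with h | h <;> rcases Finset.mem_insert.mp hb' with h' | h'
      · exact absurd (h.trans h'.symm) hne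
      · rw [h]; exact Finset.disjoint_of_subset_right (hB'1 b' h').2 hXU'disj
      · rw [h']; exact (Finset.disjoint_of_subset_right (hB'1 b h).2 hXU'disj).symm
      · exact hB'2 b h b' h' hne
    · rw [Finset.sum_insert hXB', Finset.sum_union hXU'disj]
      have h1 : top w X ≤ ∑ v ∈ X, w v := by
        apply top_le_iff hXc.1
        intro v hv
        exact Finset.single_le_sum (fun i _ => hw i) hv
      linarith
    · intro v hv hvU
      rw [Finset.mem_union, not_or] at hvU
      by_cases hva : Att a v X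
      · refine ⟨X, Finset.mem_insert_self _ _, hva, ?_⟩
        exact (hmax v hv).trans (le_top hrtX)
      · obtain ⟨b, hb, h1, h2⟩ := hB'4 v (by
          rw [hS', Finset.mem_filter, Finset.mem_sdiff]
          exact ⟨⟨hv, hvU.1⟩, hva⟩) hvU.2
        exact ⟨b, Finset.mem_insert_of_mem hb, h1, h2⟩

/-- `p` layers. -/
theorem layers {a : V → V → Prop} (hirr : ∀ v, ¬ a v v) {w : V → ℝ} (hw : ∀ v, 0 ≤ w v)
    {al : ℝ} (hal : ∀ A : Finset V, Acyc a A → ∑ v ∈ A, w v ≤ al) (S : Finset V) :
    ∀ p : ℕ, ∃ R ⊆ S, ∃ B : Finset (Finset V),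
      (∀ b ∈ B, Conn a b ∧ Disjoint b R) ∧ (∀ b ∈ B, ∀ b' ∈ B, b ≠ b' → Disjoint b b') ∧
      (∑ b ∈ B, top w b ≤ 2 * p * al) ∧ (∑ v ∈ S, w v - 2 * p * al ≤ ∑ v ∈ R, w v) ∧
      ∀ v ∈ R, p ≤ (B.filter (fun b => Att a v b ∧ w v ≤ top w b)).card := by
  intro p
  induction p with
  | zero =>
    refine ⟨S, Finset.Subset.refl _, ∅, by simp, by simp, by simp, by simp, by simp⟩
  | succ p ih =>
    obtain ⟨R, hRS, B, hB1, hB2, hB3, hB4, hB5⟩ := ih
    obtain ⟨U, hUR, hUcol, B', hB'1, hB'2, hB'3, hB'4⟩ := layer hirr hw R.card R rfl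
    have hUw : ∑ v ∈ U, w v ≤ 2 * al := by
      obtain ⟨c, hc⟩ := hUcol
      have h1 := hal _ (hc true)
      have h2 := hal _ (hc false)
      have h3 : ∑ v ∈ U, w v = ∑ v ∈ U.filter (fun v => c v = true), w v +
          ∑ v ∈ U.filter (fun v => c v = false), w v := by
        rw [← Finset.sum_filter_add_sum_filter_not U (fun v => c v = true)]
        congr 1
        apply Finset.sum_congr _ (fun _ _ => rfl)
        apply Finset.filter_congr
        intro v _
        cases c v <;> simp
      linarith
    have hBB' : Disjoint B B' := by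
      rw [Finset.disjoint_left]
      intro b h1 h2
      obtain ⟨z, hz⟩ := (hB'1 b h2).1.1
      exact Finset.disjoint_left.mp (hB1 b h1).2 hz (hUR ((hB'1 b h2).2 hz))
    have hcast : (2 : ℝ) * ((p + 1 : ℕ) : ℝ) * al = 2 * p * al + 2 * al := by
      push_cast; ring
    refine ⟨R \ U, Finset.sdiff_subset.trans hRS, B ∪ B', ?_, ?_, ?_, ?_, ?_⟩
    · intro b hb
      rcases Finset.mem_union.mp hb with h | h
      · exact ⟨(hB1 b h).1, Finset.disjoint_of_subset_right Finset.sdiff_subset (hB1 b h).2⟩
      · refine ⟨(hB'1 b h).1, ?_⟩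
        rw [Finset.disjoint_left]
        intro z h1 h2
        exact (Finset.mem_sdiff.mp h2).2 ((hB'1 b h).2 h1)
    · intro b hb b' hb' hne
      have hmix : ∀ b ∈ B, ∀ b' ∈ B', Disjoint b b' := by
        intro b hb b' hb'
        exact Finset.disjoint_of_subset_right ((hB'1 b' hb').2.trans hUR) (hB1 b hb).2
      rcases Finset.mem_union.mp hb with h | h <;> rcases Finset.mem_union.mp hb' with h' | h'
      · exact hB2 b h b' h' hne
      · exact hmix b h b' h'
      · exact (hmix b' h' b h).symm
      · exact hB'2 b h b' h' hne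
    · rw [Finset.sum_union hBB', hcast]
      linarith
    · rw [hcast]
      have h1 : ∑ v ∈ R, w v = ∑ v ∈ R \ U, w v + ∑ v ∈ U, w v :=
        (Finset.sum_sdiff hUR).symm
      linarith
    · intro v hv
      rw [Finset.mem_sdiff] at hv
      obtain ⟨b, hb, h1, h2⟩ := hB'4 v hv.1 hv.2
      have h3 := hB5 v hv.1
      have hbB : b ∉ B := fun h => Finset.disjoint_left.mp hBB' h hb
      have h4 : (insert b (B.filter (fun b => Att a v b ∧ w v ≤ top w b))).card ≤
          ((B ∪ B').filter (fun b => Att a v b ∧ w v ≤ top w b)).card := by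
        apply Finset.card_le_card
        intro b' hb'
        rw [Finset.mem_filter, Finset.mem_union]
        rcases Finset.mem_insert.mp hb' with h | h
        · rw [h]; exact ⟨Or.inr hb, h1, h2⟩
        · rw [Finset.mem_filter] at h
          exact ⟨Or.inl h.1, h.2⟩
      rw [Finset.card_insert_of_notMem (fun h => hbB (Finset.mem_filter.mp h).1)] at h4
      omega

/-- Comparison of distributions. -/
theorem sum_le_of_count {α β : Type*} (A : Finset α) : ∀ (B : Finset β) (f : α → ℝ) (g : β → ℝ),
    (∀ i ∈ A, 0 ≤ f i) → (∀ j ∈ B, 0 ≤ g j) →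
    (∀ t : ℝ, 0 < t → (A.filter (fun i => t ≤ f i)).card ≤ (B.filter (fun j => t ≤ g j)).card) →
    ∑ i ∈ A, f i ≤ ∑ j ∈ B, g j := by
  induction hn : A.card generalizing A with
  | zero =>
    intro B f g hf hg _
    rw [Finset.card_eq_zero] at hn
    rw [hn, Finset.sum_empty]
    exact Finset.sum_nonneg hg
  | succ n ih =>
    intro B f g hf hg hcount
    have hA : A.Nonempty := Finset.card_pos.mp (by omega)
    obtain ⟨i0, hi0, hmax⟩ := Finset.exists_max_image A f hA
    rcases (hf i0 hi0).eq_or_lt with h0 | hpos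
    · have : ∑ i ∈ A, f i ≤ 0 := by
        apply Finset.sum_nonpos
        intro i hi
        rw [h0]; exact hmax i hi
      exact this.trans (Finset.sum_nonneg hg)
    · have h1 : (A.filter (fun i => f i0 ≤ f i)).Nonempty :=
        ⟨i0, Finset.mem_filter.mpr ⟨hi0, le_refl _⟩⟩
      have h2 := hcount (f i0) hpos
      have h3 : (B.filter (fun j => f i0 ≤ g j)).Nonempty := by
        rw [← Finset.card_pos] at h1 ⊢
        omega
      obtain ⟨j0, hj0⟩ := h3
      rw [Finset.mem_filter] at hj0
      have hrec : ∑ i ∈ A.erase i0, f i ≤ ∑ j ∈ B.erase j0, g j := by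
        apply ih (A.erase i0) (by rw [Finset.card_erase_of_mem hi0]; omega) (B.erase j0) f g
          (fun i hi => hf i (Finset.mem_of_mem_erase hi))
          (fun j hj => hg j (Finset.mem_of_mem_erase hj))
        intro t ht
        by_cases hti : t ≤ f i0
        · have e1 : (A.erase i0).filter (fun i => t ≤ f i) =
              (A.filter (fun i => t ≤ f i)).erase i0 := by
            rw [Finset.filter_erase]
          have e2 : (B.erase j0).filter (fun j => t ≤ g j) =
              (B.filter (fun j => t ≤ g j)).erase j0 := by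
            rw [Finset.filter_erase]
          rw [e1, e2, Finset.card_erase_of_mem (Finset.mem_filter.mpr ⟨hi0, hti⟩),
            Finset.card_erase_of_mem (Finset.mem_filter.mpr ⟨hj0.1, hti.trans hj0.2⟩)]
          have := hcount t ht
          omega
        · push Not at hti
          have : (A.erase i0).filter (fun i => t ≤ f i) = ∅ := by
            rw [Finset.filter_eq_empty_iff]
            intro i hi hti'
            have := hmax i (Finset.mem_of_mem_erase hi)
            linarith
          rw [this, Finset.card_empty]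
          exact Nat.zero_le _
      rw [← Finset.add_sum_erase A f hi0, ← Finset.add_sum_erase B g hj0.1]
      linarith [hj0.2]

/-- A threshold at which `A` is at least as numerous as `B`. -/
theorem exists_threshold {α β : Type*} {A : Finset α} {B : Finset β} {f : α → ℝ} {g : β → ℝ}
    (hf : ∀ i ∈ A, 0 ≤ f i) (hg : ∀ j ∈ B, 0 ≤ g j) (hpos : 0 < ∑ i ∈ A, f i)
    (hle : ∑ j ∈ B, g j ≤ ∑ i ∈ A, f i) :
    ∃ t : ℝ, 0 < t ∧ (A.filter (fun i => t ≤ f i)).Nonempty ∧
      (B.filter (fun j => t ≤ g j)).card ≤ (A.filter (fun i => t ≤ f i)).card := by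
  by_contra hcon
  push Not at hcon
  have hA : A.Nonempty := by
    rw [Finset.nonempty_iff_ne_empty]
    intro h; rw [h, Finset.sum_empty] at hpos; exact lt_irrefl _ hpos
  obtain ⟨i0, hi0, hmax⟩ := Finset.exists_max_image A f hA
  have hi0pos : 0 < f i0 := by
    by_contra h
    push Not at h
    have : ∑ i ∈ A, f i ≤ 0 := Finset.sum_nonpos (fun i hi => (hmax i hi).trans h)
    linarith
  have h1 := hcon (f i0) hi0pos ⟨i0, Finset.mem_filter.mpr ⟨hi0, le_refl _⟩⟩
  have h2 : (B.filter (fun j => f i0 ≤ g j)).Nonempty := by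
    rw [← Finset.card_pos]; omega
  obtain ⟨j0, hj0⟩ := h2
  rw [Finset.mem_filter] at hj0
  have h3 : ∑ i ∈ A, f i ≤ ∑ j ∈ B.erase j0, g j := by
    apply sum_le_of_count A (B.erase j0) f g hf (fun j hj => hg j (Finset.mem_of_mem_erase hj))
    intro t ht
    by_cases hti : t ≤ f i0
    · have h4 := hcon t ht ⟨i0, Finset.mem_filter.mpr ⟨hi0, hti⟩⟩
      rw [Finset.filter_erase, Finset.card_erase_of_mem
        (Finset.mem_filter.mpr ⟨hj0.1, hti.trans hj0.2⟩)]
      omega
    · push Not at hti
      have : A.filter (fun i => t ≤ f i) = ∅ := by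
        rw [Finset.filter_eq_empty_iff]
        intro i hi hti'
        have := hmax i hi
        linarith
      rw [this, Finset.card_empty]
      exact Nat.zero_le _
  have h5 := Finset.add_sum_erase B g hj0.1
  linarith [hj0.2]

end Pool.Agent.Mader
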