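import Pool.Agent.Mader.Model
import Pool.Agent.Mader.Layer

/-! From weights to a subdivision model by strongly connected sets, and then to paths. -/

open Classical

namespace Pool.Agent.Mader

universe u

variable {V : Type u}

/-- The bipartite attachment relation. -/
def bip (a : V → V → Prop) : V ⊕ Finset V → V ⊕ Finset V → Prop
  | Sum.inl v, Sum.inr b => Att a v b
  | Sum.inr b, Sum.inl v => Att a v b
  | _, _ => False

theorem bip_symm {a : V → V → Prop} : ∀ x y, bip a x y → bip a y x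
  | Sum.inl _, Sum.inr _, h => h
  | Sum.inr _, Sum.inl _, h => h

theorem bip_irrefl {a : V → V → Prop} : ∀ x, ¬ bip a x x
  | Sum.inl _, h => h
  | Sum.inr _, h => h

theorem bip_bip {a : V → V → Prop} : ∀ x y, bip a x y → (x.isLeft = true ↔ ¬ y.isLeft = true)
  | Sum.inl _, Sum.inr _, _ => by simp
  | Sum.inr _, Sum.inl _, _ => by simp

/-- The set of digraph vertices represented by a node. -/
def piece : V ⊕ Finset V → Finset V
  | Sum.inl v => {v}
  | Sum.inr b => b

theorem bip_out {a : V → V → Prop} : ∀ x y, bip a x y → ∃ u ∈ piece x, ∃ v ∈ piece y, a u v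
  | Sum.inl v, Sum.inr b, h => by
    obtain ⟨⟨x, hx, hvx⟩, _⟩ := h
    exact ⟨v, Finset.mem_singleton_self _, x, hx, hvx⟩
  | Sum.inr b, Sum.inl v, h => by
    obtain ⟨_, ⟨x, hx, hvx⟩⟩ := h
    exact ⟨x, hx, v, Finset.mem_singleton_self _, hvx⟩

theorem lift_conn {a : V → V → Prop} {C : Finset (V ⊕ Finset V)} (hC : Conn (bip a) C)
    (hp : ∀ x ∈ C, Conn a (piece x)) : Conn a (C.biUnion piece) := by
  refine ⟨?_, ?_⟩
  · obtain ⟨x, hx⟩ := hC.1
    obtain ⟨z, hz⟩ := (hp x hx).1
    exact ⟨z, Finset.mem_biUnion.mpr ⟨x, hx, hz⟩⟩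
  · intro Z hZ hne hneq
    by_contra hcon
    push Not at hcon
    have hsub : ∀ x ∈ C, piece x ⊆ C.biUnion piece := fun x hx =>
      Finset.subset_biUnion_of_mem piece hx
    have hcl : ∀ x ∈ C, (Z ∩ piece x).Nonempty → piece x ⊆ Z := by
      intro x hx hn
      have : Z ∩ piece x = piece x := by
        apply Conn.eq_of_closed (hp x hx) Finset.inter_subset_right hn
        intro u hu v hv huv
        rw [Finset.mem_inter] at hu ⊢
        refine ⟨?_, hv⟩
        by_contra hvZ
        exact hcon u hu.1 v (hsub x hx hv) hvZ huv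
      rw [← this]; exact Finset.inter_subset_left
    have hall : C.filter (fun x => piece x ⊆ Z) = C := by
      apply Conn.eq_of_closed hC (Finset.filter_subset _ _)
      · obtain ⟨z, hz⟩ := hne
        obtain ⟨x, hx, hzx⟩ := Finset.mem_biUnion.mp (hZ hz)
        exact ⟨x, Finset.mem_filter.mpr ⟨hx, hcl x hx ⟨z, Finset.mem_inter.mpr ⟨hz, hzx⟩⟩⟩⟩
      · intro x hx y hy hxy
        rw [Finset.mem_filter] at hx ⊢
        refine ⟨hy, ?_⟩
        obtain ⟨u, hu, v, hv, huv⟩ := bip_out x y hxy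
        apply hcl y hy
        refine ⟨v, Finset.mem_inter.mpr ⟨?_, hv⟩⟩
        by_contra hvZ
        exact hcon u (hx.2 hu) v (hsub y hy hv) hvZ huv
    apply hneq
    apply Finset.Subset.antisymm hZ
    intro z hz
    obtain ⟨x, hx, hzx⟩ := Finset.mem_biUnion.mp hz
    rw [← hall, Finset.mem_filter] at hx
    exact hx.2 hzx

theorem weighted {n : ℕ} {ι : Type*} [Fintype ι] (tl hd : ι → Fin n) {M : ℕ}
    (hM : Fintype.card ι + n ≤ M) (hM1 : 1 ≤ M) {a : V → V → Prop} (hirr : ∀ v, ¬ a v v)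
    {w : V → ℝ} (hw : ∀ v, 0 ≤ w v) (S : Finset V) (hpos : 0 < ∑ v ∈ S, w v)
    (hal : ∀ A : Finset V, Acyc a A →
      (8 * (70 * M + 1) : ℝ) * ∑ v ∈ A, w v ≤ ∑ v ∈ S, w v) :
    ∃ (v : Fin n → V) (I : ι → Finset V), Function.Injective v ∧
      (∀ e, Conn a (I e) ∧ (∃ x ∈ I e, a (v (tl e)) x) ∧ (∃ y ∈ I e, a y (v (hd e))) ∧
        ∀ i, v i ∉ I e) ∧
      ∀ e e', e ≠ e' → Disjoint (I e) (I e') := by
  have hc0 : (0 : ℝ) < 8 * (70 * M + 1) := by positivity
  obtain ⟨R, hRS, B, hB1, hB2, hB3, hB4, hB5⟩ := layers (al := (∑ v ∈ S, w v) / (8 * (70 * M + 1)))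
    hirr hw (by
      intro A hA
      rw [le_div_iff₀ hc0, mul_comm]
      exact hal A hA) S (2 * (70 * M + 1))
  have hhalf : (2 : ℝ) * ((2 * (70 * M + 1) : ℕ) : ℝ) *
      ((∑ v ∈ S, w v) / (8 * (70 * M + 1))) = (∑ v ∈ S, w v) / 2 := by
    push_cast
    field_simp
    norm_num
  rw [hhalf] at hB3 hB4
  obtain ⟨t, ht, hRt, hcard⟩ := exists_threshold (A := R) (B := B) (f := w) (g := top w)
    (fun i _ => hw i) (fun j _ => top_nonneg hw j) (by linarith) (by linarith)
  set Rt := R.filter (fun i => t ≤ w i) with hRtdef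
  set Bt := B.filter (fun b => t ≤ top w b) with hBtdef
  set G := Rt.disjSum Bt with hG
  -- edge count
  have hP : 2 * (70 * M + 1) * Rt.card ≤ ((Rt ×ˢ Bt).filter (fun q => Att a q.1 q.2)).card := by
    have h1 : ((Rt ×ˢ Bt).filter (fun q => Att a q.1 q.2)).card =
        ∑ v ∈ Rt, (Bt.filter (fun b => Att a v b)).card := by
      rw [Finset.card_filter, Finset.sum_product]
      apply Finset.sum_congr rfl
      intro v _
      rw [Finset.card_filter]
    rw [h1]
    have h2 := Finset.card_nsmul_le_sum Rt (fun v => (Bt.filter (fun b => Att a v b)).card)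
      (2 * (70 * M + 1)) (by
        intro v hv
        rw [hRtdef, Finset.mem_filter] at hv
        refine (hB5 v hv.1).trans (Finset.card_le_card ?_)
        intro b hb
        rw [Finset.mem_filter] at hb ⊢
        exact ⟨Finset.mem_filter.mpr ⟨hb.1, hv.2.trans hb.2.2⟩, hb.2.1⟩)
    rw [smul_eq_mul] at h2
    rw [Nat.mul_comm]
    exact h2
  have hE : 2 * (70 * M + 1) * G.card ≤ e2 (bip a) G := by
    have h1 : G.card = Rt.card + Bt.card := Finset.card_disjSum _ _
    have h2 : 2 * ((Rt ×ˢ Bt).filter (fun q => Att a q.1 q.2)).card ≤ e2 (bip a) G := by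
      set P := (Rt ×ˢ Bt).filter (fun q => Att a q.1 q.2) with hPdef
      have h3 : (P.image (fun q => ((Sum.inl q.1 : V ⊕ Finset V), (Sum.inr q.2 : V ⊕ Finset V)))
          ∪ P.image (fun q => ((Sum.inr q.2 : V ⊕ Finset V), (Sum.inl q.1 : V ⊕ Finset V)))).card
          ≤ e2 (bip a) G := by
        unfold e2
        apply Finset.card_le_card
        intro z hz
        rw [Finset.mem_filter, Finset.mem_product]
        rcases Finset.mem_union.mp hz with h | h
        · rw [Finset.mem_image] at h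
          obtain ⟨q, hq, rfl⟩ := h
          rw [hPdef, Finset.mem_filter, Finset.mem_product] at hq
          exact ⟨⟨Finset.inl_mem_disjSum.mpr hq.1.1, Finset.inr_mem_disjSum.mpr hq.1.2⟩, hq.2⟩
        · rw [Finset.mem_image] at h
          obtain ⟨q, hq, rfl⟩ := h
          rw [hPdef, Finset.mem_filter, Finset.mem_product] at hq
          exact ⟨⟨Finset.inr_mem_disjSum.mpr hq.1.2, Finset.inl_mem_disjSum.mpr hq.1.1⟩, hq.2⟩
      rw [Finset.card_union_of_disjoint, Finset.card_image_of_injective,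
        Finset.card_image_of_injective] at h3
      · omega
      · intro q q' h
        simp only [Prod.mk.injEq, Sum.inr.injEq, Sum.inl.injEq] at h
        exact Prod.ext h.2 h.1
      · intro q q' h
        simp only [Prod.mk.injEq, Sum.inr.injEq, Sum.inl.injEq] at h
        exact Prod.ext h.1 h.2
      · rw [Finset.disjoint_left]
        intro z h1 h2
        rw [Finset.mem_image] at h1 h2
        obtain ⟨q, _, rfl⟩ := h1
        obtain ⟨q', _, h⟩ := h2
        simp at h
    rw [h1]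
    have h4 : 2 * (70 * M + 1) * (Rt.card + Bt.card) ≤ 2 * (70 * M + 1) * (Rt.card + Rt.card) :=
      Nat.mul_le_mul_left _ (by omega)
    have h5 : 2 * (70 * M + 1) * (Rt.card + Rt.card) = 2 * (2 * (70 * M + 1) * Rt.card) := by ring
    omega
  have hGne : G.Nonempty := by
    obtain ⟨v, hv⟩ := hRt
    exact ⟨Sum.inl v, Finset.inl_mem_disjSum.mpr hv⟩
  obtain ⟨v', C, hv'inj, hv'R, hC, hd'⟩ := model tl hd hM hM1 bip_symm bip_irrefl hGne hE
    (fun x => x.isLeft = true) bip_bip
  have hv'' : ∀ i, ∃ v, v' i = Sum.inl v ∧ v ∈ Rt := by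
    intro i
    obtain ⟨h1, h2⟩ := hv'R i
    obtain ⟨v, hv⟩ := Sum.isLeft_iff.mp h1
    refine ⟨v, hv, ?_⟩
    rw [hv] at h2
    exact Finset.inl_mem_disjSum.mp h2
  choose v hv hvRt using hv''
  have hRtR : Rt ⊆ R := Finset.filter_subset _ _
  have hBtB : Bt ⊆ B := Finset.filter_subset _ _
  have hpiece : ∀ x ∈ G, Conn a (piece x) := by
    intro x hx
    rcases x with x | b
    · exact Conn.singleton a x
    · exact (hB1 b (hBtB (Finset.inr_mem_disjSum.mp hx))).1
  refine ⟨v, fun e => (C e).biUnion piece, ?_, ?_, ?_⟩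
  · intro i j hij
    apply hv'inj
    rw [hv, hv, hij]
  · intro e
    obtain ⟨h1, h2, ⟨x, hx, hx'⟩, ⟨y, hy, hy'⟩, h5⟩ := hC e
    refine ⟨lift_conn h2 (fun x hx => hpiece x (h1 hx)), ?_, ?_, ?_⟩
    · obtain ⟨z, hz, z', hz', hzz⟩ := bip_out _ _ hx'
      rw [hv, piece, Finset.mem_singleton] at hz
      subst hz
      exact ⟨z', Finset.mem_biUnion.mpr ⟨x, hx, hz'⟩, hzz⟩
    · obtain ⟨z, hz, z', hz', hzz⟩ := bip_out _ _ (bip_symm _ _ hy')
      rw [hv, piece, Finset.mem_singleton] at hz'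
      subst hz'
      exact ⟨z, Finset.mem_biUnion.mpr ⟨y, hy, hz⟩, hzz⟩
    · intro i hi
      obtain ⟨x, hx, hix⟩ := Finset.mem_biUnion.mp hi
      rcases x with x | b
      · rw [piece, Finset.mem_singleton] at hix
        apply h5 i
        rw [hv, hix]; exact hx
      · have hb := hBtB (Finset.inr_mem_disjSum.mp (h1 hx))
        exact Finset.disjoint_left.mp (hB1 b hb).2 hix (hRtR (hvRt i))
  · intro e e' hne
    rw [Finset.disjoint_left]
    intro z hz hz'
    obtain ⟨x, hx, hzx⟩ := Finset.mem_biUnion.mp hz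
    obtain ⟨y, hy, hzy⟩ := Finset.mem_biUnion.mp hz'
    have hxy : x ≠ y := fun h => Finset.disjoint_left.mp (hd' e e' hne) hx (h ▸ hy)
    have hxG := (hC e).1 hx
    have hyG := (hC e').1 hy
    rcases x with x | b <;> rcases y with y | b'
    · rw [piece, Finset.mem_singleton] at hzx hzy
      apply hxy; rw [← hzx, ← hzy]
    · rw [piece, Finset.mem_singleton] at hzx
      subst hzx
      exact Finset.disjoint_left.mp (hB1 b' (hBtB (Finset.inr_mem_disjSum.mp hyG))).2 hzy
        (hRtR (Finset.inl_mem_disjSum.mp hxG))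
    · rw [piece, Finset.mem_singleton] at hzy
      subst hzy
      exact Finset.disjoint_left.mp (hB1 b (hBtB (Finset.inr_mem_disjSum.mp hxG))).2 hzx
        (hRtR (Finset.inl_mem_disjSum.mp hyG))
    · have hbb' : b ≠ b' := fun h => hxy (by rw [h])
      exact Finset.disjoint_left.mp (hB2 b (hBtB (Finset.inr_mem_disjSum.mp hxG)) b'
        (hBtB (Finset.inr_mem_disjSum.mp hyG)) hbb') hzx hzy

/-- Explicit path through a strongly connected set. -/
theorem path_through {a : V → V → Prop} {I : Finset V} (hI : Conn a I) {u w : V}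
    (hu : ∃ x ∈ I, a u x) (hw : ∃ y ∈ I, a y w) :
    ∃ (L : ℕ) (p : ℕ → V), p 0 = u ∧ p (L + 1) = w ∧ (∀ t, t ≤ L → a (p t) (p (t + 1))) ∧
      (∀ s t, 1 ≤ s → s ≤ L → 1 ≤ t → t ≤ L → p s = p t → s = t) ∧
      ∀ t, 1 ≤ t → t ≤ L → p t ∈ I := by
  obtain ⟨x, hx, hux⟩ := hu
  obtain ⟨y, hy, hyw⟩ := hw
  have hxI : ({x} : Finset V) ⊆ I := by simpa using hx
  have hreach : ∃ i, y ∈ lev a I {x} i := by
    have : I.filter (fun y => ∃ i, y ∈ lev a I {x} i) = I := by
      apply Conn.eq_of_closed hI (Finset.filter_subset _ _)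
      · exact ⟨x, Finset.mem_filter.mpr ⟨hx, 0, by simp [lev]⟩⟩
      · intro u hu v hv huv
        rw [Finset.mem_filter] at hu ⊢
        obtain ⟨i, hi⟩ := hu.2
        exact ⟨hv, i + 1, lev_succ hi hv huv⟩
    rw [← this, Finset.mem_filter] at hy
    exact hy.2
  obtain ⟨q, hql, hq, hqa⟩ := lev_path (Nat.find hreach) y (Nat.find_spec hreach)
    (fun i hi => Nat.find_min hreach hi)
  set l := Nat.find hreach with hl
  have hq0 : q 0 = x := by
    have := (hq 0 (by omega)).1
    simpa [lev] using this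
  refine ⟨l + 1, fun s => if s = 0 then u else if s ≤ l + 1 then q (s - 1) else w, ?_, ?_, ?_,
    ?_, ?_⟩
  · simp
  · simp
  · intro t ht
    rcases Nat.eq_zero_or_pos t with h0 | h0
    · subst h0
      simp [hq0, hux]
    · by_cases htl : t = l + 1
      · subst htl
        simp [hql, hyw]
      · have h1 : ¬ t = 0 := by omega
        have h2 : t ≤ l + 1 := ht
        have h3 : ¬ t + 1 = 0 := by omega
        have h4 : t + 1 ≤ l + 1 := by omega
        simp only [h1, h2, h3, h4, if_true, if_false]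
        have h5 : t + 1 - 1 = (t - 1) + 1 := by omega
        rw [h5]
        exact hqa (t - 1) (by omega)
  · intro s t hs hs' ht ht' hst
    have h1 : ¬ s = 0 := by omega
    have h2 : ¬ t = 0 := by omega
    simp only [h1, h2, hs', ht', if_true, if_false] at hst
    by_contra hcon
    rcases Nat.lt_or_gt_of_ne hcon with h | h
    · exact (hq (t - 1) (by omega)).2 (s - 1) (by omega) (hst ▸ (hq (s - 1) (by omega)).1)
    · exact (hq (s - 1) (by omega)).2 (t - 1) (by omega) (hst ▸ (hq (t - 1) (by omega)).1)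
  · intro t ht ht'
    have h2 : ¬ t = 0 := by omega
    simp only [h2, ht', if_true, if_false]
    exact lev_subset hxI _ (hq (t - 1) (by omega)).1

/-- Acyclicity in the usual sense follows from the sink condition. -/
theorem Acyc.no_cycle {a : V → V → Prop} {A : Finset V} (h : Acyc a A) :
    ∀ v, ¬ Relation.TransGen (fun x y => x ∈ A ∧ y ∈ A ∧ a x y) v v := by
  intro v hv
  set r : V → V → Prop := fun x y => x ∈ A ∧ y ∈ A ∧ a x y with hr
  set Z := A.filter (fun z => Relation.ReflTransGen r v z ∧ Relation.ReflTransGen r z v) with hZ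
  have hvA : v ∈ A := by
    obtain ⟨y, hvy, _⟩ := Relation.TransGen.head'_iff.mp hv
    exact hvy.1
  have hvZ : v ∈ Z := by
    rw [hZ, Finset.mem_filter]
    exact ⟨hvA, Relation.ReflTransGen.refl, Relation.ReflTransGen.refl⟩
  obtain ⟨u, hu, hsink⟩ := h Z (Finset.filter_subset _ _) ⟨v, hvZ⟩
  rw [hZ, Finset.mem_filter] at hu
  obtain ⟨huA, hvu, huv⟩ := hu
  have huv' : Relation.TransGen r u v := by
    rcases Relation.reflTransGen_iff_eq_or_transGen.mp huv with h1 | h1
    · rw [h1] at hv ⊢; exact hv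
    · exact h1
  obtain ⟨y, huy, hyv⟩ := Relation.TransGen.head'_iff.mp huv'
  apply hsink y _ huy.2.2
  rw [hZ, Finset.mem_filter]
  exact ⟨huy.2.1, hvu.tail huy, hyv⟩

end Pool.Agent.Mader
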