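import Pool.Agent.Mader.TW2

/-! Mader's theorem: a graph of large average degree has a highly connected dense subgraph,
and the resulting linkage of prescribed neighbours. -/

open Classical

namespace Pool.Agent.Mader

universe u

variable {V : Type u}

theorem e2_erase {r : V → V → Prop} (hs : ∀ u v, r u v → r v u) {S : Finset V} (v : V) :
    e2 r S ≤ e2 r (S.erase v) + 2 * deg r S v := by
  unfold e2 deg
  have h1 : ((S ×ˢ S).filter (fun p => r p.1 p.2)) ⊆
      ((S.erase v ×ˢ S.erase v).filter (fun p => r p.1 p.2)) ∪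
      ((S.filter (fun u => r v u)).image (fun u => (v, u)) ∪
        (S.filter (fun u => r v u)).image (fun u => (u, v))) := by
    rintro ⟨a, b⟩ hp
    simp only [Finset.mem_filter, Finset.mem_product, Finset.mem_union, Finset.mem_image,
      Finset.mem_erase, Prod.mk.injEq] at hp ⊢
    obtain ⟨⟨ha, hb⟩, hab⟩ := hp
    by_cases hav : a = v
    · right; left
      subst hav
      exact ⟨b, ⟨hb, hab⟩, rfl, rfl⟩
    · by_cases hbv : b = v
      · right; right
        subst hbv
        exact ⟨a, ⟨ha, hs _ _ hab⟩, rfl, rfl⟩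
      · left
        exact ⟨⟨⟨hav, ha⟩, ⟨hbv, hb⟩⟩, hab⟩
  refine (Finset.card_le_card h1).trans ?_
  refine (Finset.card_union_le _ _).trans ?_
  apply Nat.add_le_add_left
  refine (Finset.card_union_le _ _).trans ?_
  have h2 := Finset.card_image_le (s := S.filter (fun u => r v u)) (f := fun u => (v, u))
  have h3 := Finset.card_image_le (s := S.filter (fun u => r v u)) (f := fun u => (u, v))
  omega

theorem e2_le_sq (r : V → V → Prop) (S : Finset V) : e2 r S ≤ S.card * S.card := by
  unfold e2
  rw [← Finset.card_product]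
  exact Finset.card_le_card (Finset.filter_subset _ _)

theorem e2_sep {r : V → V → Prop} (hs : ∀ u v, r u v → r v u) {T A B : Finset V}
    (h : Sep r T A B) : e2 r T ≤ e2 r A + e2 r B := by
  unfold e2
  refine le_trans (Finset.card_le_card ?_) (Finset.card_union_le _ _)
  rintro ⟨a, b⟩ hp
  rw [Finset.mem_filter, Finset.mem_product] at hp
  rw [Finset.mem_union, Finset.mem_filter, Finset.mem_product, Finset.mem_filter,
    Finset.mem_product]
  obtain ⟨⟨ha, hb⟩, hab⟩ := hp
  simp only at ha hb hab ⊢
  have ha' := ha
  have hb' := hb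
  rw [← h.1, Finset.mem_union] at ha' hb'
  by_cases haA : a ∈ A
  · by_cases hbA : b ∈ A
    · exact Or.inl ⟨⟨haA, hbA⟩, hab⟩
    · have hbB : b ∈ B := by
        rcases hb' with g | g
        · exact absurd g hbA
        · exact g
      by_cases haB : a ∈ B
      · exact Or.inr ⟨⟨haB, hbB⟩, hab⟩
      · exact absurd hab (h.2 a haA haB b hbB hbA)
  · have haB : a ∈ B := by
      rcases ha' with g | g
      · exact absurd g haA
      · exact g
    by_cases hbB : b ∈ B
    · exact Or.inr ⟨⟨haB, hbB⟩, hab⟩
    · have hbA : b ∈ A := by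
        rcases hb' with g | g
        · exact g
        · exact absurd g hbB
      exact absurd (hs _ _ hab) (h.2 b hbA hbB a haB haA)

theorem mader_sub {k g : ℕ} (hk : 1 ≤ k) (hg : 2 * k ≤ g) {r : V → V → Prop}
    (hs : ∀ u v, r u v → r v u) {S : Finset V} (hne : S.Nonempty)
    (hE : 2 * g * S.card ≤ e2 r S) :
    ∃ T ⊆ S, T.Nonempty ∧
      (∀ A B, Sep r T A B → (A ∩ B).card ≤ k → A = T ∨ B = T) ∧
      (∀ v ∈ T, g < deg r T v) ∧ 2 * g * T.card ≤ e2 r T + 2 * k * T.card := by
  have hg0 : 0 < g * k := Nat.mul_pos (by omega) (by omega)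
  have hex : ∃ n, ∃ T ⊆ S, 2 * k ≤ T.card ∧ 2 * g * T.card < e2 r T + 2 * g * k ∧ T.card = n := by
    refine ⟨_, S, Finset.Subset.refl _, ?_, ?_, rfl⟩
    · have h1 := hE.trans (e2_le_sq r S)
      have h2 : 2 * g ≤ S.card := Nat.le_of_mul_le_mul_right h1 (Finset.card_pos.mpr hne)
      omega
    · nlinarith
  obtain ⟨T, hTS, hTk, hTe, hTn⟩ := Nat.find_spec hex
  have hmin : ∀ T' ⊆ T, T' ≠ T → 2 * k ≤ T'.card → e2 r T' + 2 * g * k ≤ 2 * g * T'.card := by
    intro T' hT' hne' hk'
    by_contra hcon
    push Not at hcon
    have hlt : T'.card < Nat.find hex := by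
      rw [← hTn]; exact Finset.card_lt_card (lt_of_le_of_ne hT' hne')
    exact Nat.find_min hex hlt ⟨T', hT'.trans hTS, hk', hcon, rfl⟩
  have hTk' : 2 * k + 1 ≤ T.card := by
    by_contra hcon
    have h1 : T.card = 2 * k := by omega
    have h2 := e2_le_sq r T
    rw [h1] at h2 hTe
    nlinarith
  have hdeg : ∀ v ∈ T, g < deg r T v := by
    intro v hv
    have h1 := e2_erase hs (S := T) v
    have h2 := Finset.card_erase_of_mem hv
    have h3 := hmin (T.erase v) (Finset.erase_subset _ _) (by
      intro h; rw [← h] at hv; simp at hv) (by omega)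
    have h4 : T.card = (T.erase v).card + 1 := by omega
    rw [h4] at hTe
    nlinarith
  refine ⟨T, hTS, Finset.card_pos.mp (by omega), ?_, hdeg, ?_⟩
  · intro A B hsep hc
    by_contra hcon
    push Not at hcon
    obtain ⟨hAT, hBT⟩ := hcon
    -- general bound for each side
    have hdegA : ∀ A B, Sep r T A B → B ≠ T → A ≠ T → 2 * k ≤ A.card := by
      intro A B hsep hBT _
      have hex : ∃ a ∈ T, a ∉ B := by
        by_contra hc
        push Not at hc
        exact hBT (Finset.Subset.antisymm hsep.right hc)
      obtain ⟨a, haT, haB⟩ := hex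
      have haA : a ∈ A := by
        rw [← hsep.1, Finset.mem_union] at haT
        rcases haT with h | h
        · exact h
        · exact absurd h haB
      have h1 := hdeg a haT
      have h2 : deg r T a ≤ A.card := by
        apply Finset.card_le_card
        intro z hz
        rw [Finset.mem_filter] at hz
        by_contra hzA
        have hzB : z ∈ B := by
          have := hz.1
          rw [← hsep.1, Finset.mem_union] at this
          rcases this with h | h
          · exact absurd h hzA
          · exact h
        exact hsep.2 a haA haB z hzB hzA hz.2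
      omega
    have hsep' : Sep r T B A := by
      refine ⟨by rw [Finset.union_comm]; exact hsep.1, ?_⟩
      intro a ha haA b hb hbB hab
      exact hsep.2 b hb hbB a ha haA (hs _ _ hab)
    have h1 := hmin A hsep.left hAT (hdegA A B hsep hBT hAT)
    have h2 := hmin B hsep.right hBT (hdegA B A hsep' hAT hBT)
    have h3 := e2_sep hs hsep
    have h4 := Finset.card_union_add_card_inter A B
    rw [hsep.1] at h4
    have h5 : A.card + B.card ≤ T.card + k := by omega
    have h6 : 2 * g * (A.card + B.card) ≤ 2 * g * (T.card + k) := Nat.mul_le_mul_left _ h5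
    rw [Nat.mul_add, Nat.mul_add] at h6
    omega
  · obtain ⟨v, hv⟩ : T.Nonempty := Finset.card_pos.mp (by omega)
    have h1 := hdeg v hv
    have h2 : deg r T v ≤ T.card := Finset.card_le_card (Finset.filter_subset _ _)
    nlinarith

end Pool.Agent.Mader
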