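import Pool.Agent.Mader.Conn

/-! Ears and two-colourable strongly connected sets in digraphs. -/

open Classical

namespace Pool.Agent.Mader

universe u

variable {V : Type u}

/-- Every nonempty subset of `X` has a sink. -/
def Acyc (a : V → V → Prop) (X : Finset V) : Prop :=
  ∀ Z ⊆ X, Z.Nonempty → ∃ u ∈ Z, ∀ v ∈ Z, ¬ a u v

/-- `X` splits into two acyclic sets. -/
def TwoCol (a : V → V → Prop) (X : Finset V) : Prop :=
  ∃ c : V → Bool, ∀ k, Acyc a (X.filter (fun v => c v = k))

/-- `v` has an out-neighbour and an in-neighbour in `X`. -/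
def Att (a : V → V → Prop) (v : V) (X : Finset V) : Prop :=
  (∃ x ∈ X, a v x) ∧ ∃ x ∈ X, a x v

theorem Acyc.mono {a : V → V → Prop} {X X' : Finset V} (h : Acyc a X) (hX : X' ⊆ X) :
    Acyc a X' := fun Z hZ hne => h Z (hZ.trans hX) hne

/-- Out-levels from `X` inside `Y`. -/
noncomputable def lev (a : V → V → Prop) (Y X : Finset V) : ℕ → Finset V
  | 0 => X
  | i + 1 => lev a Y X i ∪ Y.filter (fun y => ∃ u ∈ lev a Y X i, a u y)

theorem lev_subset {a : V → V → Prop} {Y X : Finset V} (hXY : X ⊆ Y) :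
    ∀ i, lev a Y X i ⊆ Y
  | 0 => hXY
  | i + 1 => by
    unfold lev
    exact Finset.union_subset (lev_subset hXY i) (Finset.filter_subset _ _)

theorem lev_succ {a : V → V → Prop} {Y X : Finset V} {i : ℕ} {u y : V} (hu : u ∈ lev a Y X i)
    (hy : y ∈ Y) (h : a u y) : y ∈ lev a Y X (i + 1) := by
  unfold lev
  exact Finset.mem_union_right _ (Finset.mem_filter.mpr ⟨hy, u, hu, h⟩)

theorem lev_mono {a : V → V → Prop} {Y X : Finset V} {i j : ℕ} (hij : i ≤ j) :
    lev a Y X i ⊆ lev a Y X j := by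
  induction hij with
  | refl => exact Finset.Subset.refl _
  | step h ih =>
    refine ih.trans ?_
    intro z hz
    rw [lev]
    exact Finset.mem_union_left _ hz

theorem lev_path {a : V → V → Prop} {Y X : Finset V} : ∀ l : ℕ, ∀ y ∈ lev a Y X l,
    (∀ i < l, y ∉ lev a Y X i) → ∃ p : ℕ → V, p l = y ∧
      (∀ i ≤ l, p i ∈ lev a Y X i ∧ ∀ j < i, p i ∉ lev a Y X j) ∧
      ∀ i < l, a (p i) (p (i + 1)) := by
  intro l
  induction l with
  | zero =>
    intro y hy _
    refine ⟨fun _ => y, rfl, ?_, ?_⟩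
    · intro i hi
      have : i = 0 := by omega
      subst this
      exact ⟨hy, fun j hj => by omega⟩
    · intro i hi; omega
  | succ l ih =>
    intro y hy hmin
    have hy' := hy
    rw [lev, Finset.mem_union, Finset.mem_filter] at hy'
    rcases hy' with h | ⟨hyY, u, hu, hay⟩
    · exact absurd h (hmin l (by omega))
    · have humin : ∀ i < l, u ∉ lev a Y X i := by
        intro i hi hui
        exact hmin (i + 1) (by omega) (lev_succ hui hyY hay)
      obtain ⟨p, hpl, hp, hpa⟩ := ih u hu humin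
      refine ⟨Function.update p (l + 1) y, by simp, ?_, ?_⟩
      · intro i hi
        by_cases hil : i = l + 1
        · subst hil
          rw [Function.update_self]
          exact ⟨hy, hmin⟩
        · rw [Function.update_of_ne hil]
          exact hp i (by omega)
      · intro i hi
        rw [Function.update_of_ne (by omega : i ≠ l + 1)]
        by_cases hil : i = l
        · subst hil
          rw [Function.update_self, hpl]
          exact hay
        · rw [Function.update_of_ne (by omega : i + 1 ≠ l + 1)]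
          exact hpa i (by omega)

/-- The ear lemma. -/
theorem ear {a : V → V → Prop} (hirr : ∀ v, ¬ a v v) {X Y : Finset V} (hXY : X ⊆ Y)
    (hne : X ≠ Y) (hX : Conn a X) (hY : Conn a Y) (hcol : TwoCol a X)
    (hatt : ∀ v ∈ Y, v ∉ X → ¬ Att a v X) :
    ∃ X', X ⊆ X' ∧ X' ≠ X ∧ X' ⊆ Y ∧ Conn a X' ∧ TwoCol a X' := by
  -- exit vertex
  have hYX : (Y \ X).Nonempty := by
    rw [Finset.sdiff_nonempty]
    intro h; exact hne (Finset.Subset.antisymm hXY h)
  have hYXne : Y \ X ≠ Y := by
    intro h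
    obtain ⟨x, hx⟩ := hX.1
    have : x ∈ Y \ X := by rw [h]; exact hXY hx
    exact (Finset.mem_sdiff.mp this).2 hx
  obtain ⟨w, hw, x0, hx0Y, hx0, hwx0⟩ := hY.2 (Y \ X) Finset.sdiff_subset hYX hYXne
  have hwYX := Finset.mem_sdiff.mp hw
  have hx0X : x0 ∈ X := by
    by_contra h; exact hx0 (Finset.mem_sdiff.mpr ⟨hx0Y, h⟩)
  -- all vertices are reachable
  have hreach : ∃ i, w ∈ lev a Y X i := by
    have : Y.filter (fun y => ∃ i, y ∈ lev a Y X i) = Y := by
      apply Conn.eq_of_closed hY (Finset.filter_subset _ _)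
      · obtain ⟨x, hx⟩ := hX.1
        exact ⟨x, Finset.mem_filter.mpr ⟨hXY hx, 0, hx⟩⟩
      · intro u hu v hv huv
        rw [Finset.mem_filter] at hu ⊢
        obtain ⟨i, hi⟩ := hu.2
        exact ⟨hv, i + 1, lev_succ hi hv huv⟩
    have hw' := hwYX.1
    rw [← this, Finset.mem_filter] at hw'
    exact hw'.2
  obtain ⟨p, hpl, hp, hpa⟩ := lev_path (Nat.find hreach) w (Nat.find_spec hreach)
    (fun i hi => Nat.find_min hreach hi)
  set l := Nat.find hreach with hl
  have hl0 : 1 ≤ l := by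
    by_contra h
    have h0 : l = 0 := by omega
    have := (hp l (le_refl _)).1
    rw [hpl, h0] at this
    exact hwYX.2 this
  have hpY : ∀ i ≤ l, p i ∈ Y := fun i hi => lev_subset hXY i (hp i hi).1
  have hpX : ∀ i ≤ l, 1 ≤ i → p i ∉ X := fun i hi h1 => (hp i hi).2 0 (by omega)
  have hp0 : p 0 ∈ X := (hp 0 (by omega)).1
  have hstep : ∀ i ≤ l, ∀ j ≤ l, a (p i) (p j) → j ≤ i + 1 := by
    intro i hi j hj hij
    by_contra hcon
    exact (hp j hj).2 (i + 1) (by omega) (lev_succ (hp i hi).1 (hpY j hj) hij)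
  have hstepX : ∀ x ∈ X, ∀ j ≤ l, a x (p j) → j ≤ 1 := by
    intro x hx j hj hij
    by_contra hcon
    exact (hp j hj).2 1 (by omega) (lev_succ (i := 0) hx (hpY j hj) hij)
  have hpinj : ∀ i ≤ l, ∀ j ≤ l, p i = p j → i = j := by
    intro i hi j hj hij
    by_contra hcon
    rcases Nat.lt_or_gt_of_ne hcon with h | h
    · exact (hp j hj).2 i h (hij ▸ (hp i hi).1)
    · exact (hp i hi).2 j h (hij ▸ (hp j hj).1)
  set Wp : Finset V := (Finset.Icc 1 l).image p with hWp
  have hmemW : ∀ z, z ∈ Wp ↔ ∃ i, 1 ≤ i ∧ i ≤ l ∧ p i = z := by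
    intro z
    rw [hWp, Finset.mem_image]
    constructor
    · rintro ⟨i, hi, h⟩
      rw [Finset.mem_Icc] at hi
      exact ⟨i, hi.1, hi.2, h⟩
    · rintro ⟨i, h1, h2, h⟩
      exact ⟨i, Finset.mem_Icc.mpr ⟨h1, h2⟩, h⟩
  have hwW : w ∈ Wp := (hmemW w).mpr ⟨l, hl0, le_refl _, hpl⟩
  refine ⟨X ∪ Wp, Finset.subset_union_left, ?_, ?_, ?_, ?_⟩
  · intro h
    have : w ∈ X := by rw [← h]; exact Finset.mem_union_right _ hwW
    exact hwYX.2 this
  · apply Finset.union_subset hXY
    intro z hz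
    obtain ⟨i, _, hi, rfl⟩ := (hmemW z).mp hz
    exact hpY i hi
  · -- connectedness
    refine ⟨hX.1.mono Finset.subset_union_left, ?_⟩
    intro Z hZ hZne hZneq
    by_contra hcon
    push Not at hcon
    have hprop : ∀ i ≤ l, p i ∈ Z → ∀ j, i ≤ j → j ≤ l → p j ∈ Z := by
      intro i hi hpi j hij
      induction hij with
      | refl => intro _; exact hpi
      | step h ih =>
        rename_i m
        intro hm
        have h1 := ih (by omega)
        by_contra h2
        exact hcon (p m) h1 (p (m + 1))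
          (Finset.mem_union_right _ ((hmemW _).mpr ⟨m + 1, by omega, hm, rfl⟩)) h2
          (hpa m (by omega))
    have hXZ : (Z ∩ X).Nonempty → X ⊆ Z := by
      intro hn
      have : Z ∩ X = X := by
        apply Conn.eq_of_closed hX Finset.inter_subset_right hn
        intro u hu v hv huv
        rw [Finset.mem_inter] at hu ⊢
        refine ⟨?_, hv⟩
        by_contra hvZ
        exact hcon u hu.1 v (Finset.mem_union_left _ hv) hvZ huv
      rw [← this]; exact Finset.inter_subset_left
    have hZX : (Z ∩ X).Nonempty := by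
      obtain ⟨z, hz⟩ := hZne
      rcases Finset.mem_union.mp (hZ hz) with h | h
      · exact ⟨z, Finset.mem_inter.mpr ⟨hz, h⟩⟩
      · obtain ⟨i, _, hi, rfl⟩ := (hmemW z).mp h
        have h1 := hprop i hi hz l hi (le_refl _)
        rw [hpl] at h1
        refine ⟨x0, Finset.mem_inter.mpr ⟨?_, hx0X⟩⟩
        by_contra hx0Z
        exact hcon w h1 x0 (Finset.mem_union_left _ hx0X) hx0Z hwx0
    have hXZ' := hXZ hZX
    apply hZneq
    apply Finset.Subset.antisymm hZ
    apply Finset.union_subset hXZ'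
    intro z hz
    obtain ⟨i, _, hi, rfl⟩ := (hmemW z).mp hz
    exact hprop 0 (by omega) (hXZ' hp0) i (by omega) hi
  · -- colouring
    obtain ⟨c, hc⟩ := hcol
    -- parity colour
    set c' : V → Bool := fun v => if v ∈ X then c v else
      decide (∃ i, 1 ≤ i ∧ i ≤ l ∧ p i = v ∧ i % 2 = 1) with hc'
    have hc'X : ∀ v ∈ X, c' v = c v := by
      intro v hv; simp only [hc']; rw [if_pos hv]
    have hc'p : ∀ i, 1 ≤ i → i ≤ l → (c' (p i) = true ↔ i % 2 = 1) := by
      intro i h1 h2
      simp only [hc']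
      rw [if_neg (hpX i h2 h1), decide_eq_true_iff]
      constructor
      · rintro ⟨j, _, hj, hij, hpar⟩
        rw [← hpinj j hj i h2 hij]; exact hpar
      · intro h; exact ⟨i, h1, h2, rfl, h⟩
    have hpar : ∀ i j, 1 ≤ i → i ≤ l → 1 ≤ j → j ≤ l → c' (p i) = c' (p j) → i % 2 = j % 2 := by
      intro i j h1 h2 h3 h4 h
      have e1 := hc'p i h1 h2
      have e2 := hc'p j h3 h4
      rw [h] at e1
      by_cases hcj : c' (p j) = true
      · have := e1.mp hcj
        have := e2.mp hcj
        omega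
      · have g1 : ¬ (i % 2 = 1) := fun hh => hcj (e1.mpr hh)
        have g2 : ¬ (j % 2 = 1) := fun hh => hcj (e2.mpr hh)
        omega
    refine ⟨c', fun k => ?_⟩
    intro Z hZ hZne
    have hZmem : ∀ z ∈ Z, (z ∈ X ∨ z ∈ Wp) ∧ c' z = k := by
      intro z hz
      have := hZ hz
      rw [Finset.mem_filter, Finset.mem_union] at this
      exact this
    by_cases hW : ∃ i, 1 ≤ i ∧ i ≤ l ∧ p i ∈ Z
    · obtain ⟨h1, h2, h3⟩ := Nat.find_spec hW
      set i := Nat.find hW with hi
      have himin : ∀ j, 1 ≤ j → j ≤ l → p j ∈ Z → i ≤ j := by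
        intro j hj1 hj2 hj3
        exact Nat.find_min' hW ⟨hj1, hj2, hj3⟩
      by_cases hsink : ∀ v ∈ Z, ¬ a (p i) v
      · exact ⟨p i, h3, hsink⟩
      · push Not at hsink
        obtain ⟨z, hz, haz⟩ := hsink
        have hzX : z ∈ X := by
          rcases (hZmem z hz).1 with h | h
          · exact h
          · exfalso
            obtain ⟨j, hj1, hj2, rfl⟩ := (hmemW z).mp h
            have e1 := hstep i h2 j hj2 haz
            have e2 := himin j hj1 hj2 hz
            have e3 := hpar i j h1 h2 hj1 hj2 ((hZmem _ h3).2.trans (hZmem _ hz).2.symm)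
            have e4 : j = i := by omega
            rw [e4] at haz
            exact hirr _ haz
        have hi2 : 2 ≤ i := by
          by_contra hcon
          have hi1 : i = 1 := by omega
          apply hatt (p i) (hpY i h2) (hpX i h2 h1)
          refine ⟨⟨z, hzX, haz⟩, ⟨p 0, hp0, ?_⟩⟩
          have := hpa 0 (by omega)
          rw [hi1]; exact this
        -- sink in Z ∩ X
        obtain ⟨s, hs, hsink⟩ := hc k (Z ∩ X) (by
          intro t ht
          rw [Finset.mem_inter] at ht
          rw [Finset.mem_filter]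
          refine ⟨ht.2, ?_⟩
          rw [← hc'X t ht.2]; exact (hZmem t ht.1).2) ⟨z, Finset.mem_inter.mpr ⟨hz, hzX⟩⟩
        rw [Finset.mem_inter] at hs
        refine ⟨s, hs.1, ?_⟩
        intro v hv hsv
        rcases (hZmem v hv).1 with h | h
        · exact hsink v (Finset.mem_inter.mpr ⟨hv, h⟩) hsv
        · obtain ⟨j, hj1, hj2, rfl⟩ := (hmemW v).mp h
          have e1 := hstepX s hs.2 j hj2 hsv
          have e2 := himin j hj1 hj2 hv
          omega
    · have hZX : Z ⊆ X := by
        intro z hz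
        rcases (hZmem z hz).1 with h | h
        · exact h
        · obtain ⟨j, hj1, hj2, rfl⟩ := (hmemW z).mp h
          exact absurd ⟨j, hj1, hj2, hz⟩ hW
      apply hc k Z _ hZne
      intro z hz
      rw [Finset.mem_filter]
      refine ⟨hZX hz, ?_⟩
      rw [← hc'X z (hZX hz)]; exact (hZmem z hz).2

/-- A nonempty set without a sink contains a strongly connected set without a sink. -/
theorem exists_conn_sinkless {a : V → V → Prop} {Z : Finset V} (hne : Z.Nonempty)
    (hs : ∀ u ∈ Z, ∃ v ∈ Z, a u v) :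
    ∃ Z0 ⊆ Z, Conn a Z0 ∧ ∀ u ∈ Z0, ∃ v ∈ Z0, a u v := by
  have hex : ∃ n, ∃ Z0 ⊆ Z, Z0.Nonempty ∧ (∀ u ∈ Z0, ∃ v ∈ Z0, a u v) ∧ Z0.card = n :=
    ⟨_, Z, Finset.Subset.refl _, hne, hs, rfl⟩
  obtain ⟨Z0, h1, h2, h3, h4⟩ := Nat.find_spec hex
  refine ⟨Z0, h1, ⟨h2, ?_⟩, h3⟩
  intro Z1 hZ1 hne1 hneq1
  by_contra hcon
  push Not at hcon
  have hlt : Z1.card < Nat.find hex := by
    rw [← h4]; exact Finset.card_lt_card (lt_of_le_of_ne hZ1 hneq1)
  apply Nat.find_min hex hlt
  refine ⟨Z1, hZ1.trans h1, hne1, ?_, rfl⟩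
  intro u hu
  obtain ⟨v, hv, huv⟩ := h3 u (hZ1 hu)
  refine ⟨v, ?_, huv⟩
  by_contra hvZ
  exact hcon u hu v hv hvZ huv

end Pool.Agent.Mader
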