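import Mathlib

/-! Definitions for the statements about subdivisions and the fractional dichromatic number. -/

open Classical

namespace Pool.Agent.Mader

/-- `A` is an acyclic set of vertices of `D`: the subdigraph of `D` induced by `A` has no
directed cycle. -/
def AcyclicSet {V : Type*} (D : Digraph V) (A : Finset V) : Prop :=
  ∀ v, ¬ Relation.TransGen (fun x y => x ∈ A ∧ y ∈ A ∧ D.Adj x y) v v

/-- The fractional dichromatic number of `D`: the least total weight of a nonnegative weighting
of the acyclic sets of `D` in which the acyclic sets containing any given vertex have total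
weight at least `1`. -/
noncomputable def fracDichromatic {V : Type*} [Fintype V] (D : Digraph V) : ℝ :=
  sInf {s : ℝ | ∃ y : Finset V → ℝ, (∀ A, 0 ≤ y A) ∧ (∀ A, y A ≠ 0 → AcyclicSet D A) ∧
    (∀ v, 1 ≤ ∑ A with v ∈ A, y A) ∧ ∑ A, y A = s}

/-- `D` contains a subdivision of `F`: distinct branch vertices `f i`, and for every arc
`(i, j)` of `F` a directed path `f i = p i j 0, p i j 1, ..., p i j (L i j + 1) = f j` of `D`;
the interior vertices of a path are distinct, differ from all branch vertices, and differ from
the interior vertices of the other paths. -/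
def ContainsSubdivision {n : ℕ} (F : Digraph (Fin n)) {V : Type*} (D : Digraph V) : Prop :=
  ∃ f : Fin n → V, Function.Injective f ∧
    ∃ (L : Fin n → Fin n → ℕ) (p : Fin n → Fin n → ℕ → V),
      (∀ i j, F.Adj i j →
          p i j 0 = f i ∧ p i j (L i j + 1) = f j ∧
          (∀ t, t ≤ L i j → D.Adj (p i j t) (p i j (t + 1))) ∧
          (∀ s t, 1 ≤ s → s ≤ L i j → 1 ≤ t → t ≤ L i j → p i j s = p i j t → s = t) ∧
          (∀ t k, 1 ≤ t → t ≤ L i j → p i j t ≠ f k)) ∧
      ∀ i j k l, F.Adj i j → F.Adj k l → (i ≠ k ∨ j ≠ l) →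
        ∀ s t, 1 ≤ s → s ≤ L i j → 1 ≤ t → t ≤ L k l → p i j s ≠ p k l t

end Pool.Agent.Mader
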