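import Mathlib

/-!
Cut-connectedness of finite sets with respect to a relation.
For a symmetric relation this is ordinary connectedness, for the arc relation of a
digraph it is strong connectedness.
-/

open Classical

namespace Pool.Agent.Mader

variable {V : Type*}

/-- `Conn r X`: the nonempty finite set `X` has an `r`-edge leaving every nonempty proper
subset (inside `X`). -/
def Conn (r : V → V → Prop) (X : Finset V) : Prop :=
  X.Nonempty ∧ ∀ Z ⊆ X, Z.Nonempty → Z ≠ X → ∃ u ∈ Z, ∃ v ∈ X, v ∉ Z ∧ r u v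

theorem Conn.nonempty {r : V → V → Prop} {X : Finset V} (h : Conn r X) : X.Nonempty := h.1

theorem Conn.singleton (r : V → V → Prop) (x : V) : Conn r {x} := by
  refine ⟨Finset.singleton_nonempty x, ?_⟩
  intro Z hZ hne hneq
  exfalso
  apply hneq
  rcases Finset.subset_singleton_iff.mp hZ with h | h
  · subst h; simp at hne
  · exact h

theorem Conn.mono {r r' : V → V → Prop} (h : ∀ u v, r u v → r' u v) {X : Finset V}
    (hX : Conn r X) : Conn r' X := by
  refine ⟨hX.1, ?_⟩
  intro Z hZ hne hneq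
  obtain ⟨u, hu, v, hv, hvZ, huv⟩ := hX.2 Z hZ hne hneq
  exact ⟨u, hu, v, hv, hvZ, h u v huv⟩

theorem Conn.mono_on {r r' : V → V → Prop} {X : Finset V} (h : ∀ u ∈ X, ∀ v ∈ X, r u v → r' u v)
    (hX : Conn r X) : Conn r' X := by
  refine ⟨hX.1, ?_⟩
  intro Z hZ hne hneq
  obtain ⟨u, hu, v, hv, hvZ, huv⟩ := hX.2 Z hZ hne hneq
  exact ⟨u, hu, v, hv, hvZ, h u (hZ hu) v hv huv⟩

/-- A set all of whose points can be reached (closed) : criterion. -/
theorem Conn.eq_of_closed {r : V → V → Prop} {X Z : Finset V} (hX : Conn r X) (hZ : Z ⊆ X)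
    (hne : Z.Nonempty) (hcl : ∀ u ∈ Z, ∀ v ∈ X, r u v → v ∈ Z) : Z = X := by
  by_contra hneq
  obtain ⟨u, hu, v, hv, hvZ, huv⟩ := hX.2 Z hZ hne hneq
  exact hvZ (hcl u hu v hv huv)

theorem Conn.union {r : V → V → Prop} {X Y : Finset V} (hX : Conn r X) (hY : Conn r Y)
    (hXY : (X ∩ Y).Nonempty) : Conn r (X ∪ Y) := by
  refine ⟨hX.1.mono Finset.subset_union_left, ?_⟩
  intro Z hZ hne hneq
  by_contra hcon
  push Not at hcon
  have key : ∀ W : Finset V, Conn r W → W ⊆ X ∪ Y → (Z ∩ W).Nonempty → W ⊆ Z := by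
    intro W hW hWs hZW
    have : Z ∩ W = W := by
      apply Conn.eq_of_closed hW Finset.inter_subset_right hZW
      intro u hu v hv huv
      rw [Finset.mem_inter] at hu ⊢
      refine ⟨?_, hv⟩
      by_contra hvZ
      exact hcon u hu.1 v (hWs hv) hvZ huv
    rw [← this]; exact Finset.inter_subset_left
  have hXs : X ⊆ X ∪ Y := Finset.subset_union_left
  have hYs : Y ⊆ X ∪ Y := Finset.subset_union_right
  obtain ⟨z, hz⟩ := hne
  obtain ⟨p, hp⟩ := hXY
  rw [Finset.mem_inter] at hp
  have hzXY := hZ hz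
  rw [Finset.mem_union] at hzXY
  have hXZ : X ⊆ Z := by
    rcases hzXY with h | h
    · exact key X hX hXs ⟨z, Finset.mem_inter.mpr ⟨hz, h⟩⟩
    · have := key Y hY hYs ⟨z, Finset.mem_inter.mpr ⟨hz, h⟩⟩
      exact key X hX hXs ⟨p, Finset.mem_inter.mpr ⟨this hp.2, hp.1⟩⟩
  have hYZ : Y ⊆ Z := key Y hY hYs ⟨p, Finset.mem_inter.mpr ⟨hXZ hp.1, hp.2⟩⟩
  exact hneq (Finset.Subset.antisymm hZ (Finset.union_subset hXZ hYZ))

/-- Two connected sets joined by edges in both directions have connected union. -/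
theorem Conn.union_of_adj {r : V → V → Prop} {X Y : Finset V} (hX : Conn r X) (hY : Conn r Y)
    (h1 : ∃ u ∈ X, ∃ v ∈ Y, r u v) (h2 : ∃ u ∈ Y, ∃ v ∈ X, r u v) : Conn r (X ∪ Y) := by
  refine ⟨hX.1.mono Finset.subset_union_left, ?_⟩
  intro Z hZ hne hneq
  by_contra hcon
  push Not at hcon
  have key : ∀ W : Finset V, Conn r W → W ⊆ X ∪ Y → (Z ∩ W).Nonempty → W ⊆ Z := by
    intro W hW hWs hZW
    have : Z ∩ W = W := by
      apply Conn.eq_of_closed hW Finset.inter_subset_right hZW
      intro u hu v hv huv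
      rw [Finset.mem_inter] at hu ⊢
      refine ⟨?_, hv⟩
      by_contra hvZ
      exact hcon u hu.1 v (hWs hv) hvZ huv
    rw [← this]; exact Finset.inter_subset_left
  have hXs : X ⊆ X ∪ Y := Finset.subset_union_left
  have hYs : Y ⊆ X ∪ Y := Finset.subset_union_right
  obtain ⟨z, hz⟩ := hne
  have hzXY := hZ hz
  rw [Finset.mem_union] at hzXY
  obtain ⟨u1, hu1, v1, hv1, h1⟩ := h1
  obtain ⟨u2, hu2, v2, hv2, h2⟩ := h2
  have hXY1 : X ⊆ Z → Y ⊆ Z := by
    intro hXZ
    have hv1Z : v1 ∈ Z := by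
      by_contra hc
      exact hcon u1 (hXZ hu1) v1 (hYs hv1) hc h1
    exact key Y hY hYs ⟨v1, Finset.mem_inter.mpr ⟨hv1Z, hv1⟩⟩
  have hYX1 : Y ⊆ Z → X ⊆ Z := by
    intro hYZ
    have hv2Z : v2 ∈ Z := by
      by_contra hc
      exact hcon u2 (hYZ hu2) v2 (hXs hv2) hc h2
    exact key X hX hXs ⟨v2, Finset.mem_inter.mpr ⟨hv2Z, hv2⟩⟩
  have : X ⊆ Z ∧ Y ⊆ Z := by
    rcases hzXY with h | h
    · have hh := key X hX hXs ⟨z, Finset.mem_inter.mpr ⟨hz, h⟩⟩
      exact ⟨hh, hXY1 hh⟩
    · have hh := key Y hY hYs ⟨z, Finset.mem_inter.mpr ⟨hz, h⟩⟩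
      exact ⟨hYX1 hh, hh⟩
  exact hneq (Finset.Subset.antisymm hZ (Finset.union_subset this.1 this.2))

theorem Conn.insert_of_adj {r : V → V → Prop} {X : Finset V} (hX : Conn r X) {y : V}
    (h1 : ∃ u ∈ X, r u y) (h2 : ∃ v ∈ X, r y v) : Conn r (insert y X) := by
  have : insert y X = X ∪ {y} := by
    ext z; simp [or_comm]
  rw [this]
  apply Conn.union_of_adj hX (Conn.singleton r y)
  · obtain ⟨u, hu, h⟩ := h1
    exact ⟨u, hu, y, by simp, h⟩
  · obtain ⟨v, hv, h⟩ := h2
    exact ⟨y, by simp, v, hv, h⟩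

/-- The component of `a` inside `S`: points lying in a connected subset of `S` with `a`. -/
noncomputable def comp (r : V → V → Prop) (S : Finset V) (a : V) : Finset V :=
  S.filter (fun z => ∃ C ⊆ S, Conn r C ∧ a ∈ C ∧ z ∈ C)

theorem comp_subset (r : V → V → Prop) (S : Finset V) (a : V) : comp r S a ⊆ S :=
  Finset.filter_subset _ _

theorem mem_comp_self {r : V → V → Prop} {S : Finset V} {a : V} (ha : a ∈ S) :
    a ∈ comp r S a := by
  unfold comp
  rw [Finset.mem_filter]
  exact ⟨ha, {a}, by simpa using ha, Conn.singleton r a, by simp, by simp⟩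

theorem subset_comp {r : V → V → Prop} {S C : Finset V} {a : V} (hC : C ⊆ S) (hc : Conn r C)
    (ha : a ∈ C) : C ⊆ comp r S a := by
  intro z hz
  unfold comp
  rw [Finset.mem_filter]
  exact ⟨hC hz, C, hC, hc, ha, hz⟩

theorem comp_conn {r : V → V → Prop} {S : Finset V} {a : V} (ha : a ∈ S) :
    Conn r (comp r S a) := by
  -- union of a finite family of connected sets containing `a`
  have key : ∀ T : Finset V, T ⊆ comp r S a → ∃ C ⊆ S, Conn r C ∧ a ∈ C ∧ T ⊆ C := by
    intro T
    induction T using Finset.induction_on with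
    | empty =>
      intro _
      exact ⟨{a}, by simpa using ha, Conn.singleton r a, by simp, by simp⟩
    | insert z T hz ih =>
      intro hT
      obtain ⟨C, hCS, hC, haC, hTC⟩ := ih (fun x hx => hT (Finset.mem_insert_of_mem hx))
      have hz' := hT (Finset.mem_insert_self z T)
      unfold comp at hz'
      rw [Finset.mem_filter] at hz'
      obtain ⟨_, C', hC'S, hC', haC', hzC'⟩ := hz'
      refine ⟨C ∪ C', Finset.union_subset hCS hC'S,
        hC.union hC' ⟨a, Finset.mem_inter.mpr ⟨haC, haC'⟩⟩, Finset.mem_union_left _ haC, ?_⟩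
      intro x hx
      rw [Finset.mem_insert] at hx
      rcases hx with h | h
      · subst h; exact Finset.mem_union_right _ hzC'
      · exact Finset.mem_union_left _ (hTC h)
  obtain ⟨C, hCS, hC, haC, hT⟩ := key (comp r S a) (Finset.Subset.refl _)
  have : C = comp r S a := Finset.Subset.antisymm (subset_comp hCS hC haC) hT
  rw [← this]; exact hC

/-- For a symmetric relation, a component is closed under edges. -/
theorem comp_closed {r : V → V → Prop} (hs : ∀ u v, r u v → r v u) {S : Finset V} {a u v : V}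
    (ha : a ∈ S) (hu : u ∈ comp r S a) (hv : v ∈ S) (huv : r u v) : v ∈ comp r S a := by
  have hc := comp_conn (r := r) ha
  have h2 : Conn r (insert v (comp r S a)) :=
    hc.insert_of_adj ⟨u, hu, huv⟩ ⟨u, hu, hs _ _ huv⟩
  have h3 : insert v (comp r S a) ⊆ S := by
    intro x hx
    rw [Finset.mem_insert] at hx
    rcases hx with h | h
    · subst h; exact hv
    · exact comp_subset _ _ _ h
  exact subset_comp h3 h2 (Finset.mem_insert_of_mem (mem_comp_self ha)) (Finset.mem_insert_self _ _)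

/-- A connected set inside `S` meeting the component of `a` lies in it. -/
theorem subset_comp_of_inter {r : V → V → Prop} {S C : Finset V} {a : V} (ha : a ∈ S)
    (hC : C ⊆ S) (hc : Conn r C) (hi : (C ∩ comp r S a).Nonempty) : C ⊆ comp r S a := by
  have h1 := (comp_conn (r := r) ha).union hc (by rwa [Finset.inter_comm])
  have h2 : comp r S a ∪ C ⊆ S := Finset.union_subset (comp_subset _ _ _) hC
  exact Finset.subset_union_right.trans
    (subset_comp h2 h1 (Finset.mem_union_left _ (mem_comp_self ha)))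

end Pool.Agent.Mader
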