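import Pool.Agent.Mader.Link

/-! Counting edges. -/

open Classical

namespace Pool.Agent.Mader

universe u

variable {V : Type u}

/-- Number of ordered adjacent pairs inside `S` with an end in `U`. -/
noncomputable def E (r : V → V → Prop) (S U : Finset V) : ℕ :=
  ((S ×ˢ S).filter (fun p => r p.1 p.2 ∧ (p.1 ∈ U ∨ p.2 ∈ U))).card

/-- Degree of `v` in `(r, S)`. -/
noncomputable def deg (r : V → V → Prop) (S : Finset V) (v : V) : ℕ :=
  (S.filter (fun u => r v u)).card

/-- Common neighbours. -/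
noncomputable def cmn (r : V → V → Prop) (S : Finset V) (x y : V) : Finset V :=
  S.filter (fun z => r x z ∧ r y z)

theorem E_le {r r' : V → V → Prop} {S S' U U' : Finset V}
    (h : ∀ u ∈ S, ∀ v ∈ S, r u v → (u ∈ U ∨ v ∈ U) →
      u ∈ S' ∧ v ∈ S' ∧ r' u v ∧ (u ∈ U' ∨ v ∈ U')) : E r S U ≤ E r' S' U' := by
  unfold E
  apply Finset.card_le_card
  intro p hp
  rw [Finset.mem_filter, Finset.mem_product] at hp ⊢
  obtain ⟨h1, h2, h3, h4⟩ := h p.1 hp.1.1 p.2 hp.1.2 hp.2.1 hp.2.2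
  exact ⟨⟨h1, h2⟩, h3, h4⟩

theorem E_le_add {r r1 r2 : V → V → Prop} {S S1 S2 U U1 U2 : Finset V}
    (h : ∀ u ∈ S, ∀ v ∈ S, r u v → (u ∈ U ∨ v ∈ U) →
      (u ∈ S1 ∧ v ∈ S1 ∧ r1 u v ∧ (u ∈ U1 ∨ v ∈ U1)) ∨
      (u ∈ S2 ∧ v ∈ S2 ∧ r2 u v ∧ (u ∈ U2 ∨ v ∈ U2))) : E r S U ≤ E r1 S1 U1 + E r2 S2 U2 := by
  unfold E
  refine le_trans (Finset.card_le_card ?_) (Finset.card_union_le _ _)
  intro p hp
  rw [Finset.mem_filter, Finset.mem_product] at hp
  rw [Finset.mem_union, Finset.mem_filter, Finset.mem_product, Finset.mem_filter,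
    Finset.mem_product]
  rcases h p.1 hp.1.1 p.2 hp.1.2 hp.2.1 hp.2.2 with ⟨h1, h2, h3, h4⟩ | ⟨h1, h2, h3, h4⟩
  · exact Or.inl ⟨⟨h1, h2⟩, h3, h4⟩
  · exact Or.inr ⟨⟨h1, h2⟩, h3, h4⟩

theorem E_empty (r : V → V → Prop) (S : Finset V) : E r S ∅ = 0 := by
  unfold E
  rw [Finset.card_eq_zero, Finset.filter_eq_empty_iff]
  intro p _ h
  rcases h.2 with h | h <;> simp at h

theorem E_lt {r r' : V → V → Prop} {S U : Finset V} (h : ∀ u ∈ S, ∀ v ∈ S, r' u v → r u v)
    {x y : V} (hx : x ∈ S) (hy : y ∈ S) (hxU : x ∈ U) (h1 : r x y) (h2 : ¬ r' x y) :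
    E r' S U < E r S U := by
  unfold E
  apply Finset.card_lt_card
  rw [Finset.ssubset_iff_of_subset]
  · refine ⟨(x, y), ?_, ?_⟩
    · rw [Finset.mem_filter, Finset.mem_product]; exact ⟨⟨hx, hy⟩, h1, Or.inl hxU⟩
    · rw [Finset.mem_filter]; exact fun h => h2 h.2.1
  · intro p hp
    rw [Finset.mem_filter, Finset.mem_product] at hp ⊢
    exact ⟨hp.1, h _ hp.1.1 _ hp.1.2 hp.2.1, hp.2.2⟩

/-- Deleting a vertex. -/
theorem E_erase {r : V → V → Prop} (hs : ∀ u v, r u v → r v u) {S X : Finset V} (v : V) :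
    E r S (S \ X) ≤ E r (S.erase v) (S.erase v \ X) + 2 * deg r S v := by
  unfold E deg
  have h1 : ((S ×ˢ S).filter (fun p => r p.1 p.2 ∧ (p.1 ∈ S \ X ∨ p.2 ∈ S \ X))) ⊆
      ((S.erase v ×ˢ S.erase v).filter
        (fun p => r p.1 p.2 ∧ (p.1 ∈ S.erase v \ X ∨ p.2 ∈ S.erase v \ X))) ∪
      ((S.filter (fun u => r v u)).image (fun u => (v, u)) ∪
        (S.filter (fun u => r v u)).image (fun u => (u, v))) := by
    rintro ⟨a, b⟩ hp
    simp only [Finset.mem_filter, Finset.mem_product, Finset.mem_union, Finset.mem_image,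
      Finset.mem_erase, Finset.mem_sdiff, Prod.mk.injEq] at hp ⊢
    obtain ⟨⟨ha, hb⟩, hab, hor⟩ := hp
    by_cases hav : a = v
    · right; left
      subst hav
      exact ⟨b, ⟨hb, hab⟩, rfl, rfl⟩
    · by_cases hbv : b = v
      · right; right
        subst hbv
        exact ⟨a, ⟨ha, hs _ _ hab⟩, rfl, rfl⟩
      · left
        refine ⟨⟨⟨hav, ha⟩, ⟨hbv, hb⟩⟩, hab, ?_⟩
        rcases hor with h | h
        · exact Or.inl ⟨⟨hav, ha⟩, h.2⟩
        · exact Or.inr ⟨⟨hbv, hb⟩, h.2⟩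
  refine (Finset.card_le_card h1).trans ?_
  refine (Finset.card_union_le _ _).trans ?_
  apply Nat.add_le_add_left
  refine (Finset.card_union_le _ _).trans ?_
  have h2 := Finset.card_image_le (s := S.filter (fun u => r v u)) (f := fun u => (v, u))
  have h3 := Finset.card_image_le (s := S.filter (fun u => r v u)) (f := fun u => (u, v))
  omega

/-- The relation with the edge `xy` deleted. -/
def del (r : V → V → Prop) (x y : V) : V → V → Prop :=
  fun u v => r u v ∧ ¬((u = x ∧ v = y) ∨ (u = y ∧ v = x))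

theorem del_symm {r : V → V → Prop} (hs : ∀ u v, r u v → r v u) (x y : V) :
    ∀ u v, del r x y u v → del r x y v u := by
  intro u v h
  refine ⟨hs _ _ h.1, ?_⟩
  rintro (⟨h1, h2⟩ | ⟨h1, h2⟩)
  · exact h.2 (Or.inr ⟨h2, h1⟩)
  · exact h.2 (Or.inl ⟨h2, h1⟩)

/-- Deleting an edge. -/
theorem E_del {r : V → V → Prop} {S U : Finset V} (x y : V) :
    E r S U ≤ E (del r x y) S U + 2 := by
  unfold E
  have h1 : ((S ×ˢ S).filter (fun p => r p.1 p.2 ∧ (p.1 ∈ U ∨ p.2 ∈ U))) ⊆
      ((S ×ˢ S).filter (fun p => del r x y p.1 p.2 ∧ (p.1 ∈ U ∨ p.2 ∈ U))) ∪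
      {(x, y), (y, x)} := by
    rintro ⟨a, b⟩ hp
    simp only [Finset.mem_filter, Finset.mem_product, Finset.mem_union,
      Finset.mem_insert, Finset.mem_singleton, Prod.mk.injEq] at hp ⊢
    by_cases h : (a = x ∧ b = y) ∨ (a = y ∧ b = x)
    · exact Or.inr h
    · exact Or.inl ⟨hp.1, ⟨hp.2.1, h⟩, hp.2.2⟩
  refine (Finset.card_le_card h1).trans ?_
  refine (Finset.card_union_le _ _).trans ?_
  apply Nat.add_le_add_left
  exact Finset.card_le_two

/-- Contracting an edge. -/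
theorem E_contr {r : V → V → Prop} (hs : ∀ u v, r u v → r v u) (hirr : ∀ u, ¬ r u u)
    {S X : Finset V} {x y : V} (hx : x ∈ S) (hxX : x ∉ X) (hxy : x ≠ y) :
    E r S (S \ X) ≤ E (contr r x y) (S.erase y) (S.erase y \ X) + (2 + 2 * (cmn r S x y).card) := by
  -- the bad pairs
  set bad : Finset (V × V) := {(x, y), (y, x)} ∪ ((cmn r S x y).image (fun u => (y, u)) ∪
        (cmn r S x y).image (fun u => (u, y))) with hbad
  have hbadc : bad.card ≤ 2 + 2 * (cmn r S x y).card := by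
    refine (Finset.card_union_le _ _).trans ?_
    have h0 : ({(x, y), (y, x)} : Finset (V × V)).card ≤ 2 := Finset.card_le_two
    have h1 := Finset.card_union_le ((cmn r S x y).image (fun u => (y, u)))
      ((cmn r S x y).image (fun u => (u, y)))
    have h2 := Finset.card_image_le (s := cmn r S x y) (f := fun u => (y, u))
    have h3 := Finset.card_image_le (s := cmn r S x y) (f := fun u => (u, y))
    omega
  set L := ((S ×ˢ S).filter (fun p => r p.1 p.2 ∧ (p.1 ∈ S \ X ∨ p.2 ∈ S \ X))) with hL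
  have hLcard : L.card ≤ (L \ bad).card + bad.card := by
    have := Finset.card_le_card (Finset.subset_union_left (s₁ := L) (s₂ := bad))
    rw [← Finset.sdiff_union_self_eq_union] at this
    exact this.trans (Finset.card_union_le _ _)
  have hE : E r S (S \ X) = L.card := rfl
  rw [hE]
  -- the injection
  have hinj : (L \ bad).card ≤ E (contr r x y) (S.erase y) (S.erase y \ X) := by
    unfold E
    set φ : V → V := fun u => if u = y then x else u with hφ
    have hφy : φ y = x := by simp [hφ]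
    have hφn : ∀ u, u ≠ y → φ u = u := by intro u hu; simp [hφ, hu]
    apply Finset.card_le_card_of_injOn (fun p => (φ p.1, φ p.2))
    · rintro ⟨a, b⟩ hp
      rw [Finset.mem_coe, Finset.mem_sdiff, hL, Finset.mem_filter, Finset.mem_product,
        Finset.mem_sdiff, Finset.mem_sdiff] at hp
      obtain ⟨⟨⟨ha, hb⟩, hab, hor⟩, hnb⟩ := hp
      simp only at ha hb hab hor
      have hnb1 : ¬ (a = x ∧ b = y) := by
        rintro ⟨rfl, rfl⟩; apply hnb; simp [hbad]
      have hnb2 : ¬ (a = y ∧ b = x) := by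
        rintro ⟨rfl, rfl⟩; apply hnb; simp [hbad]
      rw [Finset.mem_coe, Finset.mem_filter, Finset.mem_product, Finset.mem_erase,
        Finset.mem_erase, Finset.mem_sdiff, Finset.mem_sdiff, Finset.mem_erase, Finset.mem_erase]
      simp only
      by_cases hay : a = y
      · have hby : b ≠ y := by
          intro h; rw [hay, h] at hab; exact hirr _ hab
        rw [hay, hφy, hφn b hby]
        have hbx : b ≠ x := fun h => hnb2 ⟨hay, h⟩
        rw [hay] at hab
        exact ⟨⟨⟨hxy, hx⟩, ⟨hby, hb⟩⟩, ⟨Ne.symm hbx, Or.inr (Or.inl ⟨rfl, hab⟩)⟩,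
          Or.inl ⟨⟨hxy, hx⟩, hxX⟩⟩
      · by_cases hby : b = y
        · rw [hby, hφy, hφn a hay]
          have hax : a ≠ x := fun h => hnb1 ⟨h, hby⟩
          rw [hby] at hab
          exact ⟨⟨⟨hay, ha⟩, ⟨hxy, hx⟩⟩, ⟨hax, Or.inr (Or.inr ⟨rfl, hab⟩)⟩,
            Or.inr ⟨⟨hxy, hx⟩, hxX⟩⟩
        · rw [hφn a hay, hφn b hby]
          refine ⟨⟨⟨hay, ha⟩, ⟨hby, hb⟩⟩, ⟨?_, Or.inl hab⟩, ?_⟩
          · intro h; rw [h] at hab; exact hirr _ hab
          · rcases hor with h | h
            · exact Or.inl ⟨⟨hay, ha⟩, h.2⟩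
            · exact Or.inr ⟨⟨hby, hb⟩, h.2⟩
    · -- injectivity
      have hgood : ∀ a b, (a, b) ∈ L \ bad → r a b ∧ a ∈ S ∧ b ∈ S ∧ (a, b) ∉ bad := by
        intro a b hp
        rw [Finset.mem_sdiff, hL, Finset.mem_filter, Finset.mem_product] at hp
        exact ⟨hp.1.2.1, hp.1.1.1, hp.1.1.2, hp.2⟩
      have hb1 : ∀ u, u ∈ S → r x u → r y u → (y, u) ∈ bad := by
        intro u hu h1 h2
        rw [hbad, Finset.mem_union, Finset.mem_union]
        right; left
        exact Finset.mem_image_of_mem _ (by unfold cmn; rw [Finset.mem_filter]; exact ⟨hu, h1, h2⟩)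
      have hb2 : ∀ u, u ∈ S → r x u → r y u → (u, y) ∈ bad := by
        intro u hu h1 h2
        rw [hbad, Finset.mem_union, Finset.mem_union]
        right; right
        exact Finset.mem_image_of_mem (fun u => (u, y))
          (by unfold cmn; rw [Finset.mem_filter]; exact ⟨hu, h1, h2⟩)
      have hb3 : (x, y) ∈ bad := by simp [hbad]
      have hb4 : (y, x) ∈ bad := by simp [hbad]
      -- key: if φ a = φ a' with a = y then a' = y or a' = x
      have hφeq : ∀ a a', φ a = φ a' → a = a' ∨ (a = y ∧ a' = x) ∨ (a = x ∧ a' = y) := by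
        intro a a' h
        by_cases h1 : a = y <;> by_cases h2 : a' = y
        · left; rw [h1, h2]
        · right; left; rw [h1, hφy, hφn a' h2] at h; exact ⟨h1, h.symm⟩
        · right; right; rw [h2, hφy, hφn a h1] at h; exact ⟨h, h2⟩
        · left; rwa [hφn a h1, hφn a' h2] at h
      rintro ⟨a, b⟩ hp ⟨a', b'⟩ hp' heq
      obtain ⟨h1, h2, h3, h4⟩ := hgood a b hp
      obtain ⟨g1, g2, g3, g4⟩ := hgood a' b' hp'
      simp only [Prod.mk.injEq] at heq
      rcases hφeq a a' heq.1 with e1 | ⟨e1, e1'⟩ | ⟨e1, e1'⟩ <;>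
        rcases hφeq b b' heq.2 with e2 | ⟨e2, e2'⟩ | ⟨e2, e2'⟩
      · rw [e1, e2]
      · exfalso
        rw [← e1] at g1 g4
        rw [e2] at h1 h4
        rw [e2'] at g1 g4
        exact h4 (hb2 a h2 (hs _ _ g1) (hs _ _ h1))
      · exfalso
        rw [← e1] at g1 g4
        rw [e2] at h1 h4
        rw [e2'] at g1 g4
        exact g4 (hb2 a h2 (hs _ _ h1) (hs _ _ g1))
      · exfalso
        rw [← e2] at g1 g4
        rw [e1] at h1 h4
        rw [e1'] at g1 g4
        exact h4 (hb1 b h3 g1 h1)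
      · exfalso; rw [e1, e2] at h1; exact hirr _ h1
      · exfalso; rw [e1, e2] at h4; exact h4 hb4
      · exfalso
        rw [← e2] at g1 g4
        rw [e1] at h1 h4
        rw [e1'] at g1 g4
        exact g4 (hb1 b h3 h1 g1)
      · exfalso; rw [e1, e2] at h4; exact h4 hb3
      · exfalso; rw [e1, e2] at h1; exact hirr _ h1
  omega

/-- The degree sum over the non-root vertices is at most `E`. -/
theorem sum_deg_le {r : V → V → Prop} {S X : Finset V} :
    ∑ v ∈ S \ X, deg r S v ≤ E r S (S \ X) := by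
  have h : ∑ v ∈ S \ X, deg r S v =
      (((S \ X) ×ˢ S).filter (fun p => r p.1 p.2)).card := by
    rw [Finset.card_filter, Finset.sum_product]
    apply Finset.sum_congr rfl
    intro v _
    unfold deg
    rw [Finset.card_filter]
  rw [h]
  unfold E
  apply Finset.card_le_card
  intro p hp
  rw [Finset.mem_filter, Finset.mem_product] at hp ⊢
  exact ⟨⟨(Finset.mem_sdiff.mp hp.1.1).1, hp.1.2⟩, hp.2, Or.inl hp.1.1⟩

end Pool.Agent.Mader
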