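import Pool.Agent.Mader.Count

/-! Greedy linking in small dense graphs. -/

open Classical

namespace Pool.Agent.Mader

universe u

variable {V : Type u}

theorem Conn.insert_or {r : V → V → Prop} {X : Finset V} (hX : Conn r X) {y : V}
    (h : y ∈ X ∨ ∃ u ∈ X, r u y ∧ r y u) : Conn r (insert y X) := by
  rcases h with h | ⟨u, hu, h1, h2⟩
  · rwa [Finset.insert_eq_of_mem h]
  · exact hX.insert_of_adj ⟨u, hu, h1⟩ ⟨u, hu, h2⟩

theorem greedy {r : V → V → Prop} {L : Finset V} {h : ℕ}
    (hcon : ∀ J ⊆ L, J.card ≤ 5 * h → ∀ a ∈ J, ∀ b ∈ J, a ≠ b →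
      ∃ C ⊆ L, Conn r C ∧ a ∈ C ∧ b ∈ C ∧ C ∩ J ⊆ {a, b} ∧ C.card ≤ 6)
    {Q : Finset V} (hQ : Q ⊆ L) (hQh : Q.card ≤ h) : Linked r L Q := by
  intro ι c
  have key : ∀ Q' : Finset V, Q' ⊆ Q → ∃ C : ι → Finset V,
      (∀ q ∈ Q', q ∈ C (c q) ∧ C (c q) ⊆ L ∧ Conn r (C (c q))) ∧
      (∀ q ∈ Q', ∀ q' ∈ Q', c q ≠ c q' → Disjoint (C (c q)) (C (c q'))) ∧
      (∀ q ∈ Q', ∀ z ∈ Q, z ∉ Q' → z ∉ C (c q)) ∧
      (Q'.biUnion (fun q => C (c q))).card ≤ 5 * Q'.card := by
    intro Q'
    induction Q' using Finset.induction_on with
    | empty =>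
      intro _
      exact ⟨fun _ => ∅, by simp, by simp, by simp, by simp⟩
    | insert q Q' hq ih =>
      intro hins
      have hqQ : q ∈ Q := hins (Finset.mem_insert_self _ _)
      have hQ'Q : Q' ⊆ Q := fun z hz => hins (Finset.mem_insert_of_mem hz)
      obtain ⟨C, hC, hd, hav, hcard⟩ := ih hQ'Q
      by_cases hex : ∃ q' ∈ Q', c q' = c q
      · obtain ⟨q', hq', hcq'⟩ := hex
        have hqq' : q' ≠ q := fun h => hq (h ▸ hq')
        set U := Q'.biUnion (fun q => C (c q)) with hU
        have hQ'U : Q' ⊆ U := by
          intro z hz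
          rw [hU, Finset.mem_biUnion]
          exact ⟨z, hz, (hC z hz).1⟩
        have hUL : U ⊆ L := by
          intro z hz
          rw [hU, Finset.mem_biUnion] at hz
          obtain ⟨p, hp, hz⟩ := hz
          exact (hC p hp).2.1 hz
        have hJcard : (U ∪ Q).card ≤ 5 * h := by
          have h1 : U ∪ Q = U ∪ (Q \ Q') := by
            ext z
            simp only [Finset.mem_union, Finset.mem_sdiff]
            constructor
            · rintro (h | h)
              · exact Or.inl h
              · by_cases hz : z ∈ Q'
                · exact Or.inl (hQ'U hz)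
                · exact Or.inr ⟨h, hz⟩
            · rintro (h | h)
              · exact Or.inl h
              · exact Or.inr h.1
          rw [h1]
          refine (Finset.card_union_le _ _).trans ?_
          have h2 := Finset.card_sdiff_add_card_eq_card hQ'Q
          omega
        obtain ⟨D, hDL, hDc, hq'D, hqD, hDJ, hD6⟩ := hcon (U ∪ Q) (Finset.union_subset hUL hQ)
          hJcard q' (Finset.mem_union_right _ (hQ'Q hq')) q (Finset.mem_union_right _ hqQ) hqq'
        have hDJ' : ∀ z ∈ D, z ∈ U ∪ Q → z = q' ∨ z = q := by
          intro z hz hzJ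
          have := hDJ (Finset.mem_inter.mpr ⟨hz, hzJ⟩)
          simpa using this
        have hcv : Conn r (C (c q) ∪ D) := by
          rw [← hcq']
          exact (hC q' hq').2.2.union hDc ⟨q', Finset.mem_inter.mpr ⟨(hC q' hq').1, hq'D⟩⟩
        have hcL : C (c q) ∪ D ⊆ L := by
          rw [← hcq']
          exact Finset.union_subset (hC q' hq').2.1 hDL
        have hmemQ' : ∀ p ∈ insert q Q', c p ≠ c q → p ∈ Q' := by
          intro p hp hne
          rcases Finset.mem_insert.mp hp with h | h
          · subst h; exact absurd rfl hne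
          · exact h
        -- disjointness of C (c q) ∪ D from others
        have hdis : ∀ p ∈ Q', c p ≠ c q → Disjoint (C (c q) ∪ D) (C (c p)) := by
          intro p hp hne
          rw [Finset.disjoint_left]
          intro z hz1 hz2
          rcases Finset.mem_union.mp hz1 with h | h
          · rw [← hcq'] at h
            exact Finset.disjoint_left.mp (hd q' hq' p hp (by rw [hcq']; exact Ne.symm hne)) h hz2
          · have hzU : z ∈ U := by
              rw [hU, Finset.mem_biUnion]; exact ⟨p, hp, hz2⟩
            rcases hDJ' z h (Finset.mem_union_left _ hzU) with h' | h'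
            · subst h'
              exact Finset.disjoint_left.mp (hd z hq' p hp (by rw [hcq']; exact Ne.symm hne))
                (hC z hq').1 hz2
            · subst h'
              exact hav p hp z hqQ hq hz2
        refine ⟨fun i => if i = c q then C i ∪ D else C i, ?_, ?_, ?_, ?_⟩
        · intro p hp
          beta_reduce
          by_cases hpc : c p = c q
          · rw [if_pos hpc, hpc]
            refine ⟨?_, hcL, hcv⟩
            rcases Finset.mem_insert.mp hp with h | h
            · subst h; exact Finset.mem_union_right _ hqD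
            · rw [← hpc]; exact Finset.mem_union_left _ (hC p h).1
          · rw [if_neg hpc]
            exact hC p (hmemQ' p hp hpc)
        · intro p hp p' hp' hne
          beta_reduce
          by_cases hpc : c p = c q
          · have hpc' : c p' ≠ c q := fun h => hne (hpc.trans h.symm)
            rw [if_pos hpc, if_neg hpc', hpc]
            exact hdis p' (hmemQ' p' hp' hpc') hpc'
          · by_cases hpc' : c p' = c q
            · rw [if_neg hpc, if_pos hpc', hpc']
              exact (hdis p (hmemQ' p hp hpc) hpc).symm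
            · rw [if_neg hpc, if_neg hpc']
              exact hd p (hmemQ' p hp hpc) p' (hmemQ' p' hp' hpc') hne
        · intro p hp z hz hzn
          beta_reduce
          have hzq : z ≠ q := fun h => hzn (h ▸ Finset.mem_insert_self _ _)
          have hzQ' : z ∉ Q' := fun h => hzn (Finset.mem_insert_of_mem h)
          by_cases hpc : c p = c q
          · rw [if_pos hpc, hpc]
            intro hmem
            rcases Finset.mem_union.mp hmem with h | h
            · rw [← hcq'] at h
              exact hav q' hq' z hz hzQ' h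
            · rcases hDJ' z h (Finset.mem_union_right _ hz) with h' | h'
              · subst h'; exact hzQ' hq'
              · exact hzq h'
          · rw [if_neg hpc]
            exact hav p (hmemQ' p hp hpc) z hz hzQ'
        · have hsub : ((insert q Q').biUnion
              (fun p => (fun i => if i = c q then C i ∪ D else C i) (c p))) ⊆
              U ∪ D.erase q' := by
            intro z hz
            rw [Finset.mem_biUnion] at hz
            obtain ⟨p, hp, hz⟩ := hz
            beta_reduce at hz
            have hCU : ∀ p ∈ Q', ∀ z, z ∈ C (c p) → z ∈ U := by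
              intro p hp z hz
              rw [hU, Finset.mem_biUnion]; exact ⟨p, hp, hz⟩
            by_cases hpc : c p = c q
            · rw [if_pos hpc, hpc] at hz
              rcases Finset.mem_union.mp hz with h | h
              · rw [← hcq'] at h
                exact Finset.mem_union_left _ (hCU q' hq' z h)
              · by_cases hzq' : z = q'
                · subst hzq'
                  exact Finset.mem_union_left _ (hQ'U hq')
                · exact Finset.mem_union_right _ (Finset.mem_erase.mpr ⟨hzq', h⟩)
            · rw [if_neg hpc] at hz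
              exact Finset.mem_union_left _ (hCU p (hmemQ' p hp hpc) z hz)
          have h1 := Finset.card_le_card hsub
          have h2 := Finset.card_union_le U (D.erase q')
          have h3 := Finset.card_erase_of_mem hq'D
          have h4 := Finset.card_insert_of_notMem hq
          omega
      · push Not at hex
        have hmemQ' : ∀ p ∈ insert q Q', c p ≠ c q → p ∈ Q' := by
          intro p hp hne
          rcases Finset.mem_insert.mp hp with h | h
          · subst h; exact absurd rfl hne
          · exact h
        refine ⟨fun i => if i = c q then {q} else C i, ?_, ?_, ?_, ?_⟩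
        · intro p hp
          beta_reduce
          by_cases hpc : c p = c q
          · rw [if_pos hpc]
            rcases Finset.mem_insert.mp hp with h | h
            · subst h
              exact ⟨Finset.mem_singleton_self _, by simpa using hQ hqQ, Conn.singleton r _⟩
            · exact absurd hpc (hex p h)
          · rw [if_neg hpc]
            exact hC p (hmemQ' p hp hpc)
        · intro p hp p' hp' hne
          beta_reduce
          by_cases hpc : c p = c q
          · have hpc' : c p' ≠ c q := fun h => hne (hpc.trans h.symm)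
            rw [if_pos hpc, if_neg hpc', Finset.disjoint_singleton_left]
            exact hav p' (hmemQ' p' hp' hpc') q hqQ hq
          · by_cases hpc' : c p' = c q
            · rw [if_neg hpc, if_pos hpc', Finset.disjoint_singleton_right]
              exact hav p (hmemQ' p hp hpc) q hqQ hq
            · rw [if_neg hpc, if_neg hpc']
              exact hd p (hmemQ' p hp hpc) p' (hmemQ' p' hp' hpc') hne
        · intro p hp z hz hzn
          beta_reduce
          have hzq : z ≠ q := fun h => hzn (h ▸ Finset.mem_insert_self _ _)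
          have hzQ' : z ∉ Q' := fun h => hzn (Finset.mem_insert_of_mem h)
          by_cases hpc : c p = c q
          · rw [if_pos hpc]
            simpa using hzq
          · rw [if_neg hpc]
            exact hav p (hmemQ' p hp hpc) z hz hzQ'
        · have hsub : ((insert q Q').biUnion
              (fun p => (fun i => if i = c q then {q} else C i) (c p))) ⊆
              Q'.biUnion (fun q => C (c q)) ∪ {q} := by
            intro z hz
            rw [Finset.mem_biUnion] at hz
            obtain ⟨p, hp, hz⟩ := hz
            beta_reduce at hz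
            by_cases hpc : c p = c q
            · rw [if_pos hpc] at hz
              exact Finset.mem_union_right _ hz
            · rw [if_neg hpc] at hz
              apply Finset.mem_union_left
              rw [Finset.mem_biUnion]; exact ⟨p, hmemQ' p hp hpc, hz⟩
          have h1 := Finset.card_le_card hsub
          have h2 := Finset.card_union_le (Q'.biUnion (fun q => C (c q))) {q}
          have h4 := Finset.card_insert_of_notMem hq
          rw [Finset.card_singleton] at h2
          omega
  obtain ⟨C, hC, hd, _, _⟩ := key Q (Finset.Subset.refl _)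
  exact ⟨C, hC, hd⟩

/-- Very dense case. -/
theorem dense_small {r : V → V → Prop} (hs : ∀ u v, r u v → r v u) {M : Finset V} {h : ℕ}
    (hh : 1 ≤ h) (hcard : M.card ≤ 32 * h) (hdeg : ∀ v ∈ M, 26 * h + 1 ≤ deg r M v) :
    ∀ J ⊆ M, J.card ≤ 5 * h → ∀ a ∈ J, ∀ b ∈ J, a ≠ b →
      ∃ C ⊆ M, Conn r C ∧ a ∈ C ∧ b ∈ C ∧ C ∩ J ⊆ {a, b} ∧ C.card ≤ 6 := by
  intro J hJM hJ a ha b hb hab
  set Na := M.filter (fun u => r a u) with hNa
  set Nb := M.filter (fun u => r b u) with hNb
  have h1 : 26 * h + 1 ≤ Na.card := hdeg a (hJM ha)
  have h2 : 26 * h + 1 ≤ Nb.card := hdeg b (hJM hb)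
  have h3 : (Na ∪ Nb).card ≤ M.card :=
    Finset.card_le_card (Finset.union_subset (Finset.filter_subset _ _) (Finset.filter_subset _ _))
  have h4 := Finset.card_union_add_card_inter Na Nb
  have h5 : J.card < (Na ∩ Nb).card := by omega
  obtain ⟨w, hw, hwJ⟩ := Finset.exists_mem_notMem_of_card_lt_card h5
  rw [Finset.mem_inter, hNa, hNb, Finset.mem_filter, Finset.mem_filter] at hw
  refine ⟨{a, b, w}, ?_, ?_, by simp, by simp, ?_, ?_⟩
  · intro z hz
    simp only [Finset.mem_insert, Finset.mem_singleton] at hz
    rcases hz with h | h | h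
    · subst h; exact hJM ha
    · subst h; exact hJM hb
    · subst h; exact hw.1.1
  · apply Conn.insert_or
    · apply Conn.insert_or (Conn.singleton r w)
      exact Or.inr ⟨w, by simp, hs _ _ hw.2.2, hw.2.2⟩
    · exact Or.inr ⟨w, by simp, hs _ _ hw.1.2, hw.1.2⟩
  · intro z hz
    rw [Finset.mem_inter] at hz
    simp only [Finset.mem_insert, Finset.mem_singleton] at hz ⊢
    rcases hz.1 with h | h | h
    · exact Or.inl h
    · exact Or.inr h
    · subst h; exact absurd hz.2 hwJ
  · refine Finset.card_le_three.trans (by norm_num)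

theorem dense {r : V → V → Prop} (hs : ∀ u v, r u v → r v u) {K0 : Finset V} {h : ℕ}
    (hh : 1 ≤ h) (hne : K0.Nonempty) (hcard : K0.card ≤ 64 * h + 1)
    (hdeg : ∀ v ∈ K0, 31 * h + 1 ≤ deg r K0 v) :
    ∃ L ⊆ K0, h ≤ L.card ∧ ∀ Q ⊆ L, Q.card ≤ h → Linked r L Q := by
  have hdegle : ∀ (K : Finset V) v, deg r K v ≤ K.card := fun K v =>
    Finset.card_le_card (Finset.filter_subset _ _)
  by_cases H : ∀ J ⊆ K0, J.card ≤ 5 * h → ∀ a ∈ J, ∀ b ∈ J, a ≠ b →
      ∃ C ⊆ K0, Conn r C ∧ a ∈ C ∧ b ∈ C ∧ C ∩ J ⊆ {a, b} ∧ C.card ≤ 6
  · refine ⟨K0, Finset.Subset.refl _, ?_, fun Q hQ hQh => greedy H hQ hQh⟩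
    obtain ⟨v, hv⟩ := hne
    have h1 := hdeg v hv
    have h2 := hdegle K0 v
    omega
  · push Not at H
    obtain ⟨J, hJK, hJ, a, ha, b, hb, hab, hno⟩ := H
    set K := K0 \ (J \ {a, b}) with hK
    have hKK0 : K ⊆ K0 := Finset.sdiff_subset
    have haK : a ∈ K := by
      rw [hK, Finset.mem_sdiff]; exact ⟨hJK ha, by simp⟩
    have hbK : b ∈ K := by
      rw [hK, Finset.mem_sdiff]; exact ⟨hJK hb, by simp⟩
    have hno' : ∀ C ⊆ K, Conn r C → a ∈ C → b ∈ C → 6 < C.card := by
      intro C hC hCc haC hbC
      apply hno C (hC.trans hKK0) hCc haC hbC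
      intro z hz
      rw [Finset.mem_inter] at hz
      by_contra hz'
      have := hC hz.1
      rw [hK, Finset.mem_sdiff] at this
      exact this.2 (Finset.mem_sdiff.mpr ⟨hz.2, hz'⟩)
    have hdegK : ∀ v ∈ K, 26 * h + 1 ≤ deg r K v := by
      intro v hv
      have h1 := hdeg v (hKK0 hv)
      have h2 : deg r K0 v ≤ deg r K v + J.card := by
        unfold deg
        refine le_trans (Finset.card_le_card ?_) (Finset.card_union_le _ _)
        intro z hz
        rw [Finset.mem_filter] at hz
        by_cases hzJ : z ∈ J
        · exact Finset.mem_union_right _ hzJ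
        · apply Finset.mem_union_left
          rw [Finset.mem_filter, hK, Finset.mem_sdiff]
          exact ⟨⟨hz.1, fun h => hzJ (Finset.mem_sdiff.mp h).1⟩, hz.2⟩
      omega
    set Pa := K.filter (fun z => ∃ C ⊆ K, Conn r C ∧ a ∈ C ∧ z ∈ C ∧ C.card ≤ 3) with hPa
    set Pb := K.filter (fun z => ∃ C ⊆ K, Conn r C ∧ b ∈ C ∧ z ∈ C ∧ C.card ≤ 3) with hPb
    have haPa : a ∈ Pa := by
      rw [hPa, Finset.mem_filter]
      exact ⟨haK, {a}, by simpa using haK, Conn.singleton r a, by simp, by simp, by simp⟩
    have hbPb : b ∈ Pb := by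
      rw [hPb, Finset.mem_filter]
      exact ⟨hbK, {b}, by simpa using hbK, Conn.singleton r b, by simp, by simp, by simp⟩
    have hdisj : ∀ z, z ∈ Pa → z ∈ Pb → False := by
      intro z h1 h2
      rw [hPa, Finset.mem_filter] at h1
      rw [hPb, Finset.mem_filter] at h2
      obtain ⟨_, C1, hC1, c1, a1, z1, n1⟩ := h1
      obtain ⟨_, C2, hC2, c2, a2, z2, n2⟩ := h2
      have := hno' (C1 ∪ C2) (Finset.union_subset hC1 hC2)
        (c1.union c2 ⟨z, Finset.mem_inter.mpr ⟨z1, z2⟩⟩) (Finset.mem_union_left _ a1)
        (Finset.mem_union_right _ a2)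
      have h3 := Finset.card_union_le C1 C2
      omega
    have hnoedge : ∀ z, z ∈ Pa → ∀ w, w ∈ Pb → ¬ r z w := by
      intro z h1 w h2 hzw
      rw [hPa, Finset.mem_filter] at h1
      rw [hPb, Finset.mem_filter] at h2
      obtain ⟨_, C1, hC1, c1, a1, z1, n1⟩ := h1
      obtain ⟨_, C2, hC2, c2, a2, z2, n2⟩ := h2
      have := hno' (C1 ∪ C2) (Finset.union_subset hC1 hC2)
        (c1.union_of_adj c2 ⟨z, z1, w, z2, hzw⟩ ⟨w, z2, z, z1, hs _ _ hzw⟩)
        (Finset.mem_union_left _ a1) (Finset.mem_union_right _ a2)
      have h3 := Finset.card_union_le C1 C2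
      omega
    -- closed neighbourhoods
    have hNcard : ∀ v ∈ K, 26 * h + 1 ≤ (K.filter (fun u => r v u)).card := hdegK
    have hnear : ∀ x ∈ K, ∀ z ∈ K, ∀ w ∈ K, r x w → r z w →
        ∃ C ⊆ K, Conn r C ∧ x ∈ C ∧ z ∈ C ∧ C.card ≤ 3 := by
      intro x hx z hz w hw h1 h2
      refine ⟨{x, z, w}, ?_, ?_, by simp, by simp, Finset.card_le_three⟩
      · intro t ht
        simp only [Finset.mem_insert, Finset.mem_singleton] at ht
        rcases ht with h | h | h
        · subst h; exact hx
        · subst h; exact hz
        · subst h; exact hw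
      · apply Conn.insert_or
        · apply Conn.insert_or (Conn.singleton r w)
          exact Or.inr ⟨w, by simp, hs _ _ h2, h2⟩
        · exact Or.inr ⟨w, by simp, hs _ _ h1, h1⟩
    have hcover : ∀ z ∈ K, z ∈ Pa ∨ z ∈ Pb := by
      intro z hz
      by_contra hcon
      push Not at hcon
      have d1 : Disjoint (K.filter (fun u => r a u)) (K.filter (fun u => r z u)) := by
        rw [Finset.disjoint_left]
        intro w h1 h2
        rw [Finset.mem_filter] at h1 h2
        apply hcon.1
        rw [hPa, Finset.mem_filter]
        exact ⟨hz, hnear a haK z hz w h1.1 h1.2 h2.2⟩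
      have d2 : Disjoint (K.filter (fun u => r b u)) (K.filter (fun u => r z u)) := by
        rw [Finset.disjoint_left]
        intro w h1 h2
        rw [Finset.mem_filter] at h1 h2
        apply hcon.2
        rw [hPb, Finset.mem_filter]
        exact ⟨hz, hnear b hbK z hz w h1.1 h1.2 h2.2⟩
      have d3 : Disjoint (K.filter (fun u => r a u)) (K.filter (fun u => r b u)) := by
        rw [Finset.disjoint_left]
        intro w h1 h2
        rw [Finset.mem_filter] at h1 h2
        apply hdisj b ?_ hbPb
        rw [hPa, Finset.mem_filter]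
        exact ⟨hbK, hnear a haK b hbK w h1.1 h1.2 h2.2⟩
      have e1 := hNcard a haK
      have e2 := hNcard b hbK
      have e3 := hNcard z hz
      have hu : ((K.filter (fun u => r a u) ∪ K.filter (fun u => r b u)) ∪
          K.filter (fun u => r z u)).card ≤ K.card :=
        Finset.card_le_card (Finset.union_subset (Finset.union_subset (Finset.filter_subset _ _)
          (Finset.filter_subset _ _)) (Finset.filter_subset _ _))
      rw [Finset.card_union_of_disjoint (Finset.disjoint_union_left.mpr ⟨d1, d2⟩),
        Finset.card_union_of_disjoint d3] at hu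
      have := Finset.card_le_card hKK0
      omega
    -- general conclusion for a closed part
    have hfin : ∀ M ⊆ K, M.Nonempty → M.card ≤ 32 * h → (∀ z ∈ M, ∀ v ∈ K, r z v → v ∈ M) →
        ∃ L ⊆ K0, h ≤ L.card ∧ ∀ Q ⊆ L, Q.card ≤ h → Linked r L Q := by
      intro M hM hMne hMc hMcl
      have hMdeg : ∀ v ∈ M, 26 * h + 1 ≤ deg r M v := by
        intro v hv
        have h1 := hdegK v (hM hv)
        have h2 : deg r K v ≤ deg r M v := by
          unfold deg
          apply Finset.card_le_card
          intro z hz
          rw [Finset.mem_filter] at hz ⊢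
          exact ⟨hMcl v hv z hz.1 hz.2, hz.2⟩
        omega
      refine ⟨M, hM.trans hKK0, ?_, fun Q hQ hQh =>
        greedy (dense_small hs hh hMc hMdeg) hQ hQh⟩
      obtain ⟨v, hv⟩ := hMne
      have h1 := hMdeg v hv
      have h2 := hdegle M v
      omega
    have hPaK : Pa ⊆ K := Finset.filter_subset _ _
    have hPbK : Pb ⊆ K := Finset.filter_subset _ _
    have hsum : Pa.card + Pb.card ≤ 64 * h + 1 := by
      have hd : Disjoint Pa Pb := by
        rw [Finset.disjoint_left]; exact fun z h1 h2 => hdisj z h1 h2
      rw [← Finset.card_union_of_disjoint hd]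
      exact (Finset.card_le_card ((Finset.union_subset hPaK hPbK).trans hKK0)).trans hcard
    by_cases hle : Pa.card ≤ Pb.card
    · apply hfin Pa hPaK ⟨a, haPa⟩ (by omega)
      intro z hz v hv hzv
      rcases hcover v hv with h | h
      · exact h
      · exact absurd hzv (hnoedge z hz v h)
    · apply hfin Pb hPbK ⟨b, hbPb⟩ (by omega)
      intro z hz v hv hzv
      rcases hcover v hv with h | h
      · exact absurd (hs _ _ hzv) (hnoedge v h z hz)
      · exact h

end Pool.Agent.Mader
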