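import Mathlib

/-! Weights from fractional covers by separation of convex sets. -/

open Classical

namespace Pool.Agent.Mader

theorem dual {V : Type*} [Fintype V] (P : Finset V → Prop) {κ : ℝ} (hκ : 0 < κ)
    (h : ∀ y : Finset V → ℝ, (∀ A, 0 ≤ y A) → (∀ A, y A ≠ 0 → P A) →
      (∀ v, 1 ≤ ∑ A with v ∈ A, y A) → κ < ∑ A, y A) :
    ∃ w : V → ℝ, (∀ v, 0 ≤ w v) ∧ ∀ A, P A → κ * ∑ v ∈ A, w v < ∑ v, w v := by
  set T : ({A : Finset V // P A} → ℝ) → (V → ℝ) :=
    fun l v => ∑ A : {A : Finset V // P A}, l A * (if v ∈ A.1 then 1 else 0) with hT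
  set K : Set (V → ℝ) := T '' stdSimplex ℝ {A : Finset V // P A} with hK
  set Cc : Set (V → ℝ) := {z | ∀ v, 1 / κ ≤ z v} with hCc
  have hTlin : IsLinearMap ℝ T := by
    refine ⟨?_, ?_⟩
    · intro x y; ext v; simp only [hT, Pi.add_apply, add_mul, Finset.sum_add_distrib]
    · intro c x; ext v
      simp only [hT, Pi.smul_apply, smul_eq_mul, Finset.mul_sum, mul_assoc]
  have hTcont : Continuous T := by
    apply continuous_pi
    intro v
    apply continuous_finsetSum
    intro A _
    exact (continuous_apply A).mul continuous_const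
  have hKconv : Convex ℝ K := (convex_stdSimplex ℝ _).is_linear_image hTlin
  have hKcomp : IsCompact K := (isCompact_stdSimplex ℝ _).image hTcont
  have hCconv : Convex ℝ Cc := by
    intro x hx y hy s t hs ht hst v
    have h1 := hx v
    have h2 := hy v
    simp only [Pi.add_apply, Pi.smul_apply, smul_eq_mul]
    have : 1 / κ = s * (1 / κ) + t * (1 / κ) := by rw [← add_mul, hst, one_mul]
    rw [this]
    exact add_le_add (mul_le_mul_of_nonneg_left h1 hs) (mul_le_mul_of_nonneg_left h2 ht)
  have hCclosed : IsClosed Cc := by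
    have : Cc = ⋂ v, {z : V → ℝ | 1 / κ ≤ z v} := by
      ext z; simp [hCc]
    rw [this]
    exact isClosed_iInter (fun v => isClosed_le continuous_const (continuous_apply v))
  have hdisj : Disjoint K Cc := by
    rw [Set.disjoint_left]
    rintro z ⟨l, hl, rfl⟩ hz
    set y : Finset V → ℝ := fun A => if hA : P A then κ * l ⟨A, hA⟩ else 0 with hy
    have hsum : ∀ g : Finset V → ℝ, ∑ A, y A * g A =
        ∑ A : {A : Finset V // P A}, κ * l A * g A.1 := by
      intro g
      have h1 : ∑ A, y A * g A = ∑ A ∈ Finset.univ.filter P, y A * g A := by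
        symm
        apply Finset.sum_filter_of_ne
        intro A _ hne
        by_contra hA
        apply hne
        simp only [hy]; rw [dif_neg hA, zero_mul]
      rw [h1, ← Finset.sum_subtype_eq_sum_filter, Finset.subtype_univ]
      apply Finset.sum_congr rfl
      intro A _
      simp only [hy]; rw [dif_pos A.2]
    have h1 := h y ?_ ?_ ?_
    · have h2 := hsum (fun _ => 1)
      simp only [mul_one] at h2
      rw [h2, ← Finset.mul_sum, hl.2, mul_one] at h1
      exact lt_irrefl _ h1
    · intro A
      simp only [hy]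
      split_ifs with hA
      · exact mul_nonneg hκ.le (hl.1 _)
      · exact le_refl _
    · intro A hA
      by_contra hPA
      apply hA
      simp only [hy]; rw [dif_neg hPA]
    · intro v
      have h2 := hsum (fun A => if v ∈ A then 1 else 0)
      have h3 : ∑ A with v ∈ A, y A = ∑ A, y A * (if v ∈ A then 1 else 0) := by
        rw [Finset.sum_filter]
        apply Finset.sum_congr rfl
        intro A _
        split_ifs <;> simp
      rw [h3, h2]
      have h4 := hz v
      simp only [hT] at h4
      have h5 : ∑ A : {A : Finset V // P A}, κ * l A * (if v ∈ A.1 then 1 else 0) =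
          κ * ∑ A : {A : Finset V // P A}, l A * (if v ∈ A.1 then 1 else 0) := by
        rw [Finset.mul_sum]
        apply Finset.sum_congr rfl
        intro A _; ring
      rw [h5]
      rw [div_le_iff₀ hκ] at h4
      rw [mul_comm]
      exact h4
  obtain ⟨f, u, v', hfK, huv, hfC⟩ := geometric_hahn_banach_compact_closed hKconv hKcomp hCconv
    hCclosed hdisj
  have hfsum : ∀ z : V → ℝ, f z = ∑ v, z v * f (fun j => if v = j then 1 else 0) := by
    intro z
    have := LinearMap.pi_apply_eq_sum_univ f.toLinearMap z
    simpa [smul_eq_mul] using this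
  set w : V → ℝ := fun v => f (fun j => if v = j then 1 else 0) with hw
  have hc0 : (fun _ => 1 / κ : V → ℝ) ∈ Cc := fun v => le_refl _
  refine ⟨w, ?_, ?_⟩
  · intro v
    by_contra hneg
    push Not at hneg
    have h1 := hfC _ hc0
    set c := f (fun _ => 1 / κ : V → ℝ) with hcdef
    set s : ℝ := (c - v') / (-(w v)) with hs
    have hs0 : 0 ≤ s := div_nonneg (by linarith) (by linarith)
    have h2 := hfC ((fun _ => 1 / κ : V → ℝ) + s • (fun j => if v = j then 1 else 0)) (by
      intro j
      simp only [Pi.add_apply, Pi.smul_apply, smul_eq_mul]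
      split_ifs
      · linarith
      · linarith)
    rw [map_add, map_smul, smul_eq_mul] at h2
    have h3 : s * w v = -(c - v') := by
      rw [hs]
      have : w v ≠ 0 := ne_of_lt hneg
      field_simp
    have h4 : f (fun j => if v = j then 1 else 0) = w v := rfl
    rw [h4, h3, ← hcdef] at h2
    linarith
  · intro A hA
    have h1 : T (Pi.single ⟨A, hA⟩ 1) ∈ K :=
      ⟨_, single_mem_stdSimplex ℝ _, rfl⟩
    have h2 : T (Pi.single ⟨A, hA⟩ 1) = fun v => if v ∈ A then 1 else 0 := by
      ext v
      simp only [hT]
      rw [Finset.sum_eq_single (⟨A, hA⟩ : {A : Finset V // P A})]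
      · simp
      · intro B _ hB
        rw [Pi.single_eq_of_ne hB, zero_mul]
      · intro h; exact absurd (Finset.mem_univ _) h
    have h3 := hfK _ h1
    rw [h2, hfsum] at h3
    have h4 := hfC _ hc0
    rw [hfsum] at h4
    have h5 : ∑ v, (if v ∈ A then (1 : ℝ) else 0) * f (fun j => if v = j then 1 else 0) =
        ∑ v ∈ A, w v := by
      rw [← Finset.sum_filter_add_sum_filter_not Finset.univ (fun v => v ∈ A)]
      have e1 : Finset.univ.filter (fun v => v ∈ A) = A := by ext; simp
      have e2 : ∑ v with ¬ v ∈ A, (if v ∈ A then (1 : ℝ) else 0) *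
          f (fun j => if v = j then 1 else 0) = 0 := by
        apply Finset.sum_eq_zero
        intro v hv
        rw [Finset.mem_filter] at hv
        rw [if_neg hv.2, zero_mul]
      rw [e2, add_zero, e1]
      apply Finset.sum_congr rfl
      intro v hv
      rw [if_pos hv, one_mul]
    have h6 : ∑ v, (1 / κ) * f (fun j => if v = j then 1 else 0) = (1 / κ) * ∑ v, w v := by
      rw [Finset.mul_sum]
    rw [h5] at h3
    rw [h6] at h4
    have h7 : ∑ v ∈ A, w v < (1 / κ) * ∑ v, w v := by linarith
    rw [one_div, inv_mul_eq_div, lt_div_iff₀ hκ, mul_comm] at h7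
    exact h7

end Pool.Agent.Mader
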