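import Pool.Agent.Mader.Defs
import Pool.Agent.Mader.Dual
import Pool.Agent.Mader.Lift

open Classical

namespace Pool.Agent.Mader

universe u

/-- The weighted form: a digraph with a vertex weighting in which every acyclic set has a small
proportion of the weight contains a subdivision of `F`. -/
theorem subdivision_of_weights {n : ℕ} (hn : 0 < n) (F : Digraph (Fin n)) {V : Type u}
    [Fintype V] (D : Digraph V) (hD : ∀ v, ¬ D.Adj v v) (w : V → ℝ) (hw : ∀ v, 0 ≤ w v)
    (hpos : 0 < ∑ v, w v)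
    (hal : ∀ A : Finset V, AcyclicSet D A →
      (568 * (n + Nat.card {e : Fin n × Fin n // F.Adj e.1 e.2}) : ℝ) * ∑ v ∈ A, w v ≤
        ∑ v, w v) :
    ContainsSubdivision F D := by
  set m := Nat.card {e : Fin n × Fin n // F.Adj e.1 e.2} with hm
  obtain ⟨v, I, hvinj, hI, hd⟩ := weighted (V := V)
    (ι := {e : Fin n × Fin n // F.Adj e.1 e.2}) (fun e => e.1.1) (fun e => e.1.2) (M := n + m)
    (by rw [hm, Nat.card_eq_fintype_card]; omega) (by omega) (a := D.Adj) hD (w := w) hw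
    Finset.univ hpos (by
      intro A hA
      have h1 := hal A (Acyc.no_cycle hA)
      have h2 : 0 ≤ ∑ v ∈ A, w v := Finset.sum_nonneg (fun v _ => hw v)
      have h3 : (8 * (70 * ((n + m : ℕ) : ℝ) + 1) : ℝ) ≤ 568 * (n + m) := by
        have h4 : (1 : ℝ) ≤ n := by exact_mod_cast hn
        have h5 : (0 : ℝ) ≤ m := Nat.cast_nonneg m
        push_cast
        nlinarith
      exact (mul_le_mul_of_nonneg_right h3 h2).trans h1)
  have hpath : ∀ e : {e : Fin n × Fin n // F.Adj e.1 e.2}, ∃ (L : ℕ) (p : ℕ → V),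
      p 0 = v e.1.1 ∧ p (L + 1) = v e.1.2 ∧ (∀ t, t ≤ L → D.Adj (p t) (p (t + 1))) ∧
      (∀ s t, 1 ≤ s → s ≤ L → 1 ≤ t → t ≤ L → p s = p t → s = t) ∧
      ∀ t, 1 ≤ t → t ≤ L → p t ∈ I e :=
    fun e => path_through (hI e).1 (hI e).2.1 (hI e).2.2.1
  choose L p hp0 hp1 hpa hpinj hpI using hpath
  have hLd : ∀ i j (h : F.Adj i j),
      (fun i j => if h : F.Adj i j then L ⟨(i, j), h⟩ else 0) i j = L ⟨(i, j), h⟩ := by
    intro i j h; simp only []; rw [dif_pos h]
  have hpd : ∀ i j (h : F.Adj i j),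
      (fun i j => if h : F.Adj i j then p ⟨(i, j), h⟩ else fun _ => v i) i j =
        p ⟨(i, j), h⟩ := by
    intro i j h; simp only []; rw [dif_pos h]
  refine ⟨v, hvinj, fun i j => if h : F.Adj i j then L ⟨(i, j), h⟩ else 0,
    fun i j => if h : F.Adj i j then p ⟨(i, j), h⟩ else fun _ => v i, ?_, ?_⟩
  · intro i j h
    simp only [dif_pos h]
    refine ⟨hp0 _, hp1 _, hpa _, hpinj _, ?_⟩
    intro t k h1 h2 h3
    exact (hI _).2.2.2 k (h3 ▸ hpI _ t h1 h2)
  · intro i j k l h h' hne s t hs hs' ht ht' heq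
    simp only [dif_pos h] at hs' heq
    simp only [dif_pos h'] at ht' heq
    have h1 := hpI _ s hs hs'
    have h2 := hpI _ t ht ht'
    rw [heq] at h1
    refine Finset.disjoint_left.mp (hd _ _ ?_) h1 h2
    intro hh
    have := congrArg Subtype.val hh
    rw [Prod.mk.injEq] at this
    rcases hne with g | g
    · exact g this.1
    · exact g this.2

theorem frac_main : ∃ c : ℕ, 0 < c ∧ ∀ n : ℕ, 0 < n → ∀ F : Digraph (Fin n),
    (∀ i, ¬ F.Adj i i) → ∀ (V : Type u) [Fintype V] (D : Digraph V), (∀ v, ¬ D.Adj v v) →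
      (c : ℝ) * (n + Nat.card {e : Fin n × Fin n // F.Adj e.1 e.2}) ≤ fracDichromatic D →
      ContainsSubdivision F D := by
  refine ⟨600, by norm_num, ?_⟩
  intro n hn F _ V _ D hD hfrac
  set m := Nat.card {e : Fin n × Fin n // F.Adj e.1 e.2} with hm
  have hn1 : (1 : ℝ) ≤ n := by exact_mod_cast hn
  have hm0 : (0 : ℝ) ≤ m := Nat.cast_nonneg m
  have hκ : (0 : ℝ) < 568 * (n + m) := by nlinarith
  obtain ⟨w, hw, hwA⟩ := dual (V := V) (AcyclicSet D) hκ (by
    intro y h1 h2 h3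
    have h4 : fracDichromatic D ≤ ∑ A, y A := by
      apply csInf_le
      · refine ⟨0, ?_⟩
        rintro s ⟨z, hz, _, _, rfl⟩
        exact Finset.sum_nonneg (fun A _ => hz A)
      · exact ⟨y, h1, h2, h3, rfl⟩
    have h5 : (568 * (n + m) : ℝ) < ((600 : ℕ) : ℝ) * (n + m) := by
      push_cast; nlinarith
    linarith)
  have hemp : AcyclicSet D ∅ := by
    intro v hv
    obtain ⟨y, hvy, _⟩ := Relation.TransGen.head'_iff.mp hv
    simpa using hvy.1
  have hpos : 0 < ∑ v, w v := by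
    have := hwA ∅ hemp
    simpa using this
  exact subdivision_of_weights hn F D hD w hw hpos (fun A hA => (hwA A hA).le)

end Pool.Agent.Mader
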