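import Pool.Agent.Mader.Menger

/-! Linked sets of vertices: every labelling of a root set is realised by disjoint connected
sets. -/

open Classical

namespace Pool.Agent.Mader

universe u

variable {V : Type u}

/-- `X` is linked in `(r, S)`: for every labelling of `X` there are connected subsets of `S`,
one for each label occurring on `X`, containing the vertices of that label, and disjoint for
different labels. -/
def Linked (r : V → V → Prop) (S X : Finset V) : Prop :=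
  ∀ (ι : Type u) (c : V → ι), ∃ C : ι → Finset V,
    (∀ x ∈ X, x ∈ C (c x) ∧ C (c x) ⊆ S ∧ Conn r (C (c x))) ∧
    ∀ x ∈ X, ∀ y ∈ X, c x ≠ c y → Disjoint (C (c x)) (C (c y))

/-- `P` is joined to `L` in `(r, S)` by disjoint connected sets, each meeting `L` once. -/
def Joined (r : V → V → Prop) (S P L : Finset V) : Prop :=
  ∃ F : V → Finset V, (∀ x ∈ P, x ∈ F x ∧ F x ⊆ S ∧ Conn r (F x) ∧ ∃ q, F x ∩ L = {q}) ∧
      ∀ x ∈ P, ∀ y ∈ P, x ≠ y → Disjoint (F x) (F y)

theorem Linked.mono {r r' : V → V → Prop} {S S' X : Finset V} (h : Linked r S X)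
    (hr : ∀ u ∈ S, ∀ v ∈ S, r u v → r' u v) (hS : S ⊆ S') : Linked r' S' X := by
  intro ι c
  obtain ⟨C, hC, hd⟩ := h ι c
  refine ⟨C, ?_, hd⟩
  intro x hx
  obtain ⟨h1, h2, h3⟩ := hC x hx
  exact ⟨h1, h2.trans hS, h3.mono_on (fun u hu v hv => hr u (h2 hu) v (h2 hv))⟩

/-- Gluing a connected set for a modified relation. -/
theorem Conn.glue {r r' : V → V → Prop} {X Y : Finset V} (hX : Conn r' X) (hY : Conn r Y)
    (hXY : (X ∩ Y).Nonempty)
    (hr : ∀ u ∈ X, ∀ v ∈ X, r' u v → r u v ∨ (u ∈ Y ∧ v ∈ Y)) : Conn r (X ∪ Y) := by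
  refine ⟨hX.1.mono Finset.subset_union_left, ?_⟩
  intro Z hZ hne hneq
  by_contra hcon
  push Not at hcon
  obtain ⟨p, hp⟩ := hXY
  rw [Finset.mem_inter] at hp
  by_cases hZY : (Z ∩ Y).Nonempty
  · have hYZ : Y ⊆ Z := by
      have : Z ∩ Y = Y := by
        apply Conn.eq_of_closed hY Finset.inter_subset_right hZY
        intro u hu v hv huv
        rw [Finset.mem_inter] at hu ⊢
        refine ⟨?_, hv⟩
        by_contra hvZ
        exact hcon u hu.1 v (Finset.mem_union_right _ hv) hvZ huv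
      rw [← this]; exact Finset.inter_subset_left
    have hXZ : X ⊆ Z := by
      have : Z ∩ X = X := by
        apply Conn.eq_of_closed hX Finset.inter_subset_right
          ⟨p, Finset.mem_inter.mpr ⟨hYZ hp.2, hp.1⟩⟩
        intro u hu v hv huv
        rw [Finset.mem_inter] at hu ⊢
        refine ⟨?_, hv⟩
        rcases hr u hu.2 v hv huv with h | h
        · by_contra hvZ
          exact hcon u hu.1 v (Finset.mem_union_left _ hv) hvZ h
        · exact hYZ h.2
      rw [← this]; exact Finset.inter_subset_left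
    exact hneq (Finset.Subset.antisymm hZ (Finset.union_subset hXZ hYZ))
  · have hno : ∀ z ∈ Z, z ∉ Y := fun z hz hzY => hZY ⟨z, Finset.mem_inter.mpr ⟨hz, hzY⟩⟩
    obtain ⟨z, hz⟩ := hne
    have hzX : z ∈ X := by
      rcases Finset.mem_union.mp (hZ hz) with h | h
      · exact h
      · exact absurd h (hno z hz)
    have : Z ∩ X = X := by
      apply Conn.eq_of_closed hX Finset.inter_subset_right
        ⟨z, Finset.mem_inter.mpr ⟨hz, hzX⟩⟩
      intro u hu v hv huv
      rw [Finset.mem_inter] at hu ⊢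
      refine ⟨?_, hv⟩
      rcases hr u hu.2 v hv huv with h | h
      · by_contra hvZ
        exact hcon u hu.1 v (Finset.mem_union_left _ hv) hvZ h
      · exact absurd h.1 (hno u hu.1)
    have hpZ : p ∈ Z := by
      have := hp.1
      rw [← ‹Z ∩ X = X›] at this
      exact (Finset.mem_inter.mp this).1
    exact hno p hpZ hp.2

/-- First gluing lemma. -/
theorem Linked.glue {r r' : V → V → Prop} {A B Q X : Finset V}
    (hABQ : A ∩ B ⊆ Q) (hB : Linked r B Q) (hA : Linked r' A X)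
    (hr : ∀ u ∈ A, ∀ v ∈ A, r' u v → r u v ∨ (u ∈ Q ∧ v ∈ Q)) : Linked r (A ∪ B) X := by
  intro ι c
  obtain ⟨C', hC', hd'⟩ := hA ι c
  -- label of q
  set ℓ : V → ι ⊕ V := fun q =>
    if h : ∃ x ∈ X, q ∈ C' (c x) then Sum.inl (c h.choose) else Sum.inr q with hℓ
  have hℓ1 : ∀ q x, x ∈ X → q ∈ C' (c x) → ℓ q = Sum.inl (c x) := by
    intro q x hx hq
    have hex : ∃ x ∈ X, q ∈ C' (c x) := ⟨x, hx, hq⟩
    have h1 : ℓ q = Sum.inl (c hex.choose) := by
      simp only [hℓ]; rw [dif_pos hex]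
    rw [h1]
    have h2 := hex.choose_spec
    congr 1
    by_contra hne
    exact Finset.disjoint_left.mp (hd' _ h2.1 _ hx hne) h2.2 hq
  obtain ⟨D, hD, hdD⟩ := hB (ι ⊕ V) ℓ
  have hDq : ∀ q ∈ Q, ∀ x ∈ X, q ∈ C' (c x) →
      q ∈ D (Sum.inl (c x)) ∧ D (Sum.inl (c x)) ⊆ B ∧ Conn r (D (Sum.inl (c x))) := by
    intro q hq x hx hqC
    have := hD q hq
    rwa [hℓ1 q x hx hqC] at this
  have hDdisj : ∀ q ∈ Q, ∀ x ∈ X, q ∈ C' (c x) → ∀ q' ∈ Q, ∀ x' ∈ X, q' ∈ C' (c x') →
      c x ≠ c x' → Disjoint (D (Sum.inl (c x))) (D (Sum.inl (c x'))) := by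
    intro q hq x hx hqC q' hq' x' hx' hqC' hne
    have := hdD q hq q' hq' (by
      rw [hℓ1 q x hx hqC, hℓ1 q' x' hx' hqC']
      intro h; exact hne (Sum.inl.inj h))
    rwa [hℓ1 q x hx hqC, hℓ1 q' x' hx' hqC'] at this
  refine ⟨fun i => if (C' i ∩ Q).Nonempty then C' i ∪ D (Sum.inl i) else C' i, ?_, ?_⟩
  · intro x hx
    obtain ⟨h1, h2, h3⟩ := hC' x hx
    beta_reduce
    by_cases hq : (C' (c x) ∩ Q).Nonempty
    · rw [if_pos hq]
      obtain ⟨q, hq'⟩ := hq
      rw [Finset.mem_inter] at hq'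
      obtain ⟨g1, g2, g3⟩ := hDq q hq'.2 x hx hq'.1
      refine ⟨Finset.mem_union_left _ h1, Finset.union_subset_union h2 g2, ?_⟩
      apply Conn.glue h3 g3 ⟨q, Finset.mem_inter.mpr ⟨hq'.1, g1⟩⟩
      intro u hu v hv huv
      rcases hr u (h2 hu) v (h2 hv) huv with h | h
      · exact Or.inl h
      · exact Or.inr ⟨(hDq u h.1 x hx hu).1, (hDq v h.2 x hx hv).1⟩
    · rw [if_neg hq]
      refine ⟨h1, h2.trans Finset.subset_union_left, h3.mono_on ?_⟩
      intro u hu v hv huv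
      rcases hr u (h2 hu) v (h2 hv) huv with h | h
      · exact h
      · exact absurd ⟨u, Finset.mem_inter.mpr ⟨hu, h.1⟩⟩ hq
  · intro x hx y hy hne
    rw [Finset.disjoint_left]
    have hmem : ∀ x ∈ X, ∀ z, z ∈ (if (C' (c x) ∩ Q).Nonempty then C' (c x) ∪ D (Sum.inl (c x))
        else C' (c x)) → z ∈ C' (c x) ∨ ((∃ q ∈ Q, q ∈ C' (c x)) ∧ z ∈ D (Sum.inl (c x))) := by
      intro x hx z hz
      by_cases hq : (C' (c x) ∩ Q).Nonempty
      · rw [if_pos hq, Finset.mem_union] at hz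
        obtain ⟨q, hq'⟩ := hq
        rw [Finset.mem_inter] at hq'
        rcases hz with h | h
        · exact Or.inl h
        · exact Or.inr ⟨⟨q, hq'.2, hq'.1⟩, h⟩
      · rw [if_neg hq] at hz
        exact Or.inl hz
    -- mixed case
    have hmix : ∀ x ∈ X, ∀ y ∈ X, c x ≠ c y → ∀ z, z ∈ C' (c x) →
        (∃ q ∈ Q, q ∈ C' (c y)) → z ∈ D (Sum.inl (c y)) → False := by
      intro x hx y hy hne z hz ⟨q, hq, hqC⟩ hzD
      have hzB : z ∈ B := (hDq q hq y hy hqC).2.1 hzD
      have hzA : z ∈ A := (hC' x hx).2.1 hz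
      have hzQ : z ∈ Q := hABQ (Finset.mem_inter.mpr ⟨hzA, hzB⟩)
      have h1 := (hDq z hzQ x hx hz).1
      exact Finset.disjoint_left.mp (hDdisj z hzQ x hx hz q hq y hy hqC hne) h1 hzD
    intro z hz1 hz2
    rcases hmem x hx z hz1 with h1 | ⟨⟨q1, hq1, hqC1⟩, h1⟩ <;>
      rcases hmem y hy z hz2 with h2 | ⟨⟨q2, hq2, hqC2⟩, h2⟩
    · exact Finset.disjoint_left.mp (hd' x hx y hy hne) h1 h2
    · exact hmix x hx y hy hne z h1 ⟨q2, hq2, hqC2⟩ h2
    · exact hmix y hy x hx (Ne.symm hne) z h2 ⟨q1, hq1, hqC1⟩ h1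
    · exact Finset.disjoint_left.mp (hDdisj q1 hq1 x hx hqC1 q2 hq2 y hy hqC2 hne) h1 h2

/-- Union of connected sets meeting a fixed connected set. -/
theorem Conn.union_biUnion {r : V → V → Prop} {D : Finset V} (hD : Conn r D) (T : Finset V)
    (P : V → Finset V) (hP : ∀ x ∈ T, Conn r (P x) ∧ (D ∩ P x).Nonempty) :
    Conn r (D ∪ T.biUnion P) := by
  induction T using Finset.induction_on with
  | empty => simpa using hD
  | insert x T hx ih =>
    have h1 := ih (fun y hy => hP y (Finset.mem_insert_of_mem hy))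
    have h2 := hP x (Finset.mem_insert_self _ _)
    have heq : D ∪ (insert x T).biUnion P = (D ∪ T.biUnion P) ∪ P x := by
      rw [Finset.biUnion_insert]
      ext z; simp only [Finset.mem_union]; tauto
    rw [heq]
    apply h1.union h2.1
    obtain ⟨z, hz⟩ := h2.2
    rw [Finset.mem_inter] at hz
    exact ⟨z, Finset.mem_inter.mpr ⟨Finset.mem_union_left _ hz.1, hz.2⟩⟩

/-- Second gluing lemma. -/
theorem Linked.of_joined {r : V → V → Prop} {S B X : Finset V} (hBS : B ⊆ S)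
    (F : V → Finset V) (q : V → V)
    (hF : ∀ x ∈ X, x ∈ F x ∧ F x ⊆ S ∧ Conn r (F x) ∧ F x ∩ B = {q x})
    (hd : ∀ x ∈ X, ∀ y ∈ X, x ≠ y → Disjoint (F x) (F y))
    (hB : Linked r B (X.image q)) : Linked r S X := by
  intro ι c
  have hqF : ∀ x ∈ X, q x ∈ F x ∧ q x ∈ B := by
    intro x hx
    have : q x ∈ F x ∩ B := by rw [(hF x hx).2.2.2]; simp
    exact Finset.mem_inter.mp this
  have hqinj : ∀ x ∈ X, ∀ y ∈ X, q x = q y → x = y := by
    intro x hx y hy h
    by_contra hne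
    exact Finset.disjoint_left.mp (hd x hx y hy hne) (hqF x hx).1 (h ▸ (hqF y hy).1)
  set ℓ : V → ι := fun p => if h : ∃ x ∈ X, q x = p then c h.choose else c p with hℓ
  have hℓ1 : ∀ x ∈ X, ℓ (q x) = c x := by
    intro x hx
    have hex : ∃ x' ∈ X, q x' = q x := ⟨x, hx, rfl⟩
    have h1 : ℓ (q x) = c hex.choose := by simp only [hℓ]; rw [dif_pos hex]
    rw [h1, hqinj _ hex.choose_spec.1 x hx hex.choose_spec.2]
  obtain ⟨D, hD, hdD⟩ := hB ι ℓ
  have hDx : ∀ x ∈ X, q x ∈ D (c x) ∧ D (c x) ⊆ B ∧ Conn r (D (c x)) := by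
    intro x hx
    have := hD (q x) (Finset.mem_image_of_mem _ hx)
    rwa [hℓ1 x hx] at this
  have hDd : ∀ x ∈ X, ∀ y ∈ X, c x ≠ c y → Disjoint (D (c x)) (D (c y)) := by
    intro x hx y hy hne
    have := hdD (q x) (Finset.mem_image_of_mem _ hx) (q y) (Finset.mem_image_of_mem _ hy)
      (by rw [hℓ1 x hx, hℓ1 y hy]; exact hne)
    rwa [hℓ1 x hx, hℓ1 y hy] at this
  refine ⟨fun i => D i ∪ (X.filter (fun x => c x = i)).biUnion F, ?_, ?_⟩
  · intro x hx
    refine ⟨?_, ?_, ?_⟩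
    · apply Finset.mem_union_right
      rw [Finset.mem_biUnion]
      exact ⟨x, Finset.mem_filter.mpr ⟨hx, rfl⟩, (hF x hx).1⟩
    · apply Finset.union_subset ((hDx x hx).2.1.trans hBS)
      intro z hz
      rw [Finset.mem_biUnion] at hz
      obtain ⟨y, hy, hzy⟩ := hz
      exact (hF y (Finset.mem_filter.mp hy).1).2.1 hzy
    · apply Conn.union_biUnion (hDx x hx).2.2
      intro y hy
      rw [Finset.mem_filter] at hy
      refine ⟨(hF y hy.1).2.2.1, ⟨q y, Finset.mem_inter.mpr ⟨?_, (hqF y hy.1).1⟩⟩⟩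
      rw [← hy.2]; exact (hDx y hy.1).1
  · intro x hx y hy hne
    rw [Finset.disjoint_left]
    have hmix : ∀ x ∈ X, ∀ y ∈ X, c x ≠ c y → ∀ z, z ∈ D (c x) → z ∈ F y → False := by
      intro x hx y hy hne z hz1 hz2
      have hzB : z ∈ B := (hDx x hx).2.1 hz1
      have : z ∈ F y ∩ B := Finset.mem_inter.mpr ⟨hz2, hzB⟩
      rw [(hF y hy).2.2.2, Finset.mem_singleton] at this
      subst this
      exact Finset.disjoint_left.mp (hDd x hx y hy hne) hz1 (hDx y hy).1
    intro z hz1 hz2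
    simp only [Finset.mem_union, Finset.mem_biUnion, Finset.mem_filter] at hz1 hz2
    rcases hz1 with h1 | ⟨x', ⟨hx', hcx'⟩, h1⟩ <;> rcases hz2 with h2 | ⟨y', ⟨hy', hcy'⟩, h2⟩
    · exact Finset.disjoint_left.mp (hDd x hx y hy hne) h1 h2
    · exact hmix x hx y' hy' (by rw [hcy']; exact hne) z h1 h2
    · exact hmix y hy x' hx' (by rw [hcx']; exact Ne.symm hne) z h2 h1
    · refine Finset.disjoint_left.mp (hd x' hx' y' hy' ?_) h1 h2
      intro h; rw [h, hcy'] at hcx'; exact hne hcx'.symm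

/-- The relation obtained by contracting `y` into `x`. -/
def contr (r : V → V → Prop) (x y : V) : V → V → Prop :=
  fun u v => u ≠ v ∧ (r u v ∨ (u = x ∧ r y v) ∨ (v = x ∧ r u y))

theorem contr_symm {r : V → V → Prop} (hs : ∀ u v, r u v → r v u) (x y : V) :
    ∀ u v, contr r x y u v → contr r x y v u := by
  rintro u v ⟨h1, h2⟩
  refine ⟨Ne.symm h1, ?_⟩
  rcases h2 with h | ⟨h, h'⟩ | ⟨h, h'⟩
  · exact Or.inl (hs _ _ h)
  · exact Or.inr (Or.inr ⟨h, hs _ _ h'⟩)
  · exact Or.inr (Or.inl ⟨h, hs _ _ h'⟩)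

theorem contr_irrefl {r : V → V → Prop} (x y : V) : ∀ u, ¬ contr r x y u u :=
  fun _ h => h.1 rfl

theorem Conn.uncontract {r : V → V → Prop} (hs : ∀ u v, r u v → r v u) {x y : V}
    (hxy : r x y) {C : Finset V} (hC : Conn (contr r x y) C) (hx : x ∈ C) :
    Conn r (insert y C) := by
  refine ⟨⟨y, Finset.mem_insert_self _ _⟩, ?_⟩
  intro Z hZ hne hneq
  by_contra hcon
  push Not at hcon
  have hxy1 : x ∈ Z → y ∈ Z := by
    intro h
    by_contra hy
    exact hcon x h y (Finset.mem_insert_self _ _) hy hxy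
  have hxy2 : y ∈ Z → x ∈ Z := by
    intro h
    by_contra hx'
    exact hcon y h x (Finset.mem_insert_of_mem hx) hx' (hs _ _ hxy)
  have hZC : (Z ∩ C).Nonempty := by
    obtain ⟨z, hz⟩ := hne
    rcases Finset.mem_insert.mp (hZ hz) with h | h
    · subst h; exact ⟨x, Finset.mem_inter.mpr ⟨hxy2 hz, hx⟩⟩
    · exact ⟨z, Finset.mem_inter.mpr ⟨hz, h⟩⟩
  have heq : Z ∩ C = C := by
    apply Conn.eq_of_closed hC Finset.inter_subset_right hZC
    intro u hu v hv huv
    rw [Finset.mem_inter] at hu ⊢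
    refine ⟨?_, hv⟩
    by_contra hvZ
    rcases huv.2 with h | ⟨h, h'⟩ | ⟨h, h'⟩
    · exact hcon u hu.1 v (Finset.mem_insert_of_mem hv) hvZ h
    · subst h
      exact hcon y (hxy1 hu.1) v (Finset.mem_insert_of_mem hv) hvZ h'
    · subst h
      exact hcon u hu.1 y (Finset.mem_insert_self _ _) (fun h => hvZ (hxy2 h)) h'
  have hCZ : C ⊆ Z := by rw [← heq]; exact Finset.inter_subset_left
  apply hneq
  apply Finset.Subset.antisymm hZ
  intro z hz
  rcases Finset.mem_insert.mp hz with h | h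
  · subst h; exact hxy1 (hCZ hx)
  · exact hCZ h

/-- Third gluing lemma: lifting a contraction. -/
theorem Linked.uncontract {r : V → V → Prop} (hs : ∀ u v, r u v → r v u) {x y : V}
    (hxy : r x y) {S X : Finset V} (hyS : y ∉ S) (hxS : x ∈ S)
    (h : Linked (contr r x y) S X) : Linked r (insert y S) X := by
  intro ι c
  obtain ⟨C, hC, hd⟩ := h ι c
  refine ⟨fun i => if x ∈ C i then insert y (C i) else C i, ?_, ?_⟩
  · intro z hz
    obtain ⟨h1, h2, h3⟩ := hC z hz
    beta_reduce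
    by_cases hx : x ∈ C (c z)
    · rw [if_pos hx]
      exact ⟨Finset.mem_insert_of_mem h1, Finset.insert_subset_insert _ h2,
        h3.uncontract hs hxy hx⟩
    · rw [if_neg hx]
      refine ⟨h1, h2.trans (Finset.subset_insert _ _), h3.mono_on ?_⟩
      intro u hu v hv huv
      rcases huv.2 with h | ⟨h, _⟩ | ⟨h, _⟩
      · exact h
      · subst h; exact absurd hu hx
      · subst h; exact absurd hv hx
  · intro z hz w hw hne
    have hdd := hd z hz w hw hne
    rw [Finset.disjoint_left] at hdd ⊢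
    have hyC : ∀ z ∈ X, y ∉ C (c z) := fun z hz h => hyS ((hC z hz).2.1 h)
    intro t ht1 ht2
    by_cases hx1 : x ∈ C (c z)
    · have hx2 : x ∉ C (c w) := hdd hx1
      simp only [hx1, if_true, hx2, if_false] at ht1 ht2
      rcases Finset.mem_insert.mp ht1 with h | h
      · subst h; exact hyC w hw ht2
      · exact hdd h ht2
    · by_cases hx2 : x ∈ C (c w)
      · simp only [hx1, hx2, if_true, if_false] at ht1 ht2
        rcases Finset.mem_insert.mp ht2 with h | h
        · subst h; exact hyC z hz ht1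
        · exact hdd ht1 h
      · simp only [hx1, hx2, if_false] at ht1 ht2
        exact hdd ht1 ht2

/-- `Joined` from Menger or a separation of minimal order. -/
theorem joined_or {r : V → V → Prop} (hs : ∀ u v, r u v → r v u) (hirr : ∀ u, ¬ r u u)
    {S P L : Finset V} (hP : P ⊆ S) (hL : L ⊆ S) :
    Joined r S P L ∨ ∃ A B, Sep r S A B ∧ P ⊆ A ∧ L ⊆ B ∧ (A ∩ B).card < P.card ∧
      Joined r B (A ∩ B) L := by
  by_cases hall : ∀ A B, Sep r S A B → P ⊆ A → L ⊆ B → P.card ≤ (A ∩ B).card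
  · exact Or.inl (menger hs hirr hP hL hall)
  · right
    push Not at hall
    have hex : ∃ n, ∃ A B, Sep r S A B ∧ P ⊆ A ∧ L ⊆ B ∧ (A ∩ B).card < P.card ∧
        (A ∩ B).card = n := by
      obtain ⟨A, B, h1, h2, h3, h4⟩ := hall
      exact ⟨_, A, B, h1, h2, h3, h4, rfl⟩
    obtain ⟨A, B, h1, h2, h3, h4, h5⟩ := Nat.find_spec hex
    refine ⟨A, B, h1, h2, h3, h4, ?_⟩
    apply menger hs hirr Finset.inter_subset_right h3
    intro A2 B2 hsep hA2 hB2
    by_contra hcon
    push Not at hcon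
    have hB2B : B2 ⊆ B := by rw [← hsep.1]; exact Finset.subset_union_right
    have hA2B : A2 ⊆ B := by rw [← hsep.1]; exact Finset.subset_union_left
    have heq : (A ∪ A2) ∩ B2 = A2 ∩ B2 := by
      ext z
      simp only [Finset.mem_inter, Finset.mem_union]
      constructor
      · rintro ⟨h | h, h'⟩
        · exact ⟨hA2 (Finset.mem_inter.mpr ⟨h, hB2B h'⟩), h'⟩
        · exact ⟨h, h'⟩
      · rintro ⟨h, h'⟩; exact ⟨Or.inr h, h'⟩
    have hS2 : Sep r S (A ∪ A2) B2 := by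
      refine ⟨?_, ?_⟩
      · rw [Finset.union_assoc, hsep.1, h1.1]
      · intro a ha haB b hb hbA hab
        have hbA1 : b ∉ A := fun h => hbA (Finset.mem_union_left _ h)
        have hbA2 : b ∉ A2 := fun h => hbA (Finset.mem_union_right _ h)
        rcases Finset.mem_union.mp ha with h | h
        · by_cases haB' : a ∈ B
          · have := hA2 (Finset.mem_inter.mpr ⟨h, haB'⟩)
            exact hsep.2 a this haB b hb hbA2 hab
          · exact h1.2 a h haB' b (hB2B hb) hbA1 hab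
        · exact hsep.2 a h haB b hb hbA2 hab
    have hlt : ((A ∪ A2) ∩ B2).card < Nat.find hex := by
      rw [heq]; rw [h5] at hcon; exact hcon
    apply Nat.find_min hex hlt
    refine ⟨A ∪ A2, B2, hS2, h2.trans Finset.subset_union_left, hB2, ?_, rfl⟩
    rw [heq]; omega

/-- Being joined to a linked target gives linkedness. -/
theorem Joined.linked {r : V → V → Prop} {S T B Q X : Finset V} (h : Joined r S X Q)
    (hST : S ⊆ T) (hBT : B ⊆ T) (hSB : S ∩ B ⊆ Q) (hQB : Q ⊆ B)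
    (hB : ∀ Q' ⊆ Q, Q'.card ≤ X.card → Linked r B Q') : Linked r T X := by
  obtain ⟨F, hF, hd⟩ := h
  have hex : ∀ x, ∃ q, x ∈ X → F x ∩ Q = {q} := by
    intro x
    by_cases hx : x ∈ X
    · obtain ⟨q, hq⟩ := (hF x hx).2.2.2
      exact ⟨q, fun _ => hq⟩
    · exact ⟨x, fun h => absurd h hx⟩
  choose q hq using hex
  apply Linked.of_joined hBT F q ?_ hd
  · apply hB
    · intro z hz
      rw [Finset.mem_image] at hz
      obtain ⟨x, hx, rfl⟩ := hz
      have : q x ∈ F x ∩ Q := by rw [hq x hx]; simp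
      exact (Finset.mem_inter.mp this).2
    · exact Finset.card_image_le
  · intro x hx
    refine ⟨(hF x hx).1, (hF x hx).2.1.trans hST, (hF x hx).2.2.1, ?_⟩
    rw [← hq x hx]
    ext z
    simp only [Finset.mem_inter]
    constructor
    · rintro ⟨h1, h2⟩
      exact ⟨h1, hSB (Finset.mem_inter.mpr ⟨(hF x hx).2.1 h1, h2⟩)⟩
    · rintro ⟨h1, h2⟩
      exact ⟨h1, hQB h2⟩

end Pool.Agent.Mader
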