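import Pool.Agent.Mader.Conn

/-! Menger's theorem for finite sets with a symmetric relation, in terms of disjoint
connected sets. -/

open Classical

namespace Pool.Agent.Mader

variable {V : Type*}

/-- `C` is a connected subset of `S` meeting both `A` and `B`. -/
def Connector (r : V → V → Prop) (S A B C : Finset V) : Prop :=
  C ⊆ S ∧ Conn r C ∧ (C ∩ A).Nonempty ∧ (C ∩ B).Nonempty

/-- number of ordered pairs in `S` related by `r` -/
noncomputable def e2 (r : V → V → Prop) (S : Finset V) : ℕ :=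
  ((S ×ˢ S).filter (fun p => r p.1 p.2)).card

theorem e2_lt {r r' : V → V → Prop} {S : Finset V}
    (hm : ∀ u ∈ S, ∀ v ∈ S, r' u v → r u v) {x y : V} (hx : x ∈ S) (hy : y ∈ S)
    (h1 : r x y) (h2 : ¬ r' x y) : e2 r' S < e2 r S := by
  unfold e2
  apply Finset.card_lt_card
  rw [Finset.ssubset_iff_of_subset]
  · refine ⟨(x, y), ?_, ?_⟩
    · rw [Finset.mem_filter, Finset.mem_product]; exact ⟨⟨hx, hy⟩, h1⟩
    · rw [Finset.mem_filter]; exact fun h => h2 h.2
  · intro p hp
    rw [Finset.mem_filter, Finset.mem_product] at hp ⊢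
    exact ⟨hp.1, hm _ hp.1.1 _ hp.1.2 hp.2⟩

/-- Trimmed connectors. -/
theorem trim {r : V → V → Prop} (hs : ∀ u v, r u v → r v u) {S A B C : Finset V}
    (h : Connector r S A B C) :
    ∃ C' ⊆ C, Connector r S A B C' ∧ ∃ a b, C' ∩ A = {a} ∧ C' ∩ B = {b} ∧
      (∀ z ∈ C', z ≠ b → ∃ K ⊆ C', b ∉ K ∧ Conn r K ∧ a ∈ K ∧ z ∈ K) ∧
      (∀ z ∈ C', z ≠ a → ∃ K ⊆ C', a ∉ K ∧ Conn r K ∧ b ∈ K ∧ z ∈ K) := by
  -- choose a connector inside C of minimal cardinality
  have hex : ∃ n, ∃ C' ⊆ C, Connector r S A B C' ∧ C'.card = n := ⟨_, C, Finset.Subset.refl _, h, rfl⟩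
  obtain ⟨C', hC'C, hC', hcard⟩ := Nat.find_spec hex
  have hmin : ∀ D ⊆ C', D ≠ C' → ¬ Connector r S A B D := by
    intro D hD hne hcon
    have hlt : D.card < C'.card := Finset.card_lt_card (lt_of_le_of_ne hD hne)
    have := Nat.find_min hex (m := D.card) (by rw [hcard] at hlt; exact hlt)
    exact this ⟨D, hD.trans hC'C, hcon, rfl⟩
  obtain ⟨hC'S, hC'conn, ⟨a, ha⟩, ⟨b, hb⟩⟩ := hC'
  rw [Finset.mem_inter] at ha hb
  -- general lemma: for a ∈ C' ∩ A and b ∈ C' ∩ B
  have main : ∀ P Q : Finset V, (∀ D ⊆ C', D ≠ C' → ¬ (Conn r D ∧ (D ∩ P).Nonempty ∧ (D ∩ Q).Nonempty)) →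
      ∀ p ∈ C', p ∈ P → ∀ q ∈ C', q ∈ Q → p ≠ q →
      (C' ∩ Q = {q}) ∧ (∀ z ∈ C', z ≠ q → ∃ K ⊆ C', q ∉ K ∧ Conn r K ∧ p ∈ K ∧ z ∈ K) := by
    intro P Q hmin' p hp hpP q hq hqQ hpq
    -- Z = component of p in C' \ {q}
    set S' := C'.erase q with hS'
    have hpS' : p ∈ S' := Finset.mem_erase.mpr ⟨hpq, hp⟩
    set Z := comp r S' p with hZ
    have hZS' : Z ⊆ S' := comp_subset _ _ _
    have hZC' : Z ⊆ C' := hZS'.trans (Finset.erase_subset _ _)
    have hqZ : q ∉ Z := fun hh => (Finset.mem_erase.mp (hZS' hh)).1 rfl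
    have hZc : Conn r Z := comp_conn hpS'
    have hZne : Z ≠ C' := by
      intro hh; exact hqZ (hh ▸ hq)
    obtain ⟨u, hu, v, hv, hvZ, huv⟩ := hC'conn.2 Z hZC' hZc.1 hZne
    have hvq : v = q := by
      by_contra hvq
      exact hvZ (comp_closed hs hpS' hu (Finset.mem_erase.mpr ⟨hvq, hv⟩) huv)
    subst hvq
    have hins : Conn r (insert v Z) := hZc.insert_of_adj ⟨u, hu, huv⟩ ⟨u, hu, hs _ _ huv⟩
    have hinsC : insert v Z ⊆ C' := by
      intro x hx
      rw [Finset.mem_insert] at hx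
      rcases hx with h | h
      · subst h; exact hv
      · exact hZC' h
    have heq : insert v Z = C' := by
      by_contra hne
      apply hmin' _ hinsC hne
      refine ⟨hins, ⟨p, ?_⟩, ⟨v, ?_⟩⟩
      · exact Finset.mem_inter.mpr ⟨Finset.mem_insert_of_mem (mem_comp_self hpS'), hpP⟩
      · exact Finset.mem_inter.mpr ⟨Finset.mem_insert_self _ _, hqQ⟩
    constructor
    · apply Finset.Subset.antisymm
      · intro x hx
        rw [Finset.mem_inter] at hx
        rw [Finset.mem_singleton]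
        by_contra hxv
        have hxZ : x ∈ Z := by
          have := hx.1
          rw [← heq, Finset.mem_insert] at this
          rcases this with h | h
          · exact absurd h hxv
          · exact h
        apply hmin' Z hZC' hZne
        exact ⟨hZc, ⟨p, Finset.mem_inter.mpr ⟨mem_comp_self hpS', hpP⟩⟩,
          ⟨x, Finset.mem_inter.mpr ⟨hxZ, hx.2⟩⟩⟩
      · intro x hx
        rw [Finset.mem_singleton] at hx
        subst hx
        exact Finset.mem_inter.mpr ⟨hv, hqQ⟩
    · intro z hz hzv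
      refine ⟨Z, hZC', hqZ, hZc, mem_comp_self hpS', ?_⟩
      have := hz
      rw [← heq, Finset.mem_insert] at this
      rcases this with h | h
      · exact absurd h hzv
      · exact h
  by_cases hab : ∃ c ∈ C', c ∈ A ∧ c ∈ B
  · obtain ⟨c, hc, hcA, hcB⟩ := hab
    have hC'eq : C' = {c} := by
      by_contra hne
      apply hmin {c} (by simpa using hc) (fun h => hne h.symm)
      refine ⟨by simpa using hC'S hc, Conn.singleton r c, ⟨c, ?_⟩, ⟨c, ?_⟩⟩
      · simp [hcA]
      · simp [hcB]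
    refine ⟨C', hC'C, ⟨hC'S, hC'conn, ⟨a, Finset.mem_inter.mpr ha⟩, ⟨b, Finset.mem_inter.mpr hb⟩⟩,
      c, c, ?_, ?_, ?_, ?_⟩
    · rw [hC'eq]; ext x; simp; intro h; subst h; exact hcA
    · rw [hC'eq]; ext x; simp; intro h; subst h; exact hcB
    · intro z hz hzc; rw [hC'eq, Finset.mem_singleton] at hz; exact absurd hz hzc
    · intro z hz hzc; rw [hC'eq, Finset.mem_singleton] at hz; exact absurd hz hzc
  · push Not at hab
    have hne : a ≠ b := by
      intro h; subst h; exact hab a ha.1 ha.2 hb.2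
    have h1 := main A B (by
      intro D hD hne hcon
      exact hmin D hD hne ⟨hD.trans hC'S, hcon.1, hcon.2.1, hcon.2.2⟩) a ha.1 ha.2 b hb.1 hb.2 hne
    have h2 := main B A (by
      intro D hD hne hcon
      exact hmin D hD hne ⟨hD.trans hC'S, hcon.1, hcon.2.2, hcon.2.1⟩) b hb.1 hb.2 a ha.1 ha.2
      (Ne.symm hne)
    exact ⟨C', hC'C, ⟨hC'S, hC'conn, ⟨a, Finset.mem_inter.mpr ha⟩, ⟨b, Finset.mem_inter.mpr hb⟩⟩,
      a, b, h2.1, h1.1, h1.2, h2.2⟩


theorem exists_fin_inj {Y : Finset V} {k : ℕ} (h : k ≤ Y.card) :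
    ∃ f : Fin k → V, Function.Injective f ∧ ∀ i, f i ∈ Y := by
  obtain ⟨T, hTY, hT⟩ := Finset.exists_subset_card_eq h
  let e := (Finset.equivFinOfCardEq hT).symm
  refine ⟨fun i => (e i : V), ?_, fun i => hTY (e i).2⟩
  intro i j hij
  exact e.injective (Subtype.ext hij)

theorem fin_surj {Y : Finset V} {k : ℕ} (h : Y.card ≤ k) (f : Fin k → V)
    (hf : Function.Injective f) (hfY : ∀ i, f i ∈ Y) : ∀ y ∈ Y, ∃ i, f i = y := by
  have h1 : (Finset.univ.image f) ⊆ Y := by
    intro x hx
    rw [Finset.mem_image] at hx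
    obtain ⟨i, _, rfl⟩ := hx
    exact hfY i
  have h2 : (Finset.univ.image f).card = k := by
    rw [Finset.card_image_of_injective _ hf]; simp
  have h3 := Finset.eq_of_subset_of_card_le h1 (by omega)
  intro y hy
  rw [← h3, Finset.mem_image] at hy
  obtain ⟨i, _, hi⟩ := hy
  exact ⟨i, hi⟩

/-- Menger's theorem. -/
theorem menger0 (n : ℕ) : ∀ (r : V → V → Prop), (∀ u v, r u v → r v u) → (∀ u, ¬ r u u) →
    ∀ (S A B : Finset V), A ⊆ S → B ⊆ S → e2 r S = n → ∀ k : ℕ,
    (∀ Y ⊆ S, (∀ C, Connector r S A B C → (C ∩ Y).Nonempty) → k ≤ Y.card) →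
    ∃ F : Fin k → Finset V, (∀ i, Connector r S A B (F i)) ∧
      ∀ i j, i ≠ j → Disjoint (F i) (F j) := by
  induction n using Nat.strong_induction_on with
  | _ n IH =>
  intro r hs hirr S A B hA hB hn k hsep
  by_cases hedge : ∃ x ∈ S, ∃ y ∈ S, r x y
  · obtain ⟨x0, hx0, y0, hy0, hxy0⟩ := hedge
    have hne0 : x0 ≠ y0 := fun h => hirr y0 (h ▸ hxy0)
    -- delete the edge
    set r' : V → V → Prop := fun u v => r u v ∧ ¬((u = x0 ∧ v = y0) ∨ (u = y0 ∧ v = x0)) with hr'
    have hs' : ∀ u v, r' u v → r' v u := by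
      intro u v h
      refine ⟨hs _ _ h.1, ?_⟩
      rintro (⟨h1, h2⟩ | ⟨h1, h2⟩)
      · exact h.2 (Or.inr ⟨h2, h1⟩)
      · exact h.2 (Or.inl ⟨h2, h1⟩)
    have hirr' : ∀ u, ¬ r' u u := fun u h => hirr u h.1
    have hmono : ∀ u v, r' u v → r u v := fun u v h => h.1
    have hlt : e2 r' S < n := by
      rw [← hn]
      exact e2_lt (fun u _ v _ h => hmono u v h) hx0 hy0 hxy0 (fun h => h.2 (Or.inl ⟨rfl, rfl⟩))
    by_cases hall : ∀ Y ⊆ S, (∀ C, Connector r' S A B C → (C ∩ Y).Nonempty) → k ≤ Y.card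
    · obtain ⟨F, hF, hd⟩ := IH _ hlt r' hs' hirr' S A B hA hB rfl k hall
      exact ⟨F, fun i => ⟨(hF i).1, (hF i).2.1.mono hmono, (hF i).2.2⟩, hd⟩
    · push Not at hall
      obtain ⟨Y, hYS, hY, hYk⟩ := hall
      -- Y is not a separator for r
      have hnot : ∃ C, Connector r S A B C ∧ ¬ (C ∩ Y).Nonempty := by
        by_contra hcon
        push Not at hcon
        have := hsep Y hYS hcon
        omega
      obtain ⟨C0, hC0, hC0Y⟩ := hnot
      have hC0Y' : ∀ z ∈ C0, z ∉ Y := by
        intro z hz hzY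
        exact hC0Y ⟨z, Finset.mem_inter.mpr ⟨hz, hzY⟩⟩
      obtain ⟨hC0S, hC0c, ⟨a0, ha0⟩, ⟨b0, hb0⟩⟩ := hC0
      rw [Finset.mem_inter] at ha0 hb0
      -- no r'-connected set avoiding Y meets both A and B
      have hnoconn : ∀ K : Finset V, K ⊆ S → Conn r' K → (∀ z ∈ K, z ∉ Y) →
          ∀ a ∈ K, a ∈ A → ∀ b ∈ K, b ∈ B → False := by
        intro K hKS hKc hKY a ha haA b hb hbB
        obtain ⟨z, hz⟩ := hY K ⟨hKS, hKc, ⟨a, Finset.mem_inter.mpr ⟨ha, haA⟩⟩,
          ⟨b, Finset.mem_inter.mpr ⟨hb, hbB⟩⟩⟩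
        rw [Finset.mem_inter] at hz
        exact hKY z hz.1 hz.2
      set Z0 := comp r' C0 a0 with hZ0
      set Z1 := comp r' C0 b0 with hZ1
      have hZ0C : Z0 ⊆ C0 := comp_subset _ _ _
      have hZ1C : Z1 ⊆ C0 := comp_subset _ _ _
      have hZ0c : Conn r' Z0 := comp_conn ha0.1
      have hZ1c : Conn r' Z1 := comp_conn hb0.1
      have ha0Z : a0 ∈ Z0 := mem_comp_self ha0.1
      have hb0Z : b0 ∈ Z1 := mem_comp_self hb0.1
      have hdisj01 : ∀ z, z ∈ Z0 → z ∈ Z1 → False := by
        intro z h0 h1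
        apply hnoconn (Z0 ∪ Z1) ((Finset.union_subset hZ0C hZ1C).trans hC0S)
          (hZ0c.union hZ1c ⟨z, Finset.mem_inter.mpr ⟨h0, h1⟩⟩) ?_ a0
          (Finset.mem_union_left _ ha0Z) ha0.2 b0 (Finset.mem_union_right _ hb0Z) hb0.2
        intro z hz
        rw [Finset.mem_union] at hz
        rcases hz with h | h
        · exact hC0Y' z (hZ0C h)
        · exact hC0Y' z (hZ1C h)
      have hexit : ∀ Z : Finset V, Z ⊆ C0 → Z.Nonempty → Z ≠ C0 →
          (∀ u ∈ Z, ∀ v ∈ C0, r' u v → v ∈ Z) →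
          (x0 ∈ Z ∧ y0 ∈ C0 ∧ y0 ∉ Z) ∨ (y0 ∈ Z ∧ x0 ∈ C0 ∧ x0 ∉ Z) := by
        intro Z hZ hZn hZne hcl
        obtain ⟨u, hu, v, hv, hvZ, huv⟩ := hC0c.2 Z hZ hZn hZne
        by_cases hh : (u = x0 ∧ v = y0) ∨ (u = y0 ∧ v = x0)
        · rcases hh with ⟨h1, h2⟩ | ⟨h1, h2⟩
          · subst h1; subst h2; exact Or.inl ⟨hu, hv, hvZ⟩
          · subst h1; subst h2; exact Or.inr ⟨hu, hv, hvZ⟩
        · exact absurd (hcl u hu v hv ⟨huv, hh⟩) hvZ
      have hZ0cl : ∀ u ∈ Z0, ∀ v ∈ C0, r' u v → v ∈ Z0 :=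
        fun u hu v hv huv => comp_closed hs' ha0.1 hu hv huv
      have hZ1cl : ∀ u ∈ Z1, ∀ v ∈ C0, r' u v → v ∈ Z1 :=
        fun u hu v hv huv => comp_closed hs' hb0.1 hu hv huv
      have hZ0ne : Z0 ≠ C0 := by
        intro h; exact hdisj01 b0 (h ▸ hb0.1) hb0Z
      have hZ1ne : Z1 ≠ C0 := by
        intro h; exact hdisj01 a0 ha0Z (h ▸ ha0.1)
      -- obtain the orientation of the deleted edge
      have hxy : ∃ x y, x ∈ Z0 ∧ y ∈ Z1 ∧ ((x = x0 ∧ y = y0) ∨ (x = y0 ∧ y = x0)) := by
        rcases hexit Z0 hZ0C hZ0c.1 hZ0ne hZ0cl with ⟨h1, h2, h3⟩ | ⟨h1, h2, h3⟩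
        · rcases hexit Z1 hZ1C hZ1c.1 hZ1ne hZ1cl with ⟨g1, g2, g3⟩ | ⟨g1, g2, g3⟩
          · exact absurd g1 (fun g => hdisj01 _ h1 g)
          · exact ⟨x0, y0, h1, g1, Or.inl ⟨rfl, rfl⟩⟩
        · rcases hexit Z1 hZ1C hZ1c.1 hZ1ne hZ1cl with ⟨g1, g2, g3⟩ | ⟨g1, g2, g3⟩
          · exact ⟨y0, x0, h1, g1, Or.inr ⟨rfl, rfl⟩⟩
          · exact absurd g1 (fun g => hdisj01 _ h1 g)
      obtain ⟨x, y, hxZ, hyZ, hxyor⟩ := hxy
      have hrxy : r x y := by
        rcases hxyor with ⟨h1, h2⟩ | ⟨h1, h2⟩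
        · subst h1; subst h2; exact hxy0
        · subst h1; subst h2; exact hs _ _ hxy0
      have hr'iff : ∀ u v, r u v → ¬ r' u v → (u = x ∨ u = y) := by
        intro u v h1 h2
        have : (u = x0 ∧ v = y0) ∨ (u = y0 ∧ v = x0) := by
          by_contra hcon; exact h2 ⟨h1, hcon⟩
        rcases this with ⟨g1, _⟩ | ⟨g1, _⟩ <;> rcases hxyor with ⟨k1, k2⟩ | ⟨k1, k2⟩
        · left; rw [g1, k1]
        · right; rw [g1, k2]
        · right; rw [g1, k2]
        · left; rw [g1, k1]
      have hxC : x ∈ C0 := hZ0C hxZ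
      have hyC : y ∈ C0 := hZ1C hyZ
      have hxY : x ∉ Y := hC0Y' x hxC
      have hyY : y ∉ Y := hC0Y' y hyC
      have hxyne : x ≠ y := fun h => hdisj01 x hxZ (h ▸ hyZ)
      -- the two separators
      have hcompclosed : ∀ C : Finset V, Conn r C → ∀ a ∈ C, x ∉ comp r' C a → y ∉ comp r' C a →
          comp r' C a = C := by
        intro C hC a ha h1 h2
        apply Conn.eq_of_closed hC (comp_subset _ _ _) ⟨a, mem_comp_self ha⟩
        intro u hu v hv huv
        by_cases h : r' u v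
        · exact comp_closed hs' ha hu hv h
        · rcases hr'iff u v huv h with g | g
          · subst g; exact absurd hu h1
          · subst g; exact absurd hu h2
      have hsepX : ∀ w, w = x ∨ w = y → ∀ C, Connector r S A B C → (C ∩ insert w Y).Nonempty := by
        intro w hw C hC
        by_contra hcon
        have hCw : w ∉ C := fun h => hcon ⟨w, Finset.mem_inter.mpr ⟨h, Finset.mem_insert_self _ _⟩⟩
        have hCY : ∀ z ∈ C, z ∉ Y := fun z hz hzY =>
          hcon ⟨z, Finset.mem_inter.mpr ⟨hz, Finset.mem_insert_of_mem hzY⟩⟩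
        obtain ⟨hCS, hCc, ⟨a, ha⟩, ⟨b, hb⟩⟩ := hC
        rw [Finset.mem_inter] at ha hb
        apply hnoconn C hCS ?_ hCY a ha.1 ha.2 b hb.1 hb.2
        apply hCc.mono_on
        intro u hu v hv huv
        refine ⟨huv, ?_⟩
        rintro (⟨h1, h2⟩ | ⟨h1, h2⟩) <;> rcases hxyor with ⟨k1, k2⟩ | ⟨k1, k2⟩ <;>
          rcases hw with hw | hw <;> subst hw <;> subst h1 <;> subst h2 <;> first
            | (subst k1; exact hCw hu)
            | (subst k1; exact hCw hv)
            | (subst k2; exact hCw hu)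
            | (subst k2; exact hCw hv)
      have hxS : x ∈ S := hC0S hxC
      have hyS : y ∈ S := hC0S hyC
      have hX1S : insert x Y ⊆ S := by
        intro z hz; rw [Finset.mem_insert] at hz
        rcases hz with h | h
        · subst h; exact hxS
        · exact hYS h
      have hX2S : insert y Y ⊆ S := by
        intro z hz; rw [Finset.mem_insert] at hz
        rcases hz with h | h
        · subst h; exact hyS
        · exact hYS h
      have hX1card : (insert x Y).card = k := by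
        have h1 := hsep _ hX1S (hsepX x (Or.inl rfl))
        have h2 := Finset.card_insert_of_notMem hxY
        omega
      have hX2card : (insert y Y).card = k := by
        have h1 := hsep _ hX2S (hsepX y (Or.inr rfl))
        have h2 := Finset.card_insert_of_notMem hyY
        omega
      -- families on both sides
      have hside1 : ∀ T ⊆ S, (∀ C, Connector r' S A (insert x Y) C → (C ∩ T).Nonempty) →
          k ≤ T.card := by
        intro T hTS hT
        apply hsep T hTS
        intro C hC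
        by_contra hcon
        have hCT : ∀ z ∈ C, z ∉ T := fun z hz hzY => hcon ⟨z, Finset.mem_inter.mpr ⟨hz, hzY⟩⟩
        obtain ⟨hCS, hCc, ⟨a, ha⟩, ⟨b, hb⟩⟩ := hC
        rw [Finset.mem_inter] at ha hb
        set Z := comp r' C a with hZ
        have hZC : Z ⊆ C := comp_subset _ _ _
        have hZc : Conn r' Z := comp_conn ha.1
        have haZ : a ∈ Z := mem_comp_self ha.1
        have hZX : ∀ z ∈ Z, z ∉ insert x Y := by
          intro z hz hzX
          obtain ⟨t, ht⟩ := hT Z ⟨hZC.trans hCS, hZc, ⟨a, Finset.mem_inter.mpr ⟨haZ, ha.2⟩⟩,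
            ⟨z, Finset.mem_inter.mpr ⟨hz, hzX⟩⟩⟩
          rw [Finset.mem_inter] at ht
          exact hCT t (hZC ht.1) ht.2
        have hZY : ∀ z ∈ Z, z ∉ Y := fun z hz h => hZX z hz (Finset.mem_insert_of_mem h)
        have hxZ' : x ∉ Z := fun h => hZX x h (Finset.mem_insert_self _ _)
        have hyZ' : y ∉ Z := by
          intro h
          apply hnoconn (Z ∪ Z1) (Finset.union_subset (hZC.trans hCS) (hZ1C.trans hC0S))
            (hZc.union hZ1c ⟨y, Finset.mem_inter.mpr ⟨h, hyZ⟩⟩) ?_ a (Finset.mem_union_left _ haZ)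
            ha.2 b0 (Finset.mem_union_right _ hb0Z) hb0.2
          intro z hz
          rw [Finset.mem_union] at hz
          rcases hz with h | h
          · exact hZY z h
          · exact hC0Y' z (hZ1C h)
        have heq : Z = C := hcompclosed C hCc a ha.1 hxZ' hyZ'
        exact hnoconn Z (hZC.trans hCS) hZc hZY a haZ ha.2 b (heq ▸ hb.1) hb.2
      have hside2 : ∀ T ⊆ S, (∀ C, Connector r' S (insert y Y) B C → (C ∩ T).Nonempty) →
          k ≤ T.card := by
        intro T hTS hT
        apply hsep T hTS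
        intro C hC
        by_contra hcon
        have hCT : ∀ z ∈ C, z ∉ T := fun z hz hzY => hcon ⟨z, Finset.mem_inter.mpr ⟨hz, hzY⟩⟩
        obtain ⟨hCS, hCc, ⟨a, ha⟩, ⟨b, hb⟩⟩ := hC
        rw [Finset.mem_inter] at ha hb
        set Z := comp r' C b with hZ
        have hZC : Z ⊆ C := comp_subset _ _ _
        have hZc : Conn r' Z := comp_conn hb.1
        have hbZ : b ∈ Z := mem_comp_self hb.1
        have hZX : ∀ z ∈ Z, z ∉ insert y Y := by
          intro z hz hzX
          obtain ⟨t, ht⟩ := hT Z ⟨hZC.trans hCS, hZc,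
            ⟨z, Finset.mem_inter.mpr ⟨hz, hzX⟩⟩, ⟨b, Finset.mem_inter.mpr ⟨hbZ, hb.2⟩⟩⟩
          rw [Finset.mem_inter] at ht
          exact hCT t (hZC ht.1) ht.2
        have hZY : ∀ z ∈ Z, z ∉ Y := fun z hz h => hZX z hz (Finset.mem_insert_of_mem h)
        have hyZ' : y ∉ Z := fun h => hZX y h (Finset.mem_insert_self _ _)
        have hxZ' : x ∉ Z := by
          intro h
          apply hnoconn (Z ∪ Z0) (Finset.union_subset (hZC.trans hCS) (hZ0C.trans hC0S))
            (hZc.union hZ0c ⟨x, Finset.mem_inter.mpr ⟨h, hxZ⟩⟩) ?_ a0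
            (Finset.mem_union_right _ ha0Z) ha0.2 b (Finset.mem_union_left _ hbZ) hb.2
          intro z hz
          rw [Finset.mem_union] at hz
          rcases hz with h | h
          · exact hZY z h
          · exact hC0Y' z (hZ0C h)
        have heq : Z = C := hcompclosed C hCc b hb.1 hxZ' hyZ'
        exact hnoconn Z (hZC.trans hCS) hZc hZY a (heq ▸ ha.1) ha.2 b hbZ hb.2
      obtain ⟨F1, hF1, hd1⟩ := IH _ hlt r' hs' hirr' S A (insert x Y) hA hX1S rfl k hside1
      obtain ⟨F2, hF2, hd2⟩ := IH _ hlt r' hs' hirr' S (insert y Y) B hX2S hB rfl k hside2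
      choose G1 hG1sub hG1con a1 u1 ha1 hu1 hG1a hG1b using fun i => trim hs' (hF1 i)
      choose G2 hG2sub hG2con w2 b2 hw2 hb2 hG2a hG2b using fun i => trim hs' (hF2 i)
      have hu1mem : ∀ i, u1 i ∈ G1 i ∧ u1 i ∈ insert x Y := by
        intro i
        have : u1 i ∈ G1 i ∩ insert x Y := by rw [hu1 i]; simp
        exact Finset.mem_inter.mp this
      have ha1mem : ∀ i, a1 i ∈ G1 i ∧ a1 i ∈ A := by
        intro i
        have : a1 i ∈ G1 i ∩ A := by rw [ha1 i]; simp
        exact Finset.mem_inter.mp this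
      have hw2mem : ∀ i, w2 i ∈ G2 i ∧ w2 i ∈ insert y Y := by
        intro i
        have : w2 i ∈ G2 i ∩ insert y Y := by rw [hw2 i]; simp
        exact Finset.mem_inter.mp this
      have hb2mem : ∀ i, b2 i ∈ G2 i ∧ b2 i ∈ B := by
        intro i
        have : b2 i ∈ G2 i ∩ B := by rw [hb2 i]; simp
        exact Finset.mem_inter.mp this
      have hG1d : ∀ i j, i ≠ j → ∀ z, z ∈ G1 i → z ∈ G1 j → False := by
        intro i j hij z h1 h2
        exact Finset.disjoint_left.mp (hd1 i j hij) (hG1sub i h1) (hG1sub j h2)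
      have hG2d : ∀ i j, i ≠ j → ∀ z, z ∈ G2 i → z ∈ G2 j → False := by
        intro i j hij z h1 h2
        exact Finset.disjoint_left.mp (hd2 i j hij) (hG2sub i h1) (hG2sub j h2)
      have hu1inj : Function.Injective u1 := by
        intro i j hij
        by_contra hne
        exact hG1d i j hne (u1 i) (hu1mem i).1 (hij ▸ (hu1mem j).1)
      have hw2inj : Function.Injective w2 := by
        intro i j hij
        by_contra hne
        exact hG2d i j hne (w2 i) (hw2mem i).1 (hij ▸ (hw2mem j).1)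
      have hw2surj := fin_surj (le_of_eq hX2card) w2 hw2inj (fun i => (hw2mem i).2)
      -- targets
      have htarget : ∀ i, ∃ j, (u1 i = x ∧ w2 j = y) ∨ (u1 i ∈ Y ∧ w2 j = u1 i) := by
        intro i
        have := (hu1mem i).2
        rw [Finset.mem_insert] at this
        rcases this with h | h
        · obtain ⟨j, hj⟩ := hw2surj y (Finset.mem_insert_self _ _)
          exact ⟨j, Or.inl ⟨h, hj⟩⟩
        · obtain ⟨j, hj⟩ := hw2surj (u1 i) (Finset.mem_insert_of_mem h)
          exact ⟨j, Or.inr ⟨h, hj⟩⟩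
      choose jj hjj using htarget
      have hjjinj : ∀ i i', i ≠ i' → jj i ≠ jj i' := by
        intro i i' hne h
        rcases hjj i with ⟨h1, h2⟩ | ⟨h1, h2⟩ <;> rcases hjj i' with ⟨g1, g2⟩ | ⟨g1, g2⟩
        · exact hne (hu1inj (h1.trans g1.symm))
        · rw [h, g2] at h2; rw [h2] at g1; exact hyY g1
        · rw [h, g2] at h2; rw [← h2] at h1; exact hyY h1
        · rw [h, g2] at h2; exact hne (hu1inj h2.symm)
      have hkey : ∀ i j z, z ∈ G1 i → z ∈ G2 j → z ∈ Y := by
        intro i j z hz1 hz2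
        by_contra hzY
        have hK1 : ∃ K ⊆ S, Conn r' K ∧ (∀ t ∈ K, t ∉ Y) ∧ a1 i ∈ K ∧ z ∈ K := by
          by_cases hzu : z = u1 i
          · -- then u1 i ∉ Y so G1 i avoids Y
            refine ⟨G1 i, (hG1con i).1, (hG1con i).2.1, ?_, (ha1mem i).1, hz1⟩
            intro t ht htY
            have : t ∈ G1 i ∩ insert x Y :=
              Finset.mem_inter.mpr ⟨ht, Finset.mem_insert_of_mem htY⟩
            rw [hu1 i, Finset.mem_singleton] at this
            subst this
            exact hzY (hzu ▸ htY)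
          · obtain ⟨K, hK, huK, hKc, haK, hzK⟩ := hG1a i z hz1 hzu
            refine ⟨K, hK.trans (hG1con i).1, hKc, ?_, haK, hzK⟩
            intro t ht htY
            have : t ∈ G1 i ∩ insert x Y :=
              Finset.mem_inter.mpr ⟨hK ht, Finset.mem_insert_of_mem htY⟩
            rw [hu1 i, Finset.mem_singleton] at this
            subst this
            exact huK ht
        have hK2 : ∃ K ⊆ S, Conn r' K ∧ (∀ t ∈ K, t ∉ Y) ∧ b2 j ∈ K ∧ z ∈ K := by
          by_cases hzu : z = w2 j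
          · refine ⟨G2 j, (hG2con j).1, (hG2con j).2.1, ?_, (hb2mem j).1, hz2⟩
            intro t ht htY
            have : t ∈ G2 j ∩ insert y Y :=
              Finset.mem_inter.mpr ⟨ht, Finset.mem_insert_of_mem htY⟩
            rw [hw2 j, Finset.mem_singleton] at this
            subst this
            exact hzY (hzu ▸ htY)
          · obtain ⟨K, hK, huK, hKc, haK, hzK⟩ := hG2b j z hz2 hzu
            refine ⟨K, hK.trans (hG2con j).1, hKc, ?_, haK, hzK⟩
            intro t ht htY
            have : t ∈ G2 j ∩ insert y Y :=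
              Finset.mem_inter.mpr ⟨hK ht, Finset.mem_insert_of_mem htY⟩
            rw [hw2 j, Finset.mem_singleton] at this
            subst this
            exact huK ht
        obtain ⟨K1, hK1S, hK1c, hK1Y, haK1, hzK1⟩ := hK1
        obtain ⟨K2, hK2S, hK2c, hK2Y, hbK2, hzK2⟩ := hK2
        apply hnoconn (K1 ∪ K2) (Finset.union_subset hK1S hK2S)
          (hK1c.union hK2c ⟨z, Finset.mem_inter.mpr ⟨hzK1, hzK2⟩⟩) ?_ (a1 i)
          (Finset.mem_union_left _ haK1) (ha1mem i).2 (b2 j) (Finset.mem_union_right _ hbK2)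
          (hb2mem j).2
        intro t ht
        rw [Finset.mem_union] at ht
        rcases ht with h | h
        · exact hK1Y t h
        · exact hK2Y t h
      have hcross : ∀ i i', i ≠ i' → ∀ z, z ∈ G1 i → z ∈ G2 (jj i') → False := by
        intro i i' hne z hz1 hz2
        have hzY := hkey i (jj i') z hz1 hz2
        have h1 : z = u1 i := by
          have : z ∈ G1 i ∩ insert x Y :=
            Finset.mem_inter.mpr ⟨hz1, Finset.mem_insert_of_mem hzY⟩
          rwa [hu1 i, Finset.mem_singleton] at this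
        have h2 : z = w2 (jj i') := by
          have : z ∈ G2 (jj i') ∩ insert y Y :=
            Finset.mem_inter.mpr ⟨hz2, Finset.mem_insert_of_mem hzY⟩
          rwa [hw2, Finset.mem_singleton] at this
        rcases hjj i' with ⟨g1, g2⟩ | ⟨g1, g2⟩
        · rw [h2, g2] at hzY; exact hyY hzY
        · rw [g2, h1] at h2; exact hne (hu1inj h2)
      refine ⟨fun i => G1 i ∪ G2 (jj i), ?_, ?_⟩
      · intro i
        refine ⟨Finset.union_subset (hG1con i).1 (hG2con (jj i)).1, ?_, ?_, ?_⟩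
        · have c1 : Conn r (G1 i) := (hG1con i).2.1.mono hmono
          have c2 : Conn r (G2 (jj i)) := (hG2con (jj i)).2.1.mono hmono
          rcases hjj i with ⟨g1, g2⟩ | ⟨g1, g2⟩
          · apply c1.union_of_adj c2
            · exact ⟨u1 i, (hu1mem i).1, w2 (jj i), (hw2mem _).1, by rw [g1, g2]; exact hrxy⟩
            · exact ⟨w2 (jj i), (hw2mem _).1, u1 i, (hu1mem i).1,
                by rw [g1, g2]; exact hs _ _ hrxy⟩
          · apply c1.union c2
            refine ⟨u1 i, Finset.mem_inter.mpr ⟨(hu1mem i).1, ?_⟩⟩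
            rw [← g2]; exact (hw2mem _).1
        · exact ⟨a1 i, Finset.mem_inter.mpr
            ⟨Finset.mem_union_left _ (ha1mem i).1, (ha1mem i).2⟩⟩
        · exact ⟨b2 (jj i), Finset.mem_inter.mpr
            ⟨Finset.mem_union_right _ (hb2mem _).1, (hb2mem _).2⟩⟩
      · intro i i' hne
        rw [Finset.disjoint_left]
        intro z hz1 hz2
        simp only [Finset.mem_union] at hz1 hz2
        rcases hz1 with h1 | h1 <;> rcases hz2 with h2 | h2
        · exact hG1d i i' hne z h1 h2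
        · exact hcross i i' hne z h1 h2
        · exact hcross i' i (Ne.symm hne) z h2 h1
        · exact hG2d _ _ (hjjinj i i' hne) z h1 h2
  · -- no edges
    push Not at hedge
    have hsing : ∀ C, Connector r S A B C → ∃ c ∈ A ∩ B, C = {c} := by
      intro C hC
      obtain ⟨hCS, hCc, ⟨a, ha⟩, ⟨b, hb⟩⟩ := hC
      rw [Finset.mem_inter] at ha hb
      have heq : {a} = C := by
        apply Conn.eq_of_closed hCc (by simpa using ha.1) ⟨a, by simp⟩
        intro u hu v hv huv
        rw [Finset.mem_singleton] at hu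
        subst hu
        exact absurd huv (hedge _ (hCS ha.1) _ (hCS hv))
      have hab : b = a := by
        have := hb.1
        rw [← heq, Finset.mem_singleton] at this
        exact this
      subst hab
      exact ⟨b, Finset.mem_inter.mpr ⟨ha.2, hb.2⟩, heq.symm⟩
    have hk : k ≤ (A ∩ B).card := by
      apply hsep _ (Finset.inter_subset_left.trans hA)
      intro C hC
      obtain ⟨c, hc, rfl⟩ := hsing C hC
      exact ⟨c, Finset.mem_inter.mpr ⟨by simp, hc⟩⟩
    obtain ⟨f, hf, hfY⟩ := exists_fin_inj hk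
    refine ⟨fun i => {f i}, ?_, ?_⟩
    · intro i
      have hi := Finset.mem_inter.mp (hfY i)
      refine ⟨by simpa using hA hi.1, Conn.singleton r _, ⟨f i, ?_⟩, ⟨f i, ?_⟩⟩
      · simp [hi.1]
      · simp [hi.2]
    · intro i j hij
      rw [Finset.disjoint_left]
      intro z h1 h2
      rw [Finset.mem_singleton] at h1 h2
      exact hij (hf (h1.symm.trans h2))

/-- `(A, B)` is a separation of the graph `(r, S)`. -/
def Sep (r : V → V → Prop) (S A B : Finset V) : Prop :=
  A ∪ B = S ∧ ∀ a ∈ A, a ∉ B → ∀ b ∈ B, b ∉ A → ¬ r a b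

/-- Menger's theorem in the form used: if every separation with `P` on the left and `Q` on the
right has order at least `|P|`, then `P` is linked into `Q`. -/
theorem menger {r : V → V → Prop} (hs : ∀ u v, r u v → r v u) (hirr : ∀ u, ¬ r u u)
    {S P Q : Finset V} (hP : P ⊆ S) (hQ : Q ⊆ S)
    (hsep : ∀ A B, Sep r S A B → P ⊆ A → Q ⊆ B → P.card ≤ (A ∩ B).card) :
    ∃ F : V → Finset V, (∀ x ∈ P, x ∈ F x ∧ F x ⊆ S ∧ Conn r (F x) ∧ ∃ q, F x ∩ Q = {q}) ∧
      ∀ x ∈ P, ∀ y ∈ P, x ≠ y → Disjoint (F x) (F y) := by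
  have h0 : ∀ Y ⊆ S, (∀ C, Connector r S P Q C → (C ∩ Y).Nonempty) → P.card ≤ Y.card := by
    intro Y hYS hY
    -- reachable part
    set Rr := (S \ Y).filter (fun z => ∃ C ⊆ S \ Y, Conn r C ∧ (C ∩ P).Nonempty ∧ z ∈ C) with hRr
    set A := Y ∪ Rr with hA
    set B := Y ∪ ((S \ Y) \ Rr) with hB
    have hRrS : Rr ⊆ S \ Y := Finset.filter_subset _ _
    have hAB : A ∩ B = Y := by
      ext z
      simp only [hA, hB, Finset.mem_inter, Finset.mem_union, Finset.mem_sdiff]
      constructor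
      · rintro ⟨h1 | h1, h2 | h2⟩
        · exact h1
        · exact h1
        · exact h2
        · exact absurd h1 h2.2
      · intro h; exact ⟨Or.inl h, Or.inl h⟩
    have hSep : Sep r S A B := by
      refine ⟨?_, ?_⟩
      · ext z
        simp only [hA, hB, Finset.mem_union, Finset.mem_sdiff]
        constructor
        · rintro ((h | h) | (h | h))
          · exact hYS h
          · exact (Finset.mem_sdiff.mp (hRrS h)).1
          · exact hYS h
          · exact h.1.1
        · intro h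
          by_cases hzY : z ∈ Y
          · left; left; exact hzY
          · by_cases hzR : z ∈ Rr
            · left; right; exact hzR
            · right; right; exact ⟨⟨h, hzY⟩, hzR⟩
      · intro a ha haB b hb hbA hab
        have haY : a ∉ Y := fun h => haB (Finset.mem_union_left _ h)
        have haR : a ∈ Rr := by
          rcases Finset.mem_union.mp ha with h | h
          · exact absurd h haY
          · exact h
        have hbY : b ∉ Y := fun h => hbA (Finset.mem_union_left _ h)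
        have hbS : b ∈ (S \ Y) \ Rr := by
          rcases Finset.mem_union.mp hb with h | h
          · exact absurd h hbY
          · exact h
        rw [Finset.mem_sdiff] at hbS
        apply hbS.2
        rw [hRr, Finset.mem_filter] at haR ⊢
        obtain ⟨haS, C, hCS, hCc, hCP, haC⟩ := haR
        refine ⟨hbS.1, insert b C, ?_, hCc.insert_of_adj ⟨a, haC, hab⟩ ⟨a, haC, hs _ _ hab⟩, ?_,
          Finset.mem_insert_self _ _⟩
        · intro z hz
          rw [Finset.mem_insert] at hz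
          rcases hz with h | h
          · subst h; exact hbS.1
          · exact hCS h
        · obtain ⟨p, hp⟩ := hCP
          rw [Finset.mem_inter] at hp
          exact ⟨p, Finset.mem_inter.mpr ⟨Finset.mem_insert_of_mem hp.1, hp.2⟩⟩
    rw [← hAB]
    apply hsep A B hSep
    · intro p hp
      by_cases hpY : p ∈ Y
      · exact Finset.mem_union_left _ hpY
      · apply Finset.mem_union_right
        rw [hRr, Finset.mem_filter]
        have hpS : p ∈ S \ Y := Finset.mem_sdiff.mpr ⟨hP hp, hpY⟩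
        exact ⟨hpS, {p}, by simpa using hpS, Conn.singleton r p, ⟨p, by simp [hp]⟩, by simp⟩
    · intro q hq
      by_cases hqY : q ∈ Y
      · exact Finset.mem_union_left _ hqY
      · apply Finset.mem_union_right
        have hqS : q ∈ S \ Y := Finset.mem_sdiff.mpr ⟨hQ hq, hqY⟩
        rw [Finset.mem_sdiff]
        refine ⟨hqS, ?_⟩
        intro hqR
        rw [hRr, Finset.mem_filter] at hqR
        obtain ⟨_, C, hCS, hCc, hCP, hqC⟩ := hqR
        obtain ⟨z, hz⟩ := hY C ⟨hCS.trans Finset.sdiff_subset, hCc, hCP,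
          ⟨q, Finset.mem_inter.mpr ⟨hqC, hq⟩⟩⟩
        rw [Finset.mem_inter] at hz
        exact (Finset.mem_sdiff.mp (hCS hz.1)).2 hz.2
  obtain ⟨F, hF, hd⟩ := menger0 _ r hs hirr S P Q hP hQ rfl P.card h0
  choose G hGsub hGcon a b ha hb _ _ using fun i => trim hs (hF i)
  have hamem : ∀ i, a i ∈ G i ∧ a i ∈ P := by
    intro i
    have : a i ∈ G i ∩ P := by rw [ha i]; simp
    exact Finset.mem_inter.mp this
  have hGd : ∀ i j, i ≠ j → ∀ z, z ∈ G i → z ∈ G j → False := by
    intro i j hij z h1 h2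
    exact Finset.disjoint_left.mp (hd i j hij) (hGsub i h1) (hGsub j h2)
  have hainj : Function.Injective a := by
    intro i j hij
    by_contra hne
    exact hGd i j hne (a i) (hamem i).1 (hij ▸ (hamem j).1)
  have hasurj := fin_surj (le_refl P.card) a hainj (fun i => (hamem i).2)
  choose ii hii using hasurj
  refine ⟨fun x => if hx : x ∈ P then G (ii x hx) else ∅, ?_, ?_⟩
  · intro x hx
    simp only [hx, dif_pos]
    refine ⟨?_, (hGcon _).1, (hGcon _).2.1, b (ii x hx), hb _⟩
    have := (hamem (ii x hx)).1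
    rwa [hii x hx] at this
  · intro x hx y hy hxy
    simp only [hx, hy, dif_pos]
    rw [Finset.disjoint_left]
    intro z h1 h2
    refine hGd (ii x hx) (ii y hy) ?_ z h1 h2
    intro h
    apply hxy
    rw [← hii x hx, ← hii y hy, h]

end Pool.Agent.Mader
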