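import Pool.Agent.Mader.Sub

/-! A bipartite graph of large average degree contains a model of a prescribed pattern:
branch vertices on one side, and disjoint connected sets realising the edges. -/

open Classical

namespace Pool.Agent.Mader

universe u

variable {W : Type u}

theorem model {n : ℕ} {ι : Type*} [Fintype ι] (tl hd : ι → Fin n) {M : ℕ}
    (hM : Fintype.card ι + n ≤ M) (hM1 : 1 ≤ M) {r : W → W → Prop}
    (hs : ∀ u v, r u v → r v u) (hirr : ∀ u, ¬ r u u) {S : Finset W} (hne : S.Nonempty)
    (hE : 2 * (70 * M + 1) * S.card ≤ e2 r S) (R : W → Prop)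
    (hbip : ∀ u v, r u v → (R u ↔ ¬ R v)) :
    ∃ (v : Fin n → W) (C : ι → Finset W), Function.Injective v ∧ (∀ i, R (v i) ∧ v i ∈ S) ∧
      (∀ e, C e ⊆ S ∧ Conn r (C e) ∧ (∃ x ∈ C e, r (v (tl e)) x) ∧ (∃ y ∈ C e, r (v (hd e)) y) ∧
        ∀ i, v i ∉ C e) ∧
      ∀ e e', e ≠ e' → Disjoint (C e) (C e') := by
  obtain ⟨T, hTS, hTne, hTsep, hTdeg, hTe⟩ := mader_sub (k := 2 * M) (g := 70 * M + 1)
    (by omega) (by omega) hs hne hE
  -- a vertex outside R
  have hw0 : ∃ w ∈ T, ¬ R w := by
    obtain ⟨z, hz⟩ := hTne
    by_cases hR : R z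
    · have h1 := hTdeg z hz
      have h2 : (T.filter (fun u => r z u)).Nonempty := by
        rw [← Finset.card_pos]; unfold deg at h1; omega
      obtain ⟨w, hw⟩ := h2
      rw [Finset.mem_filter] at hw
      exact ⟨w, hw.1, (hbip z w hw.2).mp hR⟩
    · exact ⟨z, hz, hR⟩
  obtain ⟨w0, hw0T, hw0R⟩ := hw0
  have hn : n ≤ (T.filter (fun u => r w0 u)).card := by
    have h1 := hTdeg w0 hw0T
    unfold deg at h1; omega
  obtain ⟨v, hvinj, hv⟩ := exists_fin_inj hn
  have hv' : ∀ i, v i ∈ T ∧ R (v i) := by
    intro i
    have := hv i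
    rw [Finset.mem_filter] at this
    exact ⟨this.1, by
      by_contra h
      exact hw0R ((hbip w0 (v i) this.2).mpr h)⟩
  -- distinct neighbours
  set t : ι × Bool → Finset W := fun p =>
    T.filter (fun u => r (v (if p.2 then tl p.1 else hd p.1)) u) with ht
  have hcardιB : Fintype.card (ι × Bool) = 2 * Fintype.card ι := by
    rw [Fintype.card_prod, Fintype.card_bool]; ring
  have htcard : ∀ p, Fintype.card (ι × Bool) ≤ (t p).card := by
    intro p
    have := hTdeg _ (hv' (if p.2 then tl p.1 else hd p.1)).1
    unfold deg at this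
    rw [hcardιB]
    show _ ≤ (T.filter (fun u => r (v (if p.2 then tl p.1 else hd p.1)) u)).card
    omega
  have hhall : ∃ f : ι × Bool → W, Function.Injective f ∧ ∀ p, f p ∈ t p := by
    rw [← Finset.all_card_le_biUnion_card_iff_exists_injective]
    intro s
    rcases s.eq_empty_or_nonempty with h | ⟨p, hp⟩
    · rw [h]; simp
    · have h1 : s.card ≤ Fintype.card (ι × Bool) := Finset.card_le_univ s
      have h2 : (t p).card ≤ (s.biUnion t).card :=
        Finset.card_le_card (Finset.subset_biUnion_of_mem t hp)
      exact h1.trans ((htcard p).trans h2)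
  obtain ⟨f, hfinj, hf⟩ := hhall
  have hf' : ∀ p, f p ∈ T ∧ r (v (if p.2 then tl p.1 else hd p.1)) (f p) := by
    intro p
    have := hf p
    rw [ht, Finset.mem_filter] at this
    exact this
  have hfR : ∀ p, ¬ R (f p) := fun p => (hbip _ _ (hf' p).2).mp (hv' _).2
  set Vs : Finset W := Finset.univ.image v with hVs
  set X : Finset W := Finset.univ.image f with hX
  set S' := T \ Vs with hS'
  have hVscard : Vs.card = n := by
    rw [hVs, Finset.card_image_of_injective _ hvinj]; simp
  have hXcard : X.card = 2 * Fintype.card ι := by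
    rw [hX, Finset.card_image_of_injective _ hfinj, ← hcardιB]; simp
  have hVsT : Vs ⊆ T := by
    intro z hz
    rw [hVs, Finset.mem_image] at hz
    obtain ⟨i, _, rfl⟩ := hz
    exact (hv' i).1
  have hXS' : X ⊆ S' := by
    intro z hz
    rw [hX, Finset.mem_image] at hz
    obtain ⟨p, _, rfl⟩ := hz
    rw [hS', Finset.mem_sdiff]
    refine ⟨(hf' p).1, ?_⟩
    intro h
    rw [hVs, Finset.mem_image] at h
    obtain ⟨i, _, hi⟩ := h
    exact hfR p (hi ▸ (hv' i).2)
  have hXT : X ⊆ T := hXS'.trans Finset.sdiff_subset
  have hM' : Massed (2 * M) r S' X := by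
    refine ⟨hXS', by omega, ?_, ?_⟩
    · -- count
      have h1 : e2 r T ≤ E r S' (S' \ X) + (X.card * X.card + (Vs.card * T.card +
          T.card * Vs.card)) := by
        unfold e2 E
        have hsub : ((T ×ˢ T).filter (fun p => r p.1 p.2)) ⊆
            ((S' ×ˢ S').filter (fun p => r p.1 p.2 ∧ (p.1 ∈ S' \ X ∨ p.2 ∈ S' \ X))) ∪
            (X ×ˢ X ∪ (Vs ×ˢ T ∪ T ×ˢ Vs)) := by
          rintro ⟨a, b⟩ hp
          rw [Finset.mem_filter, Finset.mem_product] at hp
          obtain ⟨⟨ha, hb⟩, hab⟩ := hp
          simp only at ha hb hab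
          simp only [Finset.mem_union, Finset.mem_product, Finset.mem_filter]
          by_cases haV : a ∈ Vs
          · right; right; left; exact ⟨haV, hb⟩
          · by_cases hbV : b ∈ Vs
            · right; right; right; exact ⟨ha, hbV⟩
            · have ha' : a ∈ S' := Finset.mem_sdiff.mpr ⟨ha, haV⟩
              have hb' : b ∈ S' := Finset.mem_sdiff.mpr ⟨hb, hbV⟩
              by_cases haX : a ∈ X
              · by_cases hbX : b ∈ X
                · right; left; exact ⟨haX, hbX⟩
                · left
                  exact ⟨⟨ha', hb'⟩, hab, Or.inr (Finset.mem_sdiff.mpr ⟨hb', hbX⟩)⟩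
              · left
                exact ⟨⟨ha', hb'⟩, hab, Or.inl (Finset.mem_sdiff.mpr ⟨ha', haX⟩)⟩
        refine (Finset.card_le_card hsub).trans ?_
        refine (Finset.card_union_le _ _).trans ?_
        apply Nat.add_le_add_left
        refine (Finset.card_union_le _ _).trans ?_
        rw [Finset.card_product]
        apply Nat.add_le_add_left
        refine (Finset.card_union_le _ _).trans ?_
        rw [Finset.card_product, Finset.card_product]
      have hT1 : 1 ≤ T.card := Finset.card_pos.mpr hTne
      have hXle : X.card ≤ T.card := Finset.card_le_card hXT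
      have h2 : X.card * X.card ≤ 2 * M * T.card := Nat.mul_le_mul (by omega) hXle
      have h3 : Vs.card * T.card ≤ M * T.card := Nat.mul_le_mul_right _ (by omega)
      have h4 : T.card * Vs.card ≤ M * T.card := by
        rw [Nat.mul_comm]; exact h3
      have h5 : (S' \ X).card ≤ T.card :=
        Finset.card_le_card (Finset.sdiff_subset.trans Finset.sdiff_subset)
      have h6 : 64 * (2 * M) * (S' \ X).card ≤ 64 * (2 * M) * T.card := Nat.mul_le_mul_left _ h5
      have h7 : 2 * (70 * M + 1) * T.card = 140 * (M * T.card) + 2 * T.card := by ring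
      have h8 : 64 * (2 * M) * T.card = 128 * (M * T.card) := by ring
      have h9 : 2 * (2 * M) * T.card = 4 * (M * T.card) := by ring
      have h10 : 2 * M * T.card = 2 * (M * T.card) := by ring
      rw [h7, h9] at hTe
      rw [h10] at h2
      rw [h8] at h6
      omega
    · intro A B hsep hXA hlt
      have hdisj : ∀ z ∈ S', z ∉ Vs := fun z hz => (Finset.mem_sdiff.mp hz).2
      have hS2 : Sep r T (A ∪ Vs) (B ∪ Vs) := by
        refine ⟨?_, ?_⟩
        · have : A ∪ Vs ∪ (B ∪ Vs) = (A ∪ B) ∪ Vs := by
            ext z; simp only [Finset.mem_union]; tauto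
          rw [this, hsep.1, hS', Finset.sdiff_union_of_subset hVsT]
        · intro a ha haB b hb hbA hab
          rcases Finset.mem_union.mp ha with h1 | h1
          · rcases Finset.mem_union.mp hb with h2 | h2
            · exact hsep.2 a h1 (fun h => haB (Finset.mem_union_left _ h)) b h2
                (fun h => hbA (Finset.mem_union_left _ h)) hab
            · exact hbA (Finset.mem_union_right _ h2)
          · exact haB (Finset.mem_union_right _ h1)
      have hint : (A ∪ Vs) ∩ (B ∪ Vs) = (A ∩ B) ∪ Vs := by
        ext z; simp only [Finset.mem_inter, Finset.mem_union]; tauto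
      have hc : ((A ∪ Vs) ∩ (B ∪ Vs)).card ≤ 2 * M := by
        rw [hint]
        have := Finset.card_union_le (A ∩ B) Vs
        omega
      rcases hTsep _ _ hS2 hc with h | h
      · have : B \ A = ∅ := by
          rw [Finset.sdiff_eq_empty_iff_subset]
          intro z hz
          have hzS' := hsep.right hz
          have hzT : z ∈ A ∪ Vs := by
            rw [h]; exact (Finset.mem_sdiff.mp hzS').1
          rcases Finset.mem_union.mp hzT with g | g
          · exact g
          · exact absurd g (hdisj z hzS')
        rw [this, E_empty]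
        exact Nat.zero_le _
      · exfalso
        have : A ⊆ B := by
          intro z hz
          have hzS' := hsep.left hz
          have hzT : z ∈ B ∪ Vs := by
            rw [h]; exact (Finset.mem_sdiff.mp hzS').1
          rcases Finset.mem_union.mp hzT with g | g
          · exact g
          · exact absurd g (hdisj z hzS')
        have := Finset.card_le_card (Finset.subset_inter hXA (hXA.trans this))
        omega
  have hL := hM'.linked (by omega) hs hirr
  -- labels
  set c : W → W := fun z => if h : ∃ e, f (e, false) = z then f (h.choose, true) else z with hc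
  have hc1 : ∀ e, c (f (e, false)) = f (e, true) := by
    intro e
    have hex : ∃ e', f (e', false) = f (e, false) := ⟨e, rfl⟩
    have h1 : c (f (e, false)) = f (hex.choose, true) := by simp only [hc]; rw [dif_pos hex]
    rw [h1]
    have h2 := hfinj hex.choose_spec
    rw [Prod.mk.injEq] at h2
    rw [h2.1]
  have hc2 : ∀ e, c (f (e, true)) = f (e, true) := by
    intro e
    have hex : ¬ ∃ e', f (e', false) = f (e, true) := by
      rintro ⟨e', he'⟩
      have := hfinj he'
      rw [Prod.mk.injEq] at this
      exact absurd this.2 (by simp)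
    simp only [hc]; rw [dif_neg hex]
  obtain ⟨C, hC, hd'⟩ := hL W c
  have hXmem : ∀ p, f p ∈ X := fun p => Finset.mem_image_of_mem _ (Finset.mem_univ _)
  refine ⟨v, fun e => C (f (e, true)), hvinj, fun i => ⟨(hv' i).2, hTS (hv' i).1⟩, ?_, ?_⟩
  · intro e
    have h1 := hC (f (e, true)) (hXmem _)
    rw [hc2] at h1
    have h2 := hC (f (e, false)) (hXmem _)
    rw [hc1] at h2
    refine ⟨h1.2.1.trans (Finset.sdiff_subset.trans hTS), h1.2.2,
      ⟨f (e, true), h1.1, ?_⟩, ⟨f (e, false), h2.1, ?_⟩, ?_⟩
    · have := (hf' (e, true)).2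
      simpa using this
    · have := (hf' (e, false)).2
      simpa using this
    · intro i hi
      have := h1.2.1 hi
      rw [hS', Finset.mem_sdiff] at this
      exact this.2 (Finset.mem_image_of_mem _ (Finset.mem_univ _))
  · intro e e' hne'
    have h1 := hd' (f (e, true)) (hXmem _) (f (e', true)) (hXmem _) (by
      rw [hc2, hc2]
      intro h
      have := hfinj h
      rw [Prod.mk.injEq] at this
      exact hne' this.1)
    rw [hc2, hc2] at h1
    exact h1

end Pool.Agent.Mader
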