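import Pool.Agent.Mader.Dense

/-! A linkage theorem of Thomas and Wollan type: a graph in which the non-root vertices carry
many edges and which has no small separation hiding a dense part is linked. -/

open Classical

namespace Pool.Agent.Mader

universe u

variable {V : Type u}

theorem Sep.left {r : V → V → Prop} {S A B : Finset V} (h : Sep r S A B) : A ⊆ S := by
  rw [← h.1]; exact Finset.subset_union_left

theorem Sep.right {r : V → V → Prop} {S A B : Finset V} (h : Sep r S A B) : B ⊆ S := by
  rw [← h.1]; exact Finset.subset_union_right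

theorem Linked.root_mono {r : V → V → Prop} {S X X' : Finset V} (h : Linked r S X)
    (hX : X' ⊆ X) : Linked r S X' := by
  intro ι c
  obtain ⟨C, hC, hd⟩ := h ι c
  exact ⟨C, fun x hx => hC x (hX hx), fun x hx y hy => hd x (hX hx) y (hX hy)⟩

/-- Composition of separations. -/
theorem Sep.comp {r : V → V → Prop} {S A B A2 B2 : Finset V} (h1 : Sep r S A B)
    (h2 : Sep r B A2 B2) (hA : A ∩ B ⊆ A2) : Sep r S (A ∪ A2) B2 := by
  have hB2B : B2 ⊆ B := h2.right
  refine ⟨?_, ?_⟩
  · rw [Finset.union_assoc, h2.1, h1.1]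
  · intro a ha haB b hb hbA hab
    have hbA1 : b ∉ A := fun h => hbA (Finset.mem_union_left _ h)
    have hbA2 : b ∉ A2 := fun h => hbA (Finset.mem_union_right _ h)
    rcases Finset.mem_union.mp ha with h | h
    · by_cases haB' : a ∈ B
      · have := hA (Finset.mem_inter.mpr ⟨h, haB'⟩)
        exact h2.2 a this haB b hb hbA2 hab
      · exact h1.2 a h haB' b (hB2B hb) hbA1 hab
    · exact h2.2 a h haB b hb hbA2 hab

theorem Sep.comp_inter {r : V → V → Prop} {B A A2 B2 : Finset V}
    (h2 : Sep r B A2 B2) (hA : A ∩ B ⊆ A2) : (A ∪ A2) ∩ B2 = A2 ∩ B2 := by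
  have hB2B : B2 ⊆ B := h2.right
  ext z
  simp only [Finset.mem_inter, Finset.mem_union]
  constructor
  · rintro ⟨h | h, h'⟩
    · exact ⟨hA (Finset.mem_inter.mpr ⟨h, hB2B h'⟩), h'⟩
    · exact ⟨h, h'⟩
  · rintro ⟨h, h'⟩; exact ⟨Or.inr h, h'⟩

theorem Sep.comp_sdiff {r : V → V → Prop} {B A A2 B2 : Finset V}
    (h2 : Sep r B A2 B2) (hA : A ∩ B ⊆ A2) : B2 \ (A ∪ A2) = B2 \ A2 := by
  have hB2B : B2 ⊆ B := h2.right
  ext z
  simp only [Finset.mem_sdiff, Finset.mem_union, not_or]
  constructor
  · rintro ⟨h, h'⟩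
    exact ⟨h, h'.2⟩
  · rintro ⟨h, h'⟩
    exact ⟨h, fun hz => h' (hA (Finset.mem_inter.mpr ⟨hz, hB2B h⟩)), h'⟩

theorem Sep.E_le {r : V → V → Prop} (hs : ∀ u v, r u v → r v u) {S A B : Finset V}
    (h : Sep r S A B) : E r S (B \ A) ≤ E r B (B \ A) := by
  apply Mader.E_le
  intro u hu v hv huv hor
  have key : ∀ u ∈ B \ A, ∀ v ∈ S, r u v → v ∈ B := by
    intro u hu v hv huv
    rw [Finset.mem_sdiff] at hu
    by_contra hvB
    have hvA : v ∈ A := by
      rw [← h.1, Finset.mem_union] at hv
      rcases hv with h | h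
      · exact h
      · exact absurd h hvB
    exact h.2 v hvA hvB u hu.1 hu.2 (hs _ _ huv)
  rcases hor with h | h
  · exact ⟨(Finset.mem_sdiff.mp h).1, key u h v hv huv, huv, Or.inl h⟩
  · exact ⟨key v h u hu (hs _ _ huv), (Finset.mem_sdiff.mp h).1, huv, Or.inr h⟩

/-- Massed rooted graphs. -/
structure Massed (h : ℕ) (r : V → V → Prop) (S X : Finset V) : Prop where
  sub : X ⊆ S
  card : X.card ≤ h
  m1 : 64 * h * (S \ X).card < E r S (S \ X)
  m2 : ∀ A B, Sep r S A B → X ⊆ A → (A ∩ B).card < X.card →
    E r S (B \ A) ≤ 64 * h * (B \ A).card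

theorem massed_right {h : ℕ} {r : V → V → Prop} (hs : ∀ u v, r u v → r v u) {S A B : Finset V}
    (hsep : Sep r S A B) (hcard : (A ∩ B).card ≤ h)
    (hE : 64 * h * (B \ A).card < E r S (B \ A))
    (hm : ∀ A2 B2, Sep r S (A ∪ A2) B2 → A ∩ B ⊆ A2 → Sep r B A2 B2 →
      ((A ∪ A2) ∩ B2).card < (A ∩ B).card →
      E r S (B2 \ (A ∪ A2)) ≤ 64 * h * (B2 \ (A ∪ A2)).card) : Massed h r B (A ∩ B) := by
  refine ⟨Finset.inter_subset_right, hcard, ?_, ?_⟩
  · have : B \ (A ∩ B) = B \ A := by
      ext z; simp only [Finset.mem_sdiff, Finset.mem_inter]; tauto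
    rw [this]
    exact lt_of_lt_of_le hE (hsep.E_le hs)
  · intro A2 B2 h2 hA hlt
    have h3 := hm A2 B2 (hsep.comp h2 hA) hA h2 (by rw [h2.comp_inter hA]; exact hlt)
    rw [h2.comp_sdiff hA] at h3
    refine le_trans ?_ h3
    apply E_le
    intro u hu v hv huv hor
    exact ⟨hsep.right hu, hsep.right hv, huv, hor⟩

theorem exists_massed {h : ℕ} {r : V → V → Prop} (hs : ∀ u v, r u v → r v u) {S X : Finset V}
    (hXh : X.card ≤ h)
    (hex : ∃ A B, Sep r S A B ∧ X ⊆ A ∧ (A ∩ B).card < X.card ∧
      64 * h * (B \ A).card < E r S (B \ A)) :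
    ∃ A B, Sep r S A B ∧ X ⊆ A ∧ (A ∩ B).card < X.card ∧
      64 * h * (B \ A).card < E r S (B \ A) ∧ Massed h r B (A ∩ B) := by
  have hex' : ∃ n, ∃ A B, Sep r S A B ∧ X ⊆ A ∧ (A ∩ B).card < X.card ∧
      64 * h * (B \ A).card < E r S (B \ A) ∧ B.card = n := by
    obtain ⟨A, B, h1, h2, h3, h4⟩ := hex
    exact ⟨_, A, B, h1, h2, h3, h4, rfl⟩
  obtain ⟨A, B, h1, h2, h3, h4, h5⟩ := Nat.find_spec hex'
  refine ⟨A, B, h1, h2, h3, h4, ?_⟩
  apply massed_right hs h1 (by omega) h4
  intro A2 B2 hc hA hc2 hlt
  by_contra hcon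
  push Not at hcon
  have hB2 : B2.card < B.card := by
    apply Finset.card_lt_card
    refine lt_of_le_of_ne hc2.right ?_
    intro heq
    rw [hc2.comp_inter hA, heq] at hlt
    have h6 : A2 ∩ B = A2 := Finset.inter_eq_left.mpr hc2.left
    rw [h6] at hlt
    have := Finset.card_le_card hA
    omega
  rw [h5] at hB2
  apply Nat.find_min hex' hB2
  exact ⟨A ∪ A2, B2, hc, h2.trans Finset.subset_union_left, by omega, hcon, rfl⟩

theorem Sep.ext_right {r r' : V → V → Prop} {S A B A' B' : Finset V}
    (h : Sep r S A B) (h' : Sep r' A A' B') (hr : ∀ u v, r u v → r' u v) (hQ : A ∩ B ⊆ B') :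
    Sep r S A' (B' ∪ B) := by
  refine ⟨?_, ?_⟩
  · rw [← Finset.union_assoc, h'.1, h.1]
  · intro a ha haB b hb hbA hab
    have haB1 : a ∉ B' := fun h => haB (Finset.mem_union_left _ h)
    have haB2 : a ∉ B := fun h => haB (Finset.mem_union_right _ h)
    by_cases hbB' : b ∈ B'
    · exact h'.2 a ha haB1 b hbB' hbA (hr _ _ hab)
    · have hbB : b ∈ B := by
        rcases Finset.mem_union.mp hb with h | h
        · exact absurd h hbB'
        · exact h
      have hbA' : b ∉ A := fun h => hbB' (hQ (Finset.mem_inter.mpr ⟨h, hbB⟩))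
      exact h.2 a (h'.left ha) haB2 b hbB hbA' hab

theorem Sep.ext_inter {r' : V → V → Prop} {A B A' B' : Finset V}
    (h' : Sep r' A A' B') (hQ : A ∩ B ⊆ B') :
    A' ∩ (B' ∪ B) = A' ∩ B' := by
  ext z
  simp only [Finset.mem_inter, Finset.mem_union]
  constructor
  · rintro ⟨h1, h2 | h2⟩
    · exact ⟨h1, h2⟩
    · exact ⟨h1, hQ (Finset.mem_inter.mpr ⟨h'.left h1, h2⟩)⟩
  · rintro ⟨h1, h2⟩
    exact ⟨h1, Or.inl h2⟩

/-- A rigid separation lets one use induction. -/
theorem rigid_linked {h : ℕ} {r : V → V → Prop} (hs : ∀ u v, r u v → r v u)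
    (hirr : ∀ u, ¬ r u u) {S X : Finset V} (hM : Massed h r S X)
    (IH : ∀ r' : V → V → Prop, (∀ u v, r' u v → r' v u) → (∀ u, ¬ r' u u) →
      ∀ S' X' : Finset V, S'.card < S.card → Massed h r' S' X' → Linked r' S' X') :
    ∀ n, ∀ A B : Finset V, A.card = n → Sep r S A B → X ⊆ A → (B \ A).Nonempty →
      (A ∩ B).card ≤ X.card → Linked r B (A ∩ B) → Linked r S X := by
  intro n
  induction n using Nat.strong_induction_on with
  | _ n IHA =>
  intro A B hAn hsep hXA hne hcard hL
  have hAS : A.card < S.card := by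
    apply Finset.card_lt_card
    rw [Finset.ssubset_iff_of_subset hsep.left]
    obtain ⟨z, hz⟩ := hne
    rw [Finset.mem_sdiff] at hz
    exact ⟨z, hsep.right hz.1, hz.2⟩
  by_cases hEB : E r S (B \ A) ≤ 64 * h * (B \ A).card
  · -- case a
    set r' : V → V → Prop := fun u v => r u v ∨ (u ≠ v ∧ u ∈ A ∩ B ∧ v ∈ A ∩ B) with hr'
    have hs' : ∀ u v, r' u v → r' v u := by
      rintro u v (h | ⟨h1, h2, h3⟩)
      · exact Or.inl (hs _ _ h)
      · exact Or.inr ⟨Ne.symm h1, h3, h2⟩
    have hirr' : ∀ u, ¬ r' u u := by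
      rintro u (h | ⟨h1, _⟩)
      · exact hirr u h
      · exact h1 rfl
    have hrr' : ∀ u v, r u v → r' u v := fun u v h => Or.inl h
    have hr'r : ∀ u v, r' u v → r u v ∨ (u ∈ A ∩ B ∧ v ∈ A ∩ B) := by
      rintro u v (h | ⟨_, h2, h3⟩)
      · exact Or.inl h
      · exact Or.inr ⟨h2, h3⟩
    by_cases hviol : ∃ A' B', Sep r' A A' B' ∧ X ⊆ A' ∧ (A' ∩ B').card < X.card ∧
      64 * h * (B' \ A').card < E r' A (B' \ A')
    · obtain ⟨A', B', hsep', hXA', hcard', hE', hM'⟩ := exists_massed hs' hM.card hviol
      have hQ : A ∩ B ⊆ A' ∨ A ∩ B ⊆ B' := by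
        by_contra hcon
        push Not at hcon
        obtain ⟨h1, h2⟩ := hcon
        rw [Finset.not_subset] at h1 h2
        obtain ⟨q1, hq1, hq1'⟩ := h1
        obtain ⟨q2, hq2, hq2'⟩ := h2
        have hq1B : q1 ∈ B' := by
          have := (Finset.mem_inter.mp hq1).1
          rw [← hsep'.1, Finset.mem_union] at this
          rcases this with h | h
          · exact absurd h hq1'
          · exact h
        have hq2A : q2 ∈ A' := by
          have := (Finset.mem_inter.mp hq2).1
          rw [← hsep'.1, Finset.mem_union] at this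
          rcases this with h | h
          · exact h
          · exact absurd h hq2'
        apply hsep'.2 q2 hq2A hq2' q1 hq1B hq1'
        refine Or.inr ⟨?_, hq2, hq1⟩
        intro h; rw [h] at hq2A; exact hq1' hq2A
      have hneB' : (B' \ A').Nonempty := by
        rw [Finset.nonempty_iff_ne_empty]
        intro h
        rw [h, E_empty] at hE'
        omega
      rcases hQ with hQ | hQ
      · -- Q ⊆ A'
        exfalso
        have hS2 : Sep r S (A' ∪ B) B' := by
          refine ⟨?_, ?_⟩
          · have : A' ∪ B ∪ B' = (A' ∪ B') ∪ B := by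
              ext z; simp only [Finset.mem_union]; tauto
            rw [this, hsep'.1, hsep.1]
          · intro a ha haB b hb hbA hab
            have hbA1 : b ∉ A' := fun h => hbA (Finset.mem_union_left _ h)
            have hbB : b ∉ B := fun h => hbA (Finset.mem_union_right _ h)
            by_cases haA' : a ∈ A'
            · exact hsep'.2 a haA' haB b hb hbA1 (Or.inl hab)
            · have haB' : a ∈ B := by
                rcases Finset.mem_union.mp ha with h | h
                · exact absurd h haA'
                · exact h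
              have haA : a ∉ A := fun h => haA' (hQ (Finset.mem_inter.mpr ⟨h, haB'⟩))
              exact hsep.2 b (hsep'.right hb) hbB a haB' haA (hs _ _ hab)
        have hint : (A' ∪ B) ∩ B' = A' ∩ B' := by
          ext z
          simp only [Finset.mem_inter, Finset.mem_union]
          constructor
          · rintro ⟨h1 | h1, h2⟩
            · exact ⟨h1, h2⟩
            · exact ⟨hQ (Finset.mem_inter.mpr ⟨hsep'.right h2, h1⟩), h2⟩
          · rintro ⟨h1, h2⟩
            exact ⟨Or.inl h1, h2⟩
        have hsd : B' \ (A' ∪ B) = B' \ A' := by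
          ext z
          simp only [Finset.mem_sdiff, Finset.mem_union, not_or]
          constructor
          · rintro ⟨h1, h2⟩; exact ⟨h1, h2.1⟩
          · rintro ⟨h1, h2⟩
            exact ⟨h1, h2, fun h => h2 (hQ (Finset.mem_inter.mpr ⟨hsep'.right h1, h⟩))⟩
        have h1 := hM.m2 (A' ∪ B) B' hS2 (hXA'.trans Finset.subset_union_left)
          (by rw [hint]; exact hcard')
        rw [hsd] at h1
        have h2 : E r' A (B' \ A') ≤ E r S (B' \ A') := by
          apply E_le
          intro u hu v hv huv hor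
          refine ⟨hsep.left hu, hsep.left hv, ?_, hor⟩
          rcases hr'r u v huv with h | h
          · exact h
          · exfalso
            rcases hor with g | g
            · exact (Finset.mem_sdiff.mp g).2 (hQ h.1)
            · exact (Finset.mem_sdiff.mp g).2 (hQ h.2)
        omega
      · -- Q ⊆ B'
        have hS2 : Sep r S A' (B' ∪ B) := hsep.ext_right hsep' hrr' hQ
        have hint : A' ∩ (B' ∪ B) = A' ∩ B' := hsep'.ext_inter hQ
        have hL2 : Linked r' B' (A' ∩ B') := by
          apply IH r' hs' hirr' B' (A' ∩ B') _ hM'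
          exact lt_of_le_of_lt (Finset.card_le_card hsep'.right) hAS
        have hL3 : Linked r (B' ∪ B) (A' ∩ B') := by
          apply Linked.glue (Q := A ∩ B) ?_ hL hL2
          · intro u _ v _ huv
            exact hr'r u v huv
          · intro z hz
            rw [Finset.mem_inter] at hz
            exact Finset.mem_inter.mpr ⟨hsep'.right hz.1, hz.2⟩
        have hA'A : A'.card < n := by
          rw [← hAn]
          apply Finset.card_lt_card
          rw [Finset.ssubset_iff_of_subset hsep'.left]
          obtain ⟨z, hz⟩ := hneB'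
          rw [Finset.mem_sdiff] at hz
          exact ⟨z, hsep'.right hz.1, hz.2⟩
        apply IHA A'.card hA'A A' (B' ∪ B) rfl hS2 hXA'
        · obtain ⟨z, hz⟩ := hneB'
          rw [Finset.mem_sdiff] at hz
          exact ⟨z, Finset.mem_sdiff.mpr ⟨Finset.mem_union_left _ hz.1, hz.2⟩⟩
        · rw [hint]; omega
        · rw [hint]; exact hL3
    · push Not at hviol
      have hMA : Massed h r' A X := by
        refine ⟨hXA, hM.card, ?_, hviol⟩
        have h1 : E r S (S \ X) ≤ E r' A (A \ X) + E r S (B \ A) := by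
          apply E_le_add
          intro u hu v hv huv hor
          by_cases h : u ∈ B \ A ∨ v ∈ B \ A
          · exact Or.inr ⟨hu, hv, huv, h⟩
          · left
            push Not at h
            have key : ∀ z ∈ S, z ∉ B \ A → z ∈ A := by
              intro z hz h1
              rw [← hsep.1, Finset.mem_union] at hz
              rcases hz with h2 | h2
              · exact h2
              · by_contra h3
                exact h1 (Finset.mem_sdiff.mpr ⟨h2, h3⟩)
            have huA := key u hu h.1
            have hvA := key v hv h.2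
            refine ⟨huA, hvA, Or.inl huv, ?_⟩
            rcases hor with g | g
            · exact Or.inl (Finset.mem_sdiff.mpr ⟨huA, (Finset.mem_sdiff.mp g).2⟩)
            · exact Or.inr (Finset.mem_sdiff.mpr ⟨hvA, (Finset.mem_sdiff.mp g).2⟩)
        have h2 : (S \ X).card = (A \ X).card + (B \ A).card := by
          rw [← Finset.card_union_of_disjoint]
          · congr 1
            ext z
            have hS : z ∈ S ↔ z ∈ A ∨ z ∈ B := by rw [← hsep.1, Finset.mem_union]
            have hX : z ∈ X → z ∈ A := fun h => hXA h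
            simp only [Finset.mem_sdiff, Finset.mem_union, hS]
            tauto
          · rw [Finset.disjoint_left]
            intro z h1 h2
            exact (Finset.mem_sdiff.mp h2).2 (Finset.mem_sdiff.mp h1).1
        have h3 := hM.m1
        rw [h2, Nat.mul_add] at h3
        omega
      have hLA : Linked r' A X := IH r' hs' hirr' A X hAS hMA
      have := Linked.glue (Q := A ∩ B) (Finset.Subset.refl _) hL hLA
        (fun u _ v _ huv => hr'r u v huv)
      rwa [hsep.1] at this
  · -- case b
    have hcardeq : (A ∩ B).card = X.card := by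
      by_contra hne'
      exact hEB (hM.m2 A B hsep hXA (by omega))
    rcases joined_or hs hirr hXA (Finset.inter_subset_left (s₁ := A) (s₂ := B)) with hJ | hJ
    · exact hJ.linked hsep.left hsep.right (Finset.Subset.refl _) Finset.inter_subset_right
        (fun Q' hQ' _ => hL.root_mono hQ')
    · obtain ⟨A1, B1, hsep1, hXA1, hQB1, hlt1, hJ1⟩ := hJ
      have hL1 : Linked r (B1 ∪ B) (A1 ∩ B1) := by
        apply hJ1.linked Finset.subset_union_left Finset.subset_union_right ?_
          Finset.inter_subset_right (fun Q' hQ' _ => hL.root_mono hQ')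
        intro z hz
        rw [Finset.mem_inter] at hz
        exact Finset.mem_inter.mpr ⟨hsep1.right hz.1, hz.2⟩
      have hS2 : Sep r S A1 (B1 ∪ B) := hsep.ext_right hsep1 (fun _ _ h => h) hQB1
      have hint : A1 ∩ (B1 ∪ B) = A1 ∩ B1 := hsep1.ext_inter hQB1
      have hA1 : A1.card < n := by
        rw [← hAn]
        apply Finset.card_lt_card
        refine lt_of_le_of_ne hsep1.left ?_
        intro heq
        have : B1 ⊆ A1 := by rw [heq]; exact hsep1.right
        rw [Finset.inter_eq_right.mpr this] at hlt1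
        have := Finset.card_le_card hQB1
        omega
      apply IHA A1.card hA1 A1 (B1 ∪ B) rfl hS2 hXA1
      · obtain ⟨z, hz⟩ := hne
        rw [Finset.mem_sdiff] at hz
        exact ⟨z, Finset.mem_sdiff.mpr ⟨Finset.mem_union_right _ hz.1,
          fun h => hz.2 (hsep1.left h)⟩⟩
      · rw [hint]; omega
      · rw [hint]; exact hL1

/-- contraction does not increase `E` away from the contracted edge -/
theorem E_contr_le {r : V → V → Prop} {S U : Finset V} {x y : V} (hy : y ∈ S) (hxU : x ∉ U) :
    E (contr r x y) (S.erase y) U ≤ E r S U := by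
  unfold E
  apply Finset.card_le_card_of_injOn
    (fun p => if r p.1 p.2 then p else if p.1 = x then (y, p.2) else (p.1, y))
  · rintro ⟨a, b⟩ hp
    rw [Finset.mem_coe, Finset.mem_filter, Finset.mem_product, Finset.mem_erase,
      Finset.mem_erase] at hp
    obtain ⟨⟨⟨hay, ha⟩, ⟨hby, hb⟩⟩, ⟨hab, hc⟩, hor⟩ := hp
    simp only at hay ha hby hb hab hc hor
    rw [Finset.mem_coe, Finset.mem_filter, Finset.mem_product]
    by_cases hrab : r a b
    · simp only [hrab, if_true]
      exact ⟨⟨ha, hb⟩, trivial, hor⟩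
    · simp only [hrab, if_false]
      by_cases hax : a = x
      · simp only [hax, if_true]
        refine ⟨⟨hy, hb⟩, ?_, ?_⟩
        · rcases hc with h | h | h
          · exact absurd h hrab
          · exact h.2
          · exact absurd (hax.trans h.1.symm) hab
        · rcases hor with h | h
          · rw [hax] at h; exact absurd h hxU
          · exact Or.inr h
      · simp only [hax, if_false]
        have hb' : b = x ∧ r a y := by
          rcases hc with h | h | h
          · exact absurd h hrab
          · exact absurd h.1 hax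
          · exact h
        refine ⟨⟨ha, hy⟩, hb'.2, ?_⟩
        rcases hor with h | h
        · exact Or.inl h
        · rw [hb'.1] at h; exact absurd h hxU
  · rintro ⟨a, b⟩ hp ⟨a', b'⟩ hp' heq
    rw [Finset.mem_coe, Finset.mem_filter, Finset.mem_product, Finset.mem_erase,
      Finset.mem_erase] at hp hp'
    obtain ⟨⟨⟨hay, ha⟩, ⟨hby, hb⟩⟩, ⟨hab, hc⟩, hor⟩ := hp
    obtain ⟨⟨⟨hay', ha'⟩, ⟨hby', hb'⟩⟩, ⟨hab', hc'⟩, hor'⟩ := hp'
    simp only at hay ha hby hb hab hc hor hay' ha' hby' hb' hab' hc' hor' heq
    have hbx : ¬ r a b → a ≠ x → b = x := by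
      intro h1 h2
      rcases hc with h | h | h
      · exact absurd h h1
      · exact absurd h.1 h2
      · exact h.1
    have hbx' : ¬ r a' b' → a' ≠ x → b' = x := by
      intro h1 h2
      rcases hc' with h | h | h
      · exact absurd h h1
      · exact absurd h.1 h2
      · exact h.1
    by_cases h1 : r a b <;> by_cases h2 : r a' b'
    · rwa [if_pos h1, if_pos h2] at heq
    · exfalso
      by_cases h3 : a' = x
      · rw [if_pos h1, if_neg h2, if_pos h3, Prod.mk.injEq] at heq
        exact hay heq.1
      · rw [if_pos h1, if_neg h2, if_neg h3, Prod.mk.injEq] at heq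
        exact hby heq.2
    · exfalso
      by_cases h3 : a = x
      · rw [if_neg h1, if_pos h2, if_pos h3, Prod.mk.injEq] at heq
        exact hay' heq.1.symm
      · rw [if_neg h1, if_pos h2, if_neg h3, Prod.mk.injEq] at heq
        exact hby' heq.2.symm
    · by_cases h3 : a = x <;> by_cases h4 : a' = x
      · rw [if_neg h1, if_neg h2, if_pos h3, if_pos h4, Prod.mk.injEq] at heq
        rw [h3, h4, heq.2]
      · exfalso
        rw [if_neg h1, if_neg h2, if_pos h3, if_neg h4, Prod.mk.injEq] at heq
        exact hay' heq.1.symm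
      · exfalso
        rw [if_neg h1, if_neg h2, if_neg h3, if_pos h4, Prod.mk.injEq] at heq
        exact hay heq.1
      · rw [if_neg h1, if_neg h2, if_neg h3, if_neg h4, Prod.mk.injEq] at heq
        rw [heq.1, hbx h1 h3, hbx' h2 h4]

end Pool.Agent.Mader
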