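import Pool.Agent.Mader.TW

open Classical

namespace Pool.Agent.Mader

universe u

variable {V : Type u}

theorem tw_step {h : ℕ} (hh : 1 ≤ h) {r : V → V → Prop} (hs : ∀ u v, r u v → r v u)
    (hirr : ∀ u, ¬ r u u) {S X : Finset V} (hM : Massed h r S X)
    (IH : ∀ r' : V → V → Prop, (∀ u v, r' u v → r' v u) → (∀ u, ¬ r' u u) →
      ∀ S' X' : Finset V, S'.card < S.card → Massed h r' S' X' → Linked r' S' X')
    (IH2 : ∀ r' : V → V → Prop, (∀ u v, r' u v → r' v u) → (∀ u, ¬ r' u u) →
      E r' S (S \ X) < E r S (S \ X) → Massed h r' S X → Linked r' S X) :
    Linked r S X := by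
  by_contra hnot
  have norigid : ∀ A B : Finset V, Sep r S A B → X ⊆ A → (B \ A).Nonempty →
      (A ∩ B).card ≤ X.card → ¬ Linked r B (A ∩ B) := by
    intro A B h1 h2 h3 h4 h5
    exact hnot (rigid_linked hs hirr hM IH _ A B rfl h1 h2 h3 h4 h5)
  have hXS := hM.sub
  have hXh := hM.card
  have hm1 := hM.m1
  -- Claim 2
  have claim2 : ∀ A B : Finset V, Sep r S A B → X ⊆ A → (A ∩ B).card ≤ X.card → B ≠ S →
      E r S (B \ A) ≤ 64 * h * (B \ A).card := by
    intro A B hsep hXA hc hBS
    by_contra hcon
    push Not at hcon
    have hMB : Massed h r B (A ∩ B) := by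
      apply massed_right hs hsep (by omega) hcon
      intro A2 B2 hc2 _ _ hlt
      exact hM.m2 _ _ hc2 (hXA.trans Finset.subset_union_left) (by omega)
    have hBlt : B.card < S.card :=
      Finset.card_lt_card (lt_of_le_of_ne hsep.right hBS)
    have hL := IH r hs hirr B (A ∩ B) hBlt hMB
    apply norigid A B hsep hXA _ hc hL
    rw [Finset.nonempty_iff_ne_empty]
    intro hem
    rw [hem, E_empty] at hcon
    omega
  have hneSX : (S \ X).Nonempty := by
    rw [Finset.nonempty_iff_ne_empty]
    intro hem
    rw [hem, E_empty] at hm1
    omega
  -- degrees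
  have hdeg : ∀ v ∈ S \ X, 32 * h < deg r S v := by
    intro v hv
    rw [Finset.mem_sdiff] at hv
    by_contra hcon
    push Not at hcon
    have hXS' : X ⊆ S.erase v := by
      intro x hx
      rw [Finset.mem_erase]
      refine ⟨?_, hXS hx⟩
      intro he; rw [he] at hx; exact hv.2 hx
    have hMv : Massed h r (S.erase v) X := by
      refine ⟨hXS', hXh, ?_, ?_⟩
      · have h1 := E_erase hs (S := S) (X := X) v
        have h2 : (S \ X).card = (S.erase v \ X).card + 1 := by
          have : S \ X = insert v (S.erase v \ X) := by
            ext z
            simp only [Finset.mem_sdiff, Finset.mem_insert, Finset.mem_erase]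
            constructor
            · rintro ⟨h1, h2⟩
              by_cases hzv : z = v
              · exact Or.inl hzv
              · exact Or.inr ⟨⟨hzv, h1⟩, h2⟩
            · rintro (h1 | h1)
              · rw [h1]; exact hv
              · exact ⟨h1.1.2, h1.2⟩
          rw [this, Finset.card_insert_of_notMem]
          simp
        rw [h2, Nat.mul_add] at hm1
        omega
      · intro A B hsep hXA hlt
        by_contra hcon2
        push Not at hcon2
        have hvA : v ∉ A := fun h => by
          have := hsep.left h; simp at this
        have hvB : v ∉ B := fun h => by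
          have := hsep.right h; simp at this
        have hS2 : Sep r S (insert v A) (insert v B) := by
          refine ⟨?_, ?_⟩
          · have : insert v A ∪ insert v B = insert v (A ∪ B) := by
              ext z; simp only [Finset.mem_union, Finset.mem_insert]; tauto
            rw [this, hsep.1, Finset.insert_erase hv.1]
          · intro a ha haB b hb hbA hab
            rcases Finset.mem_insert.mp ha with h1 | h1
            · rw [h1] at haB; exact haB (Finset.mem_insert_self _ _)
            · rcases Finset.mem_insert.mp hb with h2 | h2
              · rw [h2] at hbA; exact hbA (Finset.mem_insert_self _ _)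
              · exact hsep.2 a h1 (fun h => haB (Finset.mem_insert_of_mem h)) b h2
                  (fun h => hbA (Finset.mem_insert_of_mem h)) hab
        have hint : insert v A ∩ insert v B = insert v (A ∩ B) := by
          ext z; simp only [Finset.mem_inter, Finset.mem_insert]; tauto
        have hsd : insert v B \ insert v A = B \ A := by
          ext z
          simp only [Finset.mem_sdiff, Finset.mem_insert, not_or]
          constructor
          · rintro ⟨h1 | h1, h2, h3⟩
            · exact absurd h1 h2
            · exact ⟨h1, h3⟩
          · rintro ⟨h1, h2⟩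
            refine ⟨Or.inr h1, ?_, h2⟩
            intro h; rw [h] at h1; exact hvB h1
        have hne : insert v B ≠ S := by
          intro heq
          have hXB : X ⊆ B := by
            intro x hx
            have h1 : x ∈ insert v B := by rw [heq]; exact hXS hx
            rcases Finset.mem_insert.mp h1 with h2 | h2
            · rw [h2] at hx; exact absurd hx hv.2
            · exact h2
          have := Finset.card_le_card (Finset.subset_inter hXA hXB)
          omega
        have h1 := claim2 _ _ hS2 (hXA.trans (Finset.subset_insert _ _))
          (by rw [hint]; exact (Finset.card_insert_le _ _).trans hlt) hne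
        rw [hsd] at h1
        have h2 : E r (S.erase v) (B \ A) ≤ E r S (B \ A) := by
          apply E_le
          intro u hu w hw huw hor
          exact ⟨Finset.mem_of_mem_erase hu, Finset.mem_of_mem_erase hw, huw, hor⟩
        omega
    have hcl : (S.erase v).card < S.card := Finset.card_erase_lt_of_mem hv.1
    exact hnot ((IH r hs hirr _ X hcl hMv).mono (fun _ _ _ _ h => h) (Finset.erase_subset _ _))
  -- upper bound on E
  have hEub : E r S (S \ X) ≤ 64 * h * (S \ X).card + 2 := by
    by_contra hcon
    push Not at hcon
    obtain ⟨v, hv⟩ := hneSX
    have hv' := Finset.mem_sdiff.mp hv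
    have hdv := hdeg v hv
    have hexb : ∃ b ∈ S.filter (fun u => r v u), b ∉ X := by
      apply Finset.exists_mem_notMem_of_card_lt_card
      unfold deg at hdv
      omega
    obtain ⟨b, hb, hbX⟩ := hexb
    rw [Finset.mem_filter] at hb
    have hE := E_del (r := r) (S := S) (U := S \ X) v b
    have hlt : E (del r v b) S (S \ X) < E r S (S \ X) :=
      E_lt (fun u _ w _ huw => huw.1) hv'.1 hb.1 hv hb.2 (fun h => h.2 (Or.inl ⟨rfl, rfl⟩))
    have hMd : Massed h (del r v b) S X := by
      refine ⟨hXS, hXh, by omega, ?_⟩
      intro A B hsep hXA hlt2
      have hmono : E (del r v b) S (B \ A) ≤ E r S (B \ A) := by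
        apply E_le
        intro u hu w hw huw hor
        exact ⟨hu, hw, huw.1, hor⟩
      by_cases hS : Sep r S A B
      · exact hmono.trans (hM.m2 A B hS hXA hlt2)
      · have hcross : ∃ a ∈ A, a ∉ B ∧ ∃ b' ∈ B, b' ∉ A ∧ r a b' := by
          by_contra hc
          push Not at hc
          exact hS ⟨hsep.1, hc⟩
        obtain ⟨a, haA, haB, b', hb'B, hb'A, hab'⟩ := hcross
        have hcr : ∀ a1 ∈ A, a1 ∉ B → ∀ b1 ∈ B, b1 ∉ A → r a1 b1 →
            (a1 = v ∧ b1 = b) ∨ (a1 = b ∧ b1 = v) := by
          intro a1 h1 h2 b1 h3 h4 h5
          by_contra h6
          exact hsep.2 a1 h1 h2 b1 h3 h4 ⟨h5, h6⟩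
        have h0 := hcr a haA haB b' hb'B hb'A hab'
        have haX : a ∉ X := by
          rcases h0 with h | h
          · rw [h.1]; exact hv'.2
          · rw [h.1]; exact hbX
        have hS2 : Sep r S A (insert a B) := by
          refine ⟨?_, ?_⟩
          · have : A ∪ insert a B = A ∪ B := by
              ext z
              simp only [Finset.mem_union, Finset.mem_insert]
              constructor
              · rintro (h | h | h)
                · exact Or.inl h
                · rw [h]; exact Or.inl haA
                · exact Or.inr h
              · rintro (h | h)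
                · exact Or.inl h
                · exact Or.inr (Or.inr h)
            rw [this, hsep.1]
          · intro a1 ha1 ha1B b1 hb1 hb1A hab
            have ha1a : a1 ≠ a := fun h => ha1B (h ▸ Finset.mem_insert_self _ _)
            have ha1B' : a1 ∉ B := fun h => ha1B (Finset.mem_insert_of_mem h)
            rcases Finset.mem_insert.mp hb1 with h | hb1B
            · rw [h] at hb1A; exact hb1A haA
            · have h1 := hcr a1 ha1 ha1B' b1 hb1B hb1A hab
              have hb1a : b1 ≠ a := fun h => hb1A (h ▸ haA)
              rcases h0 with g | g <;> rcases h1 with k | k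
              · exact ha1a (k.1.trans g.1.symm)
              · exact hb1a (k.2.trans g.1.symm)
              · exact hb1a (k.2.trans g.1.symm)
              · exact ha1a (k.1.trans g.1.symm)
        have hint : A ∩ insert a B = insert a (A ∩ B) := by
          ext z
          simp only [Finset.mem_inter, Finset.mem_insert]
          constructor
          · rintro ⟨h1, h2 | h2⟩
            · exact Or.inl h2
            · exact Or.inr ⟨h1, h2⟩
          · rintro (h | h)
            · rw [h]; exact ⟨haA, Or.inl rfl⟩
            · exact ⟨h.1, Or.inr h.2⟩
        have hsd : insert a B \ A = B \ A := by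
          ext z
          simp only [Finset.mem_sdiff, Finset.mem_insert]
          constructor
          · rintro ⟨h1 | h1, h2⟩
            · rw [h1] at h2; exact absurd haA h2
            · exact ⟨h1, h2⟩
          · rintro ⟨h1, h2⟩; exact ⟨Or.inr h1, h2⟩
        have hne : insert a B ≠ S := by
          intro heq
          have hXB : X ⊆ B := by
            intro x hx
            have h1 : x ∈ insert a B := by rw [heq]; exact hXS hx
            rcases Finset.mem_insert.mp h1 with h2 | h2
            · rw [h2] at hx; exact absurd hx haX
            · exact h2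
          have := Finset.card_le_card (Finset.subset_inter hXA hXB)
          omega
        have h1 := claim2 _ _ hS2 hXA
          (by rw [hint]; exact (Finset.card_insert_le _ _).trans hlt2) hne
        rw [hsd] at h1
        exact hmono.trans h1
    have hirrd : ∀ u, ¬ del r v b u u := fun u hu => hirr u hu.1
    exact hnot ((IH2 _ (del_symm hs v b) hirrd hlt hMd).mono
      (fun _ _ _ _ hd => hd.1) (Finset.Subset.refl _))
  -- common neighbours
  have hcmn : ∀ x ∈ S \ X, ∀ y ∈ S \ X, r x y → 32 * h ≤ (cmn r S x y).card := by
    intro x hx y hy hxy
    rw [Finset.mem_sdiff] at hx hy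
    by_contra hcon
    push Not at hcon
    have hxyne : x ≠ y := fun h => by rw [h] at hxy; exact hirr _ hxy
    have hXS' : X ⊆ S.erase y := by
      intro z hz
      rw [Finset.mem_erase]
      refine ⟨?_, hXS hz⟩
      intro he; rw [he] at hz; exact hy.2 hz
    have hcl : (S.erase y).card < S.card := Finset.card_erase_lt_of_mem hy.1
    have hxS' : x ∈ S.erase y := Finset.mem_erase.mpr ⟨hxyne, hx.1⟩
    have hcs := contr_symm hs x y
    have hci := contr_irrefl (r := r) x y
    by_cases hviol : ∃ A B, Sep (contr r x y) (S.erase y) A B ∧ X ⊆ A ∧ (A ∩ B).card < X.card ∧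
        64 * h * (B \ A).card < E (contr r x y) (S.erase y) (B \ A)
    · obtain ⟨A, B, hsep, hXA, hlt, hE, hMB⟩ := exists_massed hcs hXh hviol
      have hL := IH _ hcs hci B (A ∩ B)
        (lt_of_le_of_lt (Finset.card_le_card hsep.right) hcl) hMB
      have hyA : y ∉ A := fun h => by
        have := hsep.left h; simp at this
      have hyB : y ∉ B := fun h => by
        have := hsep.right h; simp at this
      have hcr : ∀ u v, u ≠ v → r u v → contr r x y u v := fun u v h1 h2 => ⟨h1, Or.inl h2⟩
      have hneSep : ∀ u v, u ∈ A → v ∉ A → u ≠ v := fun u v h1 h2 h => h2 (h ▸ h1)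
      by_cases hxB : x ∈ B
      · by_cases hxA : x ∈ A
        · -- x in both
          have hS2 : Sep r S (insert y A) (insert y B) := by
            refine ⟨?_, ?_⟩
            · have : insert y A ∪ insert y B = insert y (A ∪ B) := by
                ext z; simp only [Finset.mem_union, Finset.mem_insert]; tauto
              rw [this, hsep.1, Finset.insert_erase hy.1]
            · intro a ha haB b hb hbA hab
              rcases Finset.mem_insert.mp ha with h1 | h1
              · rw [h1] at haB; exact haB (Finset.mem_insert_self _ _)
              · rcases Finset.mem_insert.mp hb with h2 | h2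
                · rw [h2] at hbA; exact hbA (Finset.mem_insert_self _ _)
                · have hbA' : b ∉ A := fun h => hbA (Finset.mem_insert_of_mem h)
                  exact hsep.2 a h1 (fun h => haB (Finset.mem_insert_of_mem h)) b h2
                    hbA' (hcr a b (hneSep a b h1 hbA') hab)
          have hint : insert y A ∩ insert y B = insert y (A ∩ B) := by
            ext z; simp only [Finset.mem_inter, Finset.mem_insert]; tauto
          have hsd : insert y B \ insert y A = B \ A := by
            ext z
            simp only [Finset.mem_sdiff, Finset.mem_insert, not_or]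
            constructor
            · rintro ⟨h1 | h1, h2, h3⟩
              · exact absurd h1 h2
              · exact ⟨h1, h3⟩
            · rintro ⟨h1, h2⟩
              refine ⟨Or.inr h1, ?_, h2⟩
              intro h; rw [h] at h1; exact hyB h1
          have hne : insert y B ≠ S := by
            intro heq
            have hXB : X ⊆ B := by
              intro z hz
              have h1 : z ∈ insert y B := by rw [heq]; exact hXS hz
              rcases Finset.mem_insert.mp h1 with h2 | h2
              · rw [h2] at hz; exact absurd hz hy.2
              · exact h2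
            have := Finset.card_le_card (Finset.subset_inter hXA hXB)
            omega
          have h1 := claim2 _ _ hS2 (hXA.trans (Finset.subset_insert _ _))
            (by rw [hint]; exact (Finset.card_insert_le _ _).trans hlt) hne
          rw [hsd] at h1
          have h2 := E_contr_le (r := r) (S := S) (U := B \ A) (x := x) (y := y) hy.1
            (fun h => (Finset.mem_sdiff.mp h).2 hxA)
          omega
        · -- x in B only
          have hS2 : Sep r S A (insert y B) := by
            refine ⟨?_, ?_⟩
            · have : A ∪ insert y B = insert y (A ∪ B) := by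
                ext z; simp only [Finset.mem_union, Finset.mem_insert]; tauto
              rw [this, hsep.1, Finset.insert_erase hy.1]
            · intro a ha haB b hb hbA hab
              have haB' : a ∉ B := fun h => haB (Finset.mem_insert_of_mem h)
              rcases Finset.mem_insert.mp hb with h1 | h1
              · apply hsep.2 a ha haB' x hxB hxA
                exact ⟨hneSep a x ha hxA, Or.inr (Or.inr ⟨rfl, h1 ▸ hab⟩)⟩
              · exact hsep.2 a ha haB' b h1 hbA (hcr a b (hneSep a b ha hbA) hab)
          have hint : A ∩ insert y B = A ∩ B := by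
            ext z
            simp only [Finset.mem_inter, Finset.mem_insert]
            constructor
            · rintro ⟨h1, h2 | h2⟩
              · rw [h2] at h1; exact absurd h1 hyA
              · exact ⟨h1, h2⟩
            · rintro ⟨h1, h2⟩; exact ⟨h1, Or.inr h2⟩
          apply norigid A (insert y B) hS2 hXA
            ⟨y, Finset.mem_sdiff.mpr ⟨Finset.mem_insert_self _ _, hyA⟩⟩ (by rw [hint]; omega)
          rw [hint]
          exact hL.uncontract hs hxy hyB hxB
      · -- x in A only
        have hxA : x ∈ A := by
          rw [← hsep.1, Finset.mem_union] at hxS'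
          rcases hxS' with h | h
          · exact h
          · exact absurd h hxB
        have hS2 : Sep r S (insert y A) B := by
          refine ⟨?_, ?_⟩
          · have : insert y A ∪ B = insert y (A ∪ B) := by
              ext z; simp only [Finset.mem_union, Finset.mem_insert]; tauto
            rw [this, hsep.1, Finset.insert_erase hy.1]
          · intro a ha haB b hb hbA hab
            have hbA' : b ∉ A := fun h => hbA (Finset.mem_insert_of_mem h)
            rcases Finset.mem_insert.mp ha with h1 | h1
            · apply hsep.2 x hxA hxB b hb hbA'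
              exact ⟨hneSep x b hxA hbA', Or.inr (Or.inl ⟨rfl, h1 ▸ hab⟩)⟩
            · exact hsep.2 a h1 haB b hb hbA' (hcr a b (hneSep a b h1 hbA') hab)
        have hint : insert y A ∩ B = A ∩ B := by
          ext z
          simp only [Finset.mem_inter, Finset.mem_insert]
          constructor
          · rintro ⟨h1 | h1, h2⟩
            · rw [h1] at h2; exact absurd h2 hyB
            · exact ⟨h1, h2⟩
          · rintro ⟨h1, h2⟩; exact ⟨Or.inr h1, h2⟩
        have hsd : B \ insert y A = B \ A := by
          ext z
          simp only [Finset.mem_sdiff, Finset.mem_insert, not_or]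
          constructor
          · rintro ⟨h1, _, h3⟩; exact ⟨h1, h3⟩
          · rintro ⟨h1, h2⟩
            refine ⟨h1, ?_, h2⟩
            intro h; rw [h] at h1; exact hyB h1
        have h1 := hM.m2 _ _ hS2 (hXA.trans (Finset.subset_insert _ _)) (by rw [hint]; exact hlt)
        rw [hsd] at h1
        have h2 := E_contr_le (r := r) (S := S) (U := B \ A) (x := x) (y := y) hy.1
          (fun h => (Finset.mem_sdiff.mp h).2 hxA)
        omega
    · push Not at hviol
      have hMc : Massed h (contr r x y) (S.erase y) X := by
        refine ⟨hXS', hXh, ?_, hviol⟩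
        have h1 := E_contr hs hirr (S := S) (X := X) hx.1 hx.2 hxyne
        have h2 : (S \ X).card = (S.erase y \ X).card + 1 := by
          have : S \ X = insert y (S.erase y \ X) := by
            ext z
            simp only [Finset.mem_sdiff, Finset.mem_insert, Finset.mem_erase]
            constructor
            · rintro ⟨h1, h2⟩
              by_cases hzv : z = y
              · exact Or.inl hzv
              · exact Or.inr ⟨⟨hzv, h1⟩, h2⟩
            · rintro (h1 | h1)
              · rw [h1]; exact hy
              · exact ⟨h1.1.2, h1.2⟩
          rw [this, Finset.card_insert_of_notMem]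
          simp
        rw [h2, Nat.mul_add] at hm1
        omega
      have hL := IH _ hcs hci _ X hcl hMc
      have hL2 := hL.uncontract hs hxy (Finset.notMem_erase _ _) hxS'
      rw [Finset.insert_erase hy.1] at hL2
      exact hnot hL2
  -- low degree vertex
  have hv0 : ∃ v ∈ S \ X, deg r S v ≤ 64 * h := by
    by_contra hcon
    push Not at hcon
    have h1 : (64 * h + 1) * (S \ X).card ≤ ∑ v ∈ S \ X, deg r S v := by
      have := Finset.card_nsmul_le_sum (S \ X) (fun v => deg r S v) (64 * h + 1)
        (fun v hv => hcon v hv)
      rw [smul_eq_mul] at this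
      rw [Nat.mul_comm]
      exact this
    have h2 := h1.trans (sum_deg_le.trans hEub)
    rw [Nat.add_mul, Nat.one_mul] at h2
    have h3 : (S \ X).card ≤ 2 := by omega
    obtain ⟨v, hv⟩ := hneSX
    have h4 := hcon v hv
    have h5 : deg r S v ≤ S.card := Finset.card_le_card (Finset.filter_subset _ _)
    have h6 := Finset.card_sdiff_add_card_eq_card hXS
    omega
  obtain ⟨v0, hv0, hv0d⟩ := hv0
  have hv0' := Finset.mem_sdiff.mp hv0
  set N0 := (S.filter (fun u => r v0 u)) \ X with hN0
  have hv0N : v0 ∉ N0 := by
    intro h
    rw [hN0, Finset.mem_sdiff, Finset.mem_filter] at h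
    exact hirr _ h.1.2
  set T := insert v0 N0 with hT
  have hTS : T ⊆ S := by
    intro z hz
    rw [hT, Finset.mem_insert] at hz
    rcases hz with h | h
    · rw [h]; exact hv0'.1
    · rw [hN0, Finset.mem_sdiff, Finset.mem_filter] at h
      exact h.1.1
  have hTcard : T.card ≤ 64 * h + 1 := by
    have h1 : N0.card ≤ deg r S v0 := Finset.card_le_card Finset.sdiff_subset
    have h2 : T.card ≤ N0.card + 1 := Finset.card_insert_le v0 N0
    omega
  have hTdeg : ∀ v ∈ T, 31 * h + 1 ≤ deg r T v := by
    intro v hv
    rw [hT, Finset.mem_insert] at hv
    rcases hv with hv | hv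
    · rw [hv]
      have h1 := hdeg v0 hv0
      have h2 : deg r S v0 ≤ N0.card + X.card := by
        have h3 : deg r S v0 ≤ (N0 ∪ X).card := by
          apply Finset.card_le_card
          intro z hz
          by_cases hzX : z ∈ X
          · exact Finset.mem_union_right _ hzX
          · exact Finset.mem_union_left _ (Finset.mem_sdiff.mpr ⟨hz, hzX⟩)
        exact h3.trans (Finset.card_union_le _ _)
      have h3 : N0.card ≤ deg r T v0 := by
        apply Finset.card_le_card
        intro z hz
        rw [Finset.mem_filter]
        refine ⟨Finset.mem_insert_of_mem hz, ?_⟩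
        rw [hN0, Finset.mem_sdiff, Finset.mem_filter] at hz
        exact hz.1.2
      omega
    · have hv1 := hv
      rw [hN0, Finset.mem_sdiff, Finset.mem_filter] at hv1
      have h1 := hcmn v0 hv0 v (Finset.mem_sdiff.mpr ⟨hv1.1.1, hv1.2⟩) hv1.1.2
      have h2 : (cmn r S v0 v).card ≤ (cmn r S v0 v \ X).card + X.card := by
        have h3 : (cmn r S v0 v).card ≤ ((cmn r S v0 v \ X) ∪ X).card := by
          apply Finset.card_le_card
          intro z hz
          by_cases hzX : z ∈ X
          · exact Finset.mem_union_right _ hzX
          · exact Finset.mem_union_left _ (Finset.mem_sdiff.mpr ⟨hz, hzX⟩)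
        exact h3.trans (Finset.card_union_le _ _)
      have h3 : (insert v0 (cmn r S v0 v \ X)).card ≤ deg r T v := by
        apply Finset.card_le_card
        intro z hz
        rw [Finset.mem_filter]
        rcases Finset.mem_insert.mp hz with h | h
        · rw [h]; exact ⟨Finset.mem_insert_self _ _, hs _ _ hv1.1.2⟩
        · rw [Finset.mem_sdiff] at h
          unfold cmn at h
          rw [Finset.mem_filter] at h
          refine ⟨Finset.mem_insert_of_mem ?_, h.1.2.2⟩
          rw [hN0, Finset.mem_sdiff, Finset.mem_filter]
          exact ⟨⟨h.1.1, h.1.2.1⟩, h.2⟩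
      rw [Finset.card_insert_of_notMem] at h3
      · omega
      · intro h
        rw [Finset.mem_sdiff] at h
        unfold cmn at h
        rw [Finset.mem_filter] at h
        exact hirr _ h.1.2.1
  obtain ⟨L, hLT, hLh, hLL⟩ := dense hs hh ⟨v0, Finset.mem_insert_self _ _⟩ hTcard hTdeg
  have hLS := hLT.trans hTS
  rcases joined_or hs hirr hXS hLS with hJ | ⟨A, B, hsep, hXA, hLB, hlt, hJ⟩
  · exact hnot (hJ.linked (Finset.Subset.refl _) hLS Finset.inter_subset_right
      (Finset.Subset.refl _) (fun Q' hQ' hc => hLL Q' hQ' (by omega)))
  · have hLk : Linked r B (A ∩ B) := hJ.linked (Finset.Subset.refl _) hLB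
      Finset.inter_subset_right (Finset.Subset.refl _)
      (fun Q' hQ' hc => hLL Q' hQ' (by omega))
    apply norigid A B hsep hXA _ (by omega) hLk
    rw [Finset.nonempty_iff_ne_empty]
    intro hem
    rw [Finset.sdiff_eq_empty_iff_subset] at hem
    have := Finset.card_le_card (Finset.subset_inter (hLB.trans hem) hLB)
    omega

/-- Thomas–Wollan type theorem. -/
theorem tw {h : ℕ} (hh : 1 ≤ h) : ∀ n m : ℕ, ∀ r : V → V → Prop, (∀ u v, r u v → r v u) →
    (∀ u, ¬ r u u) → ∀ S X : Finset V, S.card = n → E r S (S \ X) = m → Massed h r S X →
    Linked r S X := by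
  intro n
  induction n using Nat.strong_induction_on with
  | _ n IH =>
  intro m
  induction m using Nat.strong_induction_on with
  | _ m IH2 =>
  intro r hs hirr S X hn hm hM
  apply tw_step hh hs hirr hM
  · intro r' hs' hirr' S' X' hlt hM'
    exact IH S'.card (by omega) _ r' hs' hirr' S' X' rfl rfl hM'
  · intro r' hs' hirr' hlt hM'
    exact IH2 (E r' S (S \ X)) (by omega) r' hs' hirr' S X hn rfl hM'

theorem Massed.linked {h : ℕ} (hh : 1 ≤ h) {r : V → V → Prop} (hs : ∀ u v, r u v → r v u)
    (hirr : ∀ u, ¬ r u u) {S X : Finset V} (hM : Massed h r S X) : Linked r S X :=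
  tw hh _ _ r hs hirr S X rfl rfl hM

end Pool.Agent.Mader
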